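import Pool.Agent.Lib.MP_f80667_ag.Sm.Nd
import Pool.Agent.Lib.MP_f80667_ag.Nf.ChoA

/-! The generic weights, `p` odd. -/

open ZC BE PE Polynomial IntermediateField CV GM

namespace NE

variable {F : Type} [Field F] {K Ω : Type} [Field K] [Field Ω] [Algebra K Ω] [Algebra F K]
  [Algebra F Ω] [IsScalarTower F K Ω] [CharZero K] [IsAlgClosure K Ω] {L : Ld K Ω} {n : ℕ}
  {W : Fin n → WeierstrassCurve F}

section aux

omit [CharZero K] [IsAlgClosure K Ω]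

private theorem cho_4 (h2 : L.p ≠ 2) : (4 : L.κ) ≠ 0 := by
  have hch := L.char_κ
  intro h5
  have h6 : ((4 : ℕ) : L.κ) = 0 := by
    rw [Nat.cast_ofNat]
    exact h5
  have h7 := (CharP.cast_eq_zero_iff L.κ L.p 4).1 h6
  have h8 : L.p ∣ 2 := L.pp.dvd_of_dvd_pow (n := 2) (by norm_num; exact h7)
  exact h2 ((Nat.prime_dvd_prime_iff_eq L.pp Nat.prime_two).1 h8)

private theorem cho_disc2 (h2 : L.p ≠ 2) (W₁ : WeierstrassCurve L.κ) :
    (bk W₁ X) ^ 2 + 4 * fk W₁ X ≠ 0 := by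
  have h5 : (bk W₁ X) ^ 2 + 4 * fk W₁ X =
      (⟨4, W₁.a₁ ^ 2 + 4 * W₁.a₂, 2 * W₁.a₁ * W₁.a₃ +
        4 * W₁.a₄, W₁.a₃ ^ 2 + 4 * W₁.a₆⟩ : Cubic L.κ).toPoly := by
    simp only [bk, fk, Cubic.toPoly, map_add, map_mul, map_pow, map_ofNat]
    ring
  rw [h5]
  exact Cubic.ne_zero_of_a_ne_zero (cho_4 h2)

private theorem cho_disc_comp2 (h2 : L.p ≠ 2) (W₁ : WeierstrassCurve L.κ) {r : L.κ[X]}
    (hr : 0 < r.natDegree) : (bk W₁ r) ^ 2 + 4 * fk W₁ r ≠ 0 := by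
  intro h0
  have h1 : (bk W₁ r) ^ 2 + 4 * fk W₁ r = ((bk W₁ X) ^ 2 + 4 * fk W₁ X).comp r := by
    simp only [bk, fk, add_comp, mul_comp, pow_comp, C_comp, X_comp, ofNat_comp, Nat.cast_ofNat]
  rw [h1, Polynomial.comp_eq_zero_iff] at h0
  rcases h0 with h0 | h0
  · exact cho_disc2 h2 W₁ h0
  · have h3 := h0.2
    rw [h3, natDegree_C] at hr
    exact lt_irrefl _ hr

end aux

omit [Algebra F K] [IsScalarTower F K Ω] in
/-- Proof: as `cho_om` (`Nf/ChoA.lean`); the polynomials `bk² + 4 fk` are not `0` since `4 ≠ 0` in `L.κ` (the case `p ≠ 2` of `cho_disc`, which does not use `Hd`). -/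
theorem cho_om2 (h2 : L.p ≠ 2) (W : Fin n → WeierstrassCurve F) {r' : Fin n → Polynomial L.κ}
    (hr : ∀ i, 0 < (r' i).natDegree) (δ : Fin n → L.κ) :
    ∃ (c₁ : L.κ) (s : Finset L.κ), ∀ ω ∉ s, ω ≠ 0 ∧
      ((Tg (fun i => L.rc (W i)) r' fun i => ω ^ (i : ℕ)).map (evalRingHom c₁)).Separable ∧
      ∀ S : Finset (Fin n), (∃ i ∈ S, δ i ≠ 0) → ∑ i ∈ S, ω ^ (i : ℕ) * δ i ≠ 0 := by
  classical
  have hac : IsAlgClosed Ω := IsAlgClosure.isAlgClosed K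
  have hκ : IsAlgClosed L.κ := L.κ_closed
  have hD : ∀ i, (bk (L.rc (W i)) (r' i)) ^ 2 + 4 * fk (L.rc (W i)) (r' i) ≠ 0 := fun i =>
    cho_disc_comp2 h2 (L.rc (W i)) (hr i)
  obtain ⟨c₁, hc₁⟩ : ∃ c₁ : L.κ,
      (∏ i, ((bk (L.rc (W i)) (r' i)) ^ 2 + 4 * fk (L.rc (W i)) (r' i))).eval c₁ ≠ 0 := by
    by_contra hc
    push Not at hc
    exact Finset.prod_ne_zero_iff.2 (fun i _ => hD i)
      (Polynomial.funext (fun z => by rw [hc z, eval_zero]))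
  rw [eval_prod, Finset.prod_ne_zero_iff] at hc₁
  obtain ⟨s₁, hs₁⟩ := gen_sep (k := L.κ)
    (B := fun i => (L.rc (W i)).a₁ * (r' i).eval c₁ + (L.rc (W i)).a₃)
    (F := fun i => (r' i).eval c₁ ^ 3 + (L.rc (W i)).a₂ * (r' i).eval c₁ ^ 2 +
      (L.rc (W i)).a₄ * (r' i).eval c₁ + (L.rc (W i)).a₆) (fun i => by
    have h1 := hc₁ i (Finset.mem_univ i)
    simpa only [bk, fk, eval_add, eval_mul, eval_pow, eval_C, eval_ofNat] using h1)
  obtain ⟨s₂, hs₂⟩ := gen_sum δ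
  refine ⟨c₁, insert 0 (s₁ ∪ s₂), fun ω hω => ?_⟩
  rw [Finset.mem_insert, Finset.mem_union, not_or, not_or] at hω
  refine ⟨hω.1, ?_, hs₂ ω hω.2.2⟩
  rw [tg_fib]
  exact hs₁ ω hω.2.1

/-- The derivative of the fibre at `π`. Proof: as `cho_der` (`Nf/Cho.lean`). -/
theorem cho_der2 {M : IntermediateField K Ω} {N : ℕ} {x y : Fin n → Ω} {π : Ω}
    (h : Go L W M N π x y) {w : Fin n → Ω} (hw1 : ∀ i, L.nm (w i) = 1)
    (hS : ∀ S : Finset (Fin n), (∃ i ∈ S, L.nm (dy (W i) (x i) (y i)) = 1) →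
      L.nm (∑ i ∈ S, w i * dy (W i) (x i) (y i)) = 1) {r : Fin n → Polynomial Ω} {z : Ω}
    (hr0 : ∀ i, (r i).eval z = x i) :
    ev₂ (z, ∑ i, w i * y i) (dY (To Ω W r w)) ≠ 0 := by
  have h1 : Rt w (fun i => ((W i).baseChange Ω).a₁ * x i + ((W i).baseChange Ω).a₃)
      (fun i => x i ^ 3 + ((W i).baseChange Ω).a₂ * x i ^ 2 + ((W i).baseChange Ω).a₄ * x i +
        ((W i).baseChange Ω).a₆) (∑ i, w i * y i) y := rt_fe.2 ⟨h.eq, rfl⟩
  rw [tg_dY]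
  have h2 : (fun i => (r i).eval (z, ∑ i, w i * y i).1) = x := funext hr0
  rw [h2]
  refine rt_der h1 fun S hSn => ?_
  have h3 : ∀ i ∈ S, w i * (2 * y i + (((W i).baseChange Ω).a₁ * x i +
      ((W i).baseChange Ω).a₃)) = w i * dy (W i) (x i) (y i) := by
    intro i _
    unfold dy
    rw [← add_assoc]
    rfl
  rw [Finset.sum_congr rfl h3]
  by_cases hu : ∃ i ∈ S, L.nm (dy (W i) (x i) (y i)) = 1
  · exact L.ne_zero (by rw [hS S hu]; exact zero_lt_one)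
  · push Not at hu
    obtain ⟨i₀, hi₀⟩ := hSn
    have h4 : S = {i₀} := by
      refine Finset.eq_singleton_iff_unique_mem.2 ⟨hi₀, fun j hj => ?_⟩
      by_contra hne
      rcases h.one j i₀ hne with h5 | h5
      · exact hu j hj h5
      · exact hu i₀ hi₀ h5
    rw [h4, Finset.sum_singleton]
    exact mul_ne_zero (L.ne_zero (by rw [hw1]; exact zero_lt_one)) (h.ne i₀)

end NE
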