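import Pool.Agent.Lib.MP_f80667_ag.Pe.Tm

/-!
The norms of the values of the minimal polynomial and of the coordinate at the node.
-/

open ZC BE PE Polynomial IntermediateField

namespace NE

variable {K Ω : Type} [Field K] [Field Ω] [Algebra K Ω] [CharZero K] [IsAlgClosure K Ω] {L : Ld K Ω}
  [L.Unr] {M : IntermediateField K Ω} {N : ℕ} {π : Ω}

/-- The minimal polynomial. Proof: `m = X ^ e + ∑ (k < e) m_k X ^ k` with `m_k ∈ Ur ⊥ N`, `nm m_k < 1` (`Tm.red` for `d = 0`, `δ = 0`), so `nm m_k ≤ nm p` (`ur_lt` with `i = 0`). -/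
theorem tm_nm {e : ℕ} {m : Polynomial Ω} (hm : L.Tm M N 0 π e m) (hN : N ≠ 0) {z : Ω}
    (h1 : L.nm z < 1) (h2 : L.nm (L.p : Ω) < L.nm z ^ e) : L.nm (m.eval z) = L.nm z ^ e := by
  have hc : ∀ k, k < e → L.nm (m.coeff k) ≤ L.nm (L.p : Ω) := by
    intro k hk
    have h3 := hm.red 0 (L.hv_zero.2 (by rw [L.zero]; exact zero_lt_one)) k
    rw [C_0, sub_zero, coeff_X_pow, if_neg hk.ne] at h3
    have h4 := Ld.ur_lt hN (hm.ip k).1 (i := 0) (by rw [pow_zero]; exact L.hv_zero.1 h3)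
    rwa [zero_add, pow_one] at h4
  have hs : m.eval z = z ^ e + ∑ i ∈ Finset.range e, m.coeff i * z ^ i := by
    conv_lhs => rw [hm.monic.as_sum]
    rw [hm.deg]
    simp only [eval_add, eval_pow, eval_X, eval_finsetSum, eval_mul, eval_C]
  have hle : L.nm (∑ i ∈ Finset.range e, m.coeff i * z ^ i) ≤ L.nm (L.p : Ω) := by
    refine L.sum_le _ _ (L.nonneg _) fun i hi => ?_
    rw [L.mul, L.pow]
    exact (mul_le_of_le_one_right (L.nonneg _) (pow_le_one₀ (L.nonneg _) h1.le)).trans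
      (hc i (Finset.mem_range.1 hi))
  rw [hs, L.add_eq' (by rw [L.pow]; exact hle.trans_lt h2), L.pow]

omit [CharZero K] [IsAlgClosure K Ω] [L.Unr] in
/-- The first two coefficients. -/
private theorem va_lin {F : IntermediateField K Ω} {g : Polynomial Ω} (hg : L.Ip F g) {z : Ω}
    (hz : L.nm z ≤ 1) : ∃ h : Ω, L.nm h ≤ 1 ∧
      g.eval z = g.coeff 0 + g.coeff 1 * z + z ^ 2 * h := by
  refine ⟨(g.divX.divX).eval z, L.eval_le (fun i => ?_) hz, ?_⟩
  · rw [coeff_divX, coeff_divX]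
    exact (hg _).2
  · have h1 : g.eval z = g.divX.eval z * z + g.coeff 0 := by
      conv_lhs => rw [← divX_mul_X_add g]
      rw [eval_add, eval_mul, eval_X, eval_C]
    have h2 : g.divX.eval z = g.divX.divX.eval z * z + g.divX.coeff 0 := by
      conv_lhs => rw [← divX_mul_X_add g.divX]
      rw [eval_add, eval_mul, eval_X, eval_C]
    rw [coeff_divX] at h2
    rw [h1, h2]
    ring

/-- The coordinate at the node. Proof: `g(π) ≡ g_0`, so `nm g_0 < 1` and `nm g_0 ≤ nm p` (`ur_lt`); if `nm g_1 < 1` then `nm g_1 ≤ nm p` and `nm (g(π)) ≤ max (nm p) (nm π ^ 2) < nm π`; so `nm g_1 = 1` and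
`nm (g(z)) = nm z` for `nm p < nm z < 1`. -/
theorem lv_nm {g : Polynomial Ω} (hN : N ≠ 0) (hg : L.Ip (L.Ur ⊥ N) g) (h0 : 0 < L.nm π)
    (h1 : L.nm π < 1) (hlv : L.nm (L.p : Ω) < L.nm π ^ 2) (hgπ : L.nm (g.eval π) = L.nm π) {z : Ω}
    (hz : L.nm z < 1) (hz' : L.nm (L.p : Ω) < L.nm z) : L.nm (g.eval z) = L.nm z := by
  have hsq : ∀ {x : Ω}, 0 < L.nm x → L.nm x < 1 → L.nm x ^ 2 < L.nm x := by
    intro x hx hx1
    rw [sq]
    exact mul_lt_of_lt_one_left hx hx1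
  have hquad : ∀ {x h : Ω}, L.nm h ≤ 1 → L.nm (x ^ 2 * h) ≤ L.nm x ^ 2 := by
    intro x h hh
    rw [L.mul, L.pow]
    exact mul_le_of_le_one_right (pow_nonneg (L.nonneg _) 2) hh
  have hp1 : L.nm (L.p : Ω) < 1 := L.lt
  -- the coefficient 0
  obtain ⟨h, hh, hgh⟩ := va_lin hg h1.le
  have hc0 : L.nm (g.coeff 0) ≤ L.nm (L.p : Ω) := by
    have h2 : L.nm (g.coeff 0) < 1 := by
      have h3 : g.coeff 0 = g.eval π - (g.coeff 1 * π + π ^ 2 * h) := by
        rw [hgh]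
        ring
      rw [h3]
      refine (L.sub _ _).trans_lt (max_lt (by rw [hgπ]; exact h1) ?_)
      refine (L.add _ _).trans_lt (max_lt ?_ ((hquad hh).trans_lt ((hsq h0 h1).trans h1)))
      rw [L.mul]
      exact (mul_le_of_le_one_left (L.nonneg _) (hg 1).2).trans_lt h1
    have h4 := Ld.ur_lt hN (hg 0).1 (i := 0) (by rw [pow_zero]; exact h2)
    rwa [zero_add, pow_one] at h4
  -- the coefficient 1
  have hc1 : L.nm (g.coeff 1) = 1 := by
    by_contra hne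
    have h2 : L.nm (g.coeff 1) < 1 := lt_of_le_of_ne (hg 1).2 hne
    have h3 := Ld.ur_lt hN (hg 1).1 (i := 0) (by rw [pow_zero]; exact h2)
    rw [zero_add, pow_one] at h3
    have h4 : L.nm (g.eval π) < L.nm π := by
      rw [hgh]
      refine (L.add _ _).trans_lt (max_lt ((L.add _ _).trans_lt (max_lt ?_ ?_)) ?_)
      · exact hc0.trans_lt (hlv.trans (hsq h0 h1))
      · rw [L.mul]
        exact mul_lt_of_lt_one_left h0 h2
      · exact (hquad hh).trans_lt (hsq h0 h1)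
    rw [hgπ] at h4
    exact lt_irrefl _ h4
  obtain ⟨k, hk, hgk⟩ := va_lin hg hz.le
  have hz0 : 0 < L.nm z := (L.nonneg _).trans_lt hz'
  have h5 : g.eval z = g.coeff 1 * z + (g.coeff 0 + z ^ 2 * k) := by
    rw [hgk]
    ring
  rw [h5, L.add_eq', L.mul, hc1, one_mul]
  rw [L.mul, hc1, one_mul]
  exact (L.add _ _).trans_lt (max_lt (hc0.trans_lt hz') ((hquad hk).trans_lt (hsq hz0 hz)))

end NE
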