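import Pool.Agent.Lib.MP_f80667_ag.Sm.Nd
import Pool.Agent.Lib.MP_f80667_ag.Sm.VaT
import Pool.Agent.Lib.MP_f80667_ag.Nf.Va

/-!
The value of `Θ(z, A(z))` at a point `z₀` of norm near `1`.
-/

open ZC BE PE Polynomial IntermediateField CV GM

namespace NE

variable {F : Type} [Field F] {K Ω : Type} [Field K] [Field Ω] [Algebra K Ω] [Algebra F K]
  [Algebra F Ω] [IsScalarTower F K Ω] [CharZero K] [IsAlgClosure K Ω] {L : Ld K Ω} [L.Unr] {n : ℕ}
  {W : Fin n → WeierstrassCurve F} {M : IntermediateField K Ω} {N : ℕ} {x y : Fin n → Ω} {π : Ω}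

omit [CharZero K] [Algebra F K] [Algebra F Ω] [IsScalarTower F K Ω] [IsAlgClosure K Ω] [L.Unr] in
private theorem v2_comb {u v s t : Ω} (hu : u ∈ L.V) (hv : v ∈ L.V) (hs : L.nm s < 1)
    (ht : L.nm t < 1) : L.nm (u * s + v * t) < 1 := by
  refine (L.add _ _).trans_lt (max_lt ?_ ?_)
  · rw [L.mul]
    exact mul_lt_one_of_nonneg_of_lt_one_right hu (L.nonneg _) hs
  · rw [L.mul]
    exact mul_lt_one_of_nonneg_of_lt_one_right hv (L.nonneg _) ht

omit [CharZero K] [Algebra F K] [IsScalarTower F K Ω] [IsAlgClosure K Ω] [L.Unr] in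
/-- The equation and the derivative at two close points. -/
private theorem v2_cg {W : WeierstrassCurve F} (h : L.It W) {x y x' y' : Ω} (hx : L.nm x ≤ 1)
    (hy : L.nm y ≤ 1) (hx' : L.nm x' ≤ 1) (hy' : L.nm y' ≤ 1) (hxx : L.nm (x - x') < 1)
    (hyy : L.nm (y - y') < 1) : L.nm (fe W x y - fe W x' y') < 1 ∧
      L.nm (dy W x y - dy W x' y') < 1 := by
  have hx : x ∈ L.V := hx
  have hy : y ∈ L.V := hy
  have hx' : x' ∈ L.V := hx'
  have hy' : y' ∈ L.V := hy'
  have h1 : algebraMap F Ω W.a₁ ∈ L.V := h.a₁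
  have h2 : algebraMap F Ω W.a₂ ∈ L.V := h.a₂
  have h3 : algebraMap F Ω W.a₃ ∈ L.V := h.a₃
  have h4 : algebraMap F Ω W.a₄ ∈ L.V := h.a₄
  have e2 : (2 : Ω) ∈ L.V := ofNat_mem L.V 2
  refine ⟨?_, ?_⟩
  · have e : fe W x y - fe W x' y' = (algebraMap F Ω W.a₁ * y' - (x ^ 2 + x * x' + x' ^ 2) -
        algebraMap F Ω W.a₂ * (x + x') - algebraMap F Ω W.a₄) * (x - x') +
        (y + y' + algebraMap F Ω W.a₁ * x + algebraMap F Ω W.a₃) * (y - y') := by
      simp only [fe]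
      ring
    rw [e]
    refine v2_comb ?_ ?_ hxx hyy
    · exact sub_mem (sub_mem (sub_mem (mul_mem h1 hy') (add_mem (add_mem (pow_mem hx 2)
        (mul_mem hx hx')) (pow_mem hx' 2))) (mul_mem h2 (add_mem hx hx'))) h4
    · exact add_mem (add_mem (add_mem hy hy') (mul_mem h1 hx)) h3
  · have e : dy W x y - dy W x' y' = algebraMap F Ω W.a₁ * (x - x') + 2 * (y - y') := by
      simp only [dy]
      ring
    rw [e]
    exact v2_comb h1 e2 hxx hyy

omit [CharZero K] [Algebra F K] [Algebra F Ω] [IsScalarTower F K Ω] [IsAlgClosure K Ω] [L.Unr] in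
private theorem v2_lt {u v : Ω} (h : L.nm (u - v) < 1) (hv : L.nm v < 1) : L.nm u < 1 := by
  have h1 := L.add (u - v) v
  rw [sub_add_cancel] at h1
  exact h1.trans_lt (max_lt h hv)

omit [CharZero K] [Algebra F K] [Algebra F Ω] [IsScalarTower F K Ω] [IsAlgClosure K Ω] [L.Unr] in
private theorem v2_le {u v : Ω} (h : L.nm (u - v) < 1) (hv : L.nm v ≤ 1) : L.nm u ≤ 1 := by
  have h1 := L.add (u - v) v
  rw [sub_add_cancel] at h1
  exact h1.trans (max_le h.le hv)

omit [CharZero K] [Algebra F K] [Algebra F Ω] [IsScalarTower F K Ω] [IsAlgClosure K Ω] [L.Unr] in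
private theorem v2_one {u v : Ω} (h : L.nm (u - v) < 1) (hv : L.nm v = 1) : L.nm u = 1 := by
  rw [← hv]
  exact L.eq_of_close (by rw [hv]; exact h)

omit [CharZero K] [Algebra F K] [Algebra F Ω] [IsScalarTower F K Ω] [IsAlgClosure K Ω] [L.Unr] in
private theorem v2_sum {ι : Type} (s : Finset ι) {f : ι → Ω} (h : ∀ i ∈ s, L.nm (f i) < 1) :
    L.nm (∑ i ∈ s, f i) < 1 := by
  classical
  induction s using Finset.induction_on with
  | empty =>
    rw [Finset.sum_empty, L.zero]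
    exact zero_lt_one
  | insert a s ha ih =>
    rw [Finset.sum_insert ha]
    exact (L.add _ _).trans_lt (max_lt (h a (Finset.mem_insert_self a s))
      (ih fun i hi => h i (Finset.mem_insert_of_mem hi)))

omit [CharZero K] [Algebra F K] [Algebra F Ω] [IsScalarTower F K Ω] [IsAlgClosure K Ω] [L.Unr] in
private theorem v2_prod {ι : Type} (s : Finset ι) (f : ι → Ω) :
    L.nm (∏ i ∈ s, f i) = ∏ i ∈ s, L.nm (f i) := by
  classical
  induction s using Finset.induction_on with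
  | empty => rw [Finset.prod_empty, Finset.prod_empty, L.one]
  | insert a s ha ih => rw [Finset.prod_insert ha, Finset.prod_insert ha, L.mul, ih]

omit [CharZero K] [Algebra F K] [IsScalarTower F K Ω] [IsAlgClosure K Ω] [L.Unr] in
/-- The roots near a singular point. -/
private theorem v2_sing {W : WeierstrassCurve F} (h : L.It W) {x y x₀ η : Ω} (hx1 : L.nm x ≤ 1)
    (hy1 : L.nm y ≤ 1) (he : fe W x y = 0) (hd : L.nm (dy W x y) < 1) (hx0 : L.nm x₀ ≤ 1)
    (hxx : L.nm (x₀ - x) < 1) (hη : fe W x₀ η = 0) : L.nm (η - y) < 1 := by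
  have hyy : L.nm (y - y) < 1 := by
    rw [sub_self, L.zero]
    exact zero_lt_one
  obtain ⟨k1, k3⟩ := v2_cg h hx0 hy1 hx1 hy1 hxx hyy
  rw [he, sub_zero] at k1
  have k4 := v2_lt k3 hd
  have e : (η - y) ^ 2 = -((η - y) * dy W x₀ y + fe W x₀ y) := by
    have h1 : (η - y) ^ 2 = fe W x₀ η - ((η - y) * dy W x₀ y + fe W x₀ y) := by
      simp only [fe, dy]
      ring
    rw [h1, hη, zero_sub]
  by_contra hc
  rw [not_lt] at hc
  have e2 : L.nm (η - y) ^ 2 ≤ max (L.nm (η - y) * L.nm (dy W x₀ y)) (L.nm (fe W x₀ y)) := by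
    rw [← L.pow, e, L.neg, ← L.mul]
    exact L.add _ _
  have h0 := L.nonneg (dy W x₀ y)
  rcases le_max_iff.1 e2 with h2 | h2
  · nlinarith
  · nlinarith

omit [Algebra F K] [IsScalarTower F K Ω] [L.Unr] in
/-- A root near a point. -/
private theorem v2_near {W : WeierstrassCurve F} (h : L.It W) {x y x₀ : Ω} (hx1 : L.nm x ≤ 1)
    (hy1 : L.nm y ≤ 1) (he : fe W x y = 0) (hx0 : L.nm x₀ ≤ 1) (hxx : L.nm (x₀ - x) < 1) :
    ∃ η : Ω, fe W x₀ η = 0 ∧ L.nm (η - y) < 1 := by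
  have hyy : L.nm (y - y) < 1 := by
    rw [sub_self, L.zero]
    exact zero_lt_one
  obtain ⟨k1, -⟩ := v2_cg h hx0 hy1 hx1 hy1 hxx hyy
  rw [he, sub_zero] at k1
  obtain ⟨η, hη⟩ := Ld.dy_root K W x₀
  obtain ⟨η', hη'⟩ : ∃ η', η' = -(algebraMap F Ω W.a₁ * x₀ + algebraMap F Ω W.a₃) - η := ⟨_, rfl⟩
  have hη'0 : fe W x₀ η' = 0 := by
    rw [← hη, hη']
    simp only [fe]
    ring
  have e : (η - y) * (η' - y) = fe W x₀ y := by
    have h1 : (η - y) * (η' - y) = fe W x₀ y - fe W x₀ η := by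
      rw [hη']
      simp only [fe]
      ring
    rw [h1, hη, sub_zero]
  by_cases hc : L.nm (η - y) < 1
  · exact ⟨η, hη, hc⟩
  · refine ⟨η', hη'0, ?_⟩
    by_contra hc'
    rw [not_lt] at hc hc'
    rw [← e, L.mul] at k1
    exact absurd k1 (not_lt.2 (one_le_mul_of_one_le_of_one_le hc hc'))

omit [CharZero K] [Algebra F K] [IsScalarTower F K Ω] [IsAlgClosure K Ω] [L.Unr] in
private theorem v2_rt {r : Fin n → Polynomial Ω} {η : Fin n → Ω} {z : Ω}
    (hη : ∀ i, fe (W i) ((r i).eval z) (η i) = 0) (i : Fin n) :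
    η i ^ 2 + (((W i).baseChange Ω).a₁ * (r i).eval z + ((W i).baseChange Ω).a₃) * η i =
      (r i).eval z ^ 3 + ((W i).baseChange Ω).a₂ * (r i).eval z ^ 2 +
        ((W i).baseChange Ω).a₄ * (r i).eval z + ((W i).baseChange Ω).a₆ := by
  have h2 := hη i
  simp only [fe] at h2
  show η i ^ 2 + (algebraMap F Ω (W i).a₁ * (r i).eval z + algebraMap F Ω (W i).a₃) * η i =
    (r i).eval z ^ 3 + algebraMap F Ω (W i).a₂ * (r i).eval z ^ 2 +
      algebraMap F Ω (W i).a₄ * (r i).eval z + algebraMap F Ω (W i).a₆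
  linear_combination h2

omit [CharZero K] [Algebra F K] [IsScalarTower F K Ω] [IsAlgClosure K Ω] [L.Unr] in
private theorem v2_dy {r : Fin n → Polynomial Ω} {η : Fin n → Ω} {z : Ω} (i : Fin n) :
    2 * η i + (((W i).baseChange Ω).a₁ * (r i).eval z + ((W i).baseChange Ω).a₃) =
      dy (W i) ((r i).eval z) (η i) := by
  simp only [dy]
  show 2 * η i + (algebraMap F Ω (W i).a₁ * (r i).eval z + algebraMap F Ω (W i).a₃) = _
  ring

omit [CharZero K] [Algebra F K] [IsScalarTower F K Ω] [IsAlgClosure K Ω] [L.Unr] in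
/-- The value as a product. -/
private theorem v2_val {r : Fin n → Polynomial Ω} {w η : Fin n → Ω} {z : Ω} (A : Polynomial Ω)
    (hη : ∀ i, fe (W i) ((r i).eval z) (η i) = 0) :
    ((To Ω W r w).eval A).eval z = ∏ S : Finset (Fin n),
      (A.eval z - ∑ i, w i * η i + ∑ i ∈ S, w i * dy (W i) ((r i).eval z) (η i)) := by
  have h1 := tg_evA (fun i => (W i).baseChange Ω) r w A z
  rw [show (To Ω W r w) = Tg (fun i => (W i).baseChange Ω) r w from rfl, h1]
  unfold Tf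
  rw [th_val (η := η) (fun i => v2_rt hη i)]
  refine Finset.prod_congr rfl fun S _ => ?_
  congr 1
  refine Finset.sum_congr rfl fun i _ => ?_
  congr 1
  exact v2_dy i

omit [CharZero K] [Algebra F K] [Algebra F Ω] [IsScalarTower F K Ω] [IsAlgClosure K Ω] [L.Unr] in
/-- One residue is excluded. -/
private theorem v2_ex (a m₀ : Ω) (hm : m₀ ≠ 0) : ∃ s : Finset L.κ, ∀ (l : Ω) (ρ : L.κ),
    L.rs.Hv l ρ → ρ ∉ s → L.nm m₀ ≤ L.nm (a + l * m₀) := by
  obtain ⟨c, hc⟩ : ∃ c, c = a / m₀ := ⟨_, rfl⟩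
  have e : ∀ l, a + l * m₀ = m₀ * (c + l) := by
    intro l
    rw [mul_add, hc, mul_div_cancel₀ _ hm, mul_comm l]
  by_cases hc1 : L.nm c ≤ 1
  · refine ⟨{-L.rr c}, fun l ρ hl hρ => ?_⟩
    rw [Finset.mem_singleton] at hρ
    have hcl : L.nm (c + l) = 1 := by
      rw [← L.hv_ne ((L.hv_rr hc1).add hl)]
      intro h0
      exact hρ (eq_neg_of_add_eq_zero_right h0)
    rw [e, L.mul, hcl, mul_one]
  · refine ⟨∅, fun l ρ hl _ => ?_⟩
    rw [not_le] at hc1
    have h1 : L.nm (c + l) = L.nm c := L.add_eq' ((L.hv_int hl).trans_lt hc1)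
    rw [e, L.mul, h1]
    exact le_mul_of_one_le_right (L.nonneg _) hc1.le

omit [Algebra K Ω] [Field K] [Algebra F K] [IsScalarTower F K Ω] [L.Unr] [CharZero K] [IsAlgClosure K Ω] in
/-- The points over a coordinate form a finite set. -/
private theorem v2_fin (K : Type) [Field K] [CharZero K] [Algebra K Ω] [IsAlgClosure K Ω]
    (W : WeierstrassCurve F) (x : Ω) : {t : Ω | fe W x t = 0}.Finite := by
  obtain ⟨η, hη⟩ := Ld.dy_root K W x
  refine Set.Finite.subset (Set.toFinite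
    {η, -(algebraMap F Ω W.a₁ * x + algebraMap F Ω W.a₃) - η}) ?_
  intro t ht
  have ht : fe W x t = 0 := ht
  have e : (t - η) * (t - (-(algebraMap F Ω W.a₁ * x + algebraMap F Ω W.a₃) - η)) = 0 := by
    have h1 : (t - η) * (t - (-(algebraMap F Ω W.a₁ * x + algebraMap F Ω W.a₃) - η)) =
        fe W x t - fe W x η := by
      simp only [fe]
      ring
    rw [h1, ht, hη, sub_zero]
  rcases mul_eq_zero.1 e with h | h
  · exact Or.inl (sub_eq_zero.1 h)
  · exact Or.inr (sub_eq_zero.1 h)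

omit [Algebra F K] [IsScalarTower F K Ω] [L.Unr] [IsAlgClosure K Ω] in
/-- The ramification points of a nonconstant coordinate form a finite set. -/
private theorem v2_ram (K : Type) [Field K] [CharZero K] [Algebra K Ω] (W : WeierstrassCurve F)
    {R : Polynomial Ω} (hR : R.natDegree ≠ 0) :
    {z : Ω | ∃ t, fe W (R.eval z) t = 0 ∧ dy W (R.eval z) t = 0}.Finite := by
  classical
  have hcz : CharZero Ω := charZero_of_injective_algebraMap (algebraMap K Ω).injective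
  obtain ⟨P, hP⟩ : ∃ P : Polynomial Ω, P = C 4 * (X ^ 3 + C (algebraMap F Ω W.a₂) * X ^ 2 +
      C (algebraMap F Ω W.a₄) * X + C (algebraMap F Ω W.a₆)) +
      (C (algebraMap F Ω W.a₁) * X + C (algebraMap F Ω W.a₃)) ^ 2 := ⟨_, rfl⟩
  have hPe : ∀ x t, fe W x t = 0 → dy W x t = 0 → P.eval x = 0 := by
    intro x t h1 h2
    have h3 : P.eval x = dy W x t ^ 2 - 4 * fe W x t := by
      rw [hP]
      simp only [eval_add, eval_mul, eval_pow, eval_C, eval_X, fe, dy]
      ring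
    rw [h3, h1, h2]
    ring
  have hP3 : P.coeff 3 = 4 := by
    rw [hP]
    have e : (C 4 * (X ^ 3 + C (algebraMap F Ω W.a₂) * X ^ 2 +
      C (algebraMap F Ω W.a₄) * X + C (algebraMap F Ω W.a₆)) +
      (C (algebraMap F Ω W.a₁) * X + C (algebraMap F Ω W.a₃)) ^ 2 : Polynomial Ω) =
      C 4 * X ^ 3 + C (4 * algebraMap F Ω W.a₂ + algebraMap F Ω W.a₁ ^ 2) * X ^ 2 +
      C (4 * algebraMap F Ω W.a₄ + 2 * algebraMap F Ω W.a₁ * algebraMap F Ω W.a₃) * X +
      C (4 * algebraMap F Ω W.a₆ + algebraMap F Ω W.a₃ ^ 2) := by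
      simp only [C_add, C_mul, C_pow]
      have e2 : (C 2 : Polynomial Ω) = 2 := rfl
      have e4 : (C 4 : Polynomial Ω) = 4 := rfl
      rw [e2, e4]
      ring
    rw [e]
    simp only [coeff_add, coeff_C_mul_X_pow, coeff_C_mul_X, coeff_C]
    norm_num
  have hP0 : P ≠ 0 := by
    intro h0
    rw [h0, coeff_zero] at hP3
    have h4 : (4 : Ω) ≠ 0 := by norm_num
    exact h4 hP3.symm
  have hPR : P.comp R ≠ 0 := by
    intro h0
    rcases comp_eq_zero_iff.1 h0 with h1 | ⟨-, h1⟩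
    · exact hP0 h1
    · refine hR ?_
      rw [h1, natDegree_C]
  refine Set.Finite.subset (P.comp R).roots.toFinset.finite_toSet ?_
  rintro z ⟨t, h1, h2⟩
  rw [Finset.mem_coe, Multiset.mem_toFinset, mem_roots hPR, IsRoot.def, eval_comp]
  exact hPe _ _ h1 h2

/-- **The value at `z₀`.** Let `R i = f i + X m`, `A = A₁ + l m`. Choose `z₀` with `z₀ ^ (e + 2) = p`. For every `z` with `nm z < 1`: `R i (z) ≡ R i (π) = x i` (`Ip.close`), choose roots `η i` of `fe (W i) (R i (z)) = 0` near `y i`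
(`dy` a unit: the two roots have the product of the distances to `y i` equal to `fe (W i) (R i (z)) (y i)`, of norm `< 1`, choose the near one; `Sl`: both are near, `va_sing` in `Nf/Va.lean`, private: copy). As in `va_zero`
(`th_val`, `tg_evA`): `Θ(z, A(z)) = ∏ S (A(z) - ∑ w_i η_i + ∑ (i ∈ S) w_i dy_i)`, the factors with `dy i` a unit for some `i ∈ S` are units (`hS`). All `dy i` units: the remaining factor is `a = a₁ + l m(z)`, where `a₁ = A₁(z) - ∑ w_i η_i`
does not depend on `l`. Otherwise let `i₀` be the last one: the remaining factors are `a = a₁ + l m(z)` (`S = ∅`) and `b = a + w_(i₀) dy_(i₀)` (`S = {i₀}`). At `z = z₀`: `nm (m(z₀)) = nm z₀ ^ e` (`tm_nm`), so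
`nm a ≥ nm z₀ ^ e` and `nm b ≥ nm z₀ ^ e` if the residue of `l` is not the residue of `- a₁ / m(z₀)` or of `- b₁ / m(z₀)` (if these are integral; otherwise nothing is excluded); `nm (a - b) = nm (dy) = nm (R (z₀) - x₀) = nm z₀`
(`Sl`; `lv_nm` for `g = f i₀ - x₀`, `nm (z₀ m(z₀)) = nm z₀ ^ (e + 1) < nm z₀`), so `max (nm a) (nm b) ≥ nm z₀` and `nm (a b) ≥ nm z₀ ^ (e + 1)`. The second part: `Θ_T(z, A(z)) = 0` at a root means (`th_prod` or `thb_der`; `tg_dY`; only the factors `a`, `b` can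
vanish) that `a = b = 0`, so `dy_(i₀) = 0` at `R i₀ (z)`: `z` is one of the finitely many roots of the polynomial `4 R ^ 3 + b₂ R ^ 2 + 2 b₄ R + b₆`, `R = R i₀` (it is not `0`: leading coefficient `4`, `p ≠ 2` not needed), and `l = - a₁(z) / m(z)` is determined by `z`
(`a₁(z)` does not depend on the choice of `η` there, since the root is double for `i₀` and for `i ≠ i₀` the near root is unique; or choose one family `η` for every such `z`): exclude the residues of these values. -/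
theorem va_zero2 (h : Go L W M N π x y) {e : ℕ} {m : Polynomial Ω} (hm : L.Tm M N 0 π e m)
    {D : ℕ} (hD : D ≠ 0) {f : Fin n → Polynomial Ω} (hf : ∀ i, L.Ip (L.Ur ⊥ N) (f i))
    (hfd : ∀ i, (f i).natDegree < e) (hfx : ∀ i, (f i).eval π = x i) {w : Fin n → Ω}
    (hw : ∀ i, w i ∈ L.Ur ⊥ (N * D)) (hw1 : ∀ i, L.nm (w i) = 1) {A₁ : Polynomial Ω}
    (hA : L.Ip (L.Ur ⊥ (N * D)) A₁) (hA0 : A₁.eval π = ∑ i, w i * y i)
    (hS : ∀ S : Finset (Fin n), (∃ i ∈ S, L.nm (dy (W i) (x i) (y i)) = 1) →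
      L.nm (∑ i ∈ S, w i * dy (W i) (x i) (y i)) = 1) :
    ∃ z₀ : Ω, L.nm z₀ < 1 ∧ L.nm (L.p : Ω) < L.nm z₀ ^ (e + 1) ∧ ∃ s : Finset L.κ,
      ∀ (l : Ω) (ρ : L.κ), L.rs.Hv l ρ → ρ ∉ s →
        L.nm z₀ ^ (e + 1) ≤
          L.nm (((To Ω W (fun i => f i + X * m) w).eval (A₁ + C l * m)).eval z₀) ∧
        ∀ z : Ω, L.nm z < 1 → m.eval z ≠ 0 →
          ((To Ω W (fun i => f i + X * m) w).eval (A₁ + C l * m)).eval z = 0 →
          ev₂ (z, (A₁ + C l * m).eval z) (dY (To Ω W (fun i => f i + X * m) w)) ≠ 0 := by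
  classical
  have hac : IsAlgClosed Ω := IsAlgClosure.isAlgClosed K
  have hN : N ≠ 0 := h.rf.ne
  have hp0 : 0 < L.nm (L.p : Ω) := L.p_pos
  have hp1 : L.nm (L.p : Ω) < 1 := L.lt
  have he0 : e ≠ 0 := hm.e0
  obtain ⟨r, hr⟩ : ∃ r : Fin n → Polynomial Ω, r = fun i => f i + X * m := ⟨_, rfl⟩
  rw [← hr]
  have hrf : ∀ i, r i = f i + X * m := fun i => by rw [hr]
  have hri : ∀ i, L.Ip (L.Ur ⊥ N) (r i) := by
    intro i
    rw [hrf]
    exact (hf i).add (Ld.Ip.X.mul hm.ip)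
  have hrπ : ∀ i, (r i).eval π = x i := by
    intro i
    rw [hrf, eval_add, eval_mul, hm.root, mul_zero, add_zero, hfx]
  have hrd : ∀ i, (r i).natDegree ≠ 0 := by
    intro i
    have h1 : (X * m).natDegree = e + 1 := by
      rw [natDegree_X_mul hm.monic.ne_zero, hm.deg]
    rw [hrf, natDegree_add_eq_right_of_natDegree_lt
      (by rw [h1]; exact (hfd i).trans (Nat.lt_succ_self e)), h1]
    exact Nat.succ_ne_zero e
  -- the values at `z`
  have hzπ : ∀ z : Ω, L.nm z < 1 → L.nm (z - π) < 1 := fun z hz => Ld.dy_sub_lt hz h.uf.lt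
  have hxx : ∀ z : Ω, L.nm z < 1 → ∀ i, L.nm ((r i).eval z - x i) < 1 := by
    intro z hz i
    rw [← hrπ i]
    exact (hri i).close hz.le (hzπ z hz)
  have hx0 : ∀ z : Ω, L.nm z < 1 → ∀ i, L.nm ((r i).eval z) ≤ 1 := fun z hz i =>
    v2_le (hxx z hz i) (h.xl i)
  have hAA : ∀ z : Ω, L.nm z < 1 → L.nm (A₁.eval z - ∑ i, w i * y i) < 1 := by
    intro z hz
    rw [← hA0]
    exact hA.close hz.le (hzπ z hz)
  have hmz : ∀ z : Ω, L.nm z < 1 → L.nm (m.eval z) < 1 := by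
    intro z hz
    have h1 := hm.ip.close hz.le (hzπ z hz)
    rwa [hm.root, sub_zero] at h1
  have hev : ∀ l z : Ω, (A₁ + C l * m).eval z = A₁.eval z + l * m.eval z := by
    intro l z
    rw [eval_add, eval_mul, eval_C]
  have hlm : ∀ l z : Ω, L.nm l ≤ 1 → L.nm z < 1 → L.nm (l * m.eval z) < 1 := by
    intro l z hl hz
    rw [L.mul]
    exact mul_lt_one_of_nonneg_of_lt_one_right hl (L.nonneg _) (hmz z hz)
  -- the families near `y`
  have hsm : ∀ z : Ω, L.nm z < 1 → ∀ η : Fin n → Ω, (∀ i, L.nm (η i - y i) < 1) →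
      ∀ l : Ω, L.nm l ≤ 1 → L.nm ((A₁ + C l * m).eval z - ∑ i, w i * η i) < 1 := by
    intro z hz η hη l hl
    have e : (A₁ + C l * m).eval z - ∑ i, w i * η i = (A₁.eval z - ∑ i, w i * y i) +
        l * m.eval z - ∑ i, w i * (η i - y i) := by
      have e1 : ∑ i, w i * (η i - y i) = ∑ i, w i * η i - ∑ i, w i * y i := by
        rw [← Finset.sum_sub_distrib]
        exact Finset.sum_congr rfl fun i _ => mul_sub _ _ _
      rw [hev, e1]
      ring
    rw [e]
    refine Ld.dy_sub_lt (Ld.dy_add_lt (hAA z hz) (hlm l z hl hz)) (v2_sum _ fun i _ => ?_)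
    rw [L.mul, hw1, one_mul]
    exact hη i
  have hun : ∀ z : Ω, L.nm z < 1 → ∀ η : Fin n → Ω, (∀ i, L.nm (η i - y i) < 1) →
      ∀ l : Ω, L.nm l ≤ 1 →
      ∀ S : Finset (Fin n), (∃ i ∈ S, L.nm (dy (W i) (x i) (y i)) = 1) →
      L.nm ((A₁ + C l * m).eval z - ∑ i, w i * η i +
        ∑ i ∈ S, w i * dy (W i) ((r i).eval z) (η i)) = 1 := by
    intro z hz η hη l hl S hSi
    refine v2_one (v := ∑ i ∈ S, w i * dy (W i) (x i) (y i)) ?_ (hS S hSi)
    have e : (A₁ + C l * m).eval z - ∑ i, w i * η i +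
        ∑ i ∈ S, w i * dy (W i) ((r i).eval z) (η i) - ∑ i ∈ S, w i * dy (W i) (x i) (y i) =
        ((A₁ + C l * m).eval z - ∑ i, w i * η i) +
          ∑ i ∈ S, w i * (dy (W i) ((r i).eval z) (η i) - dy (W i) (x i) (y i)) := by
      have e1 : ∑ i ∈ S, w i * (dy (W i) ((r i).eval z) (η i) - dy (W i) (x i) (y i)) =
          ∑ i ∈ S, w i * dy (W i) ((r i).eval z) (η i) -
            ∑ i ∈ S, w i * dy (W i) (x i) (y i) := by
        rw [← Finset.sum_sub_distrib]
        exact Finset.sum_congr rfl fun i _ => mul_sub _ _ _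
      rw [e1]
      ring
    rw [e]
    refine Ld.dy_add_lt (hsm z hz η hη l hl) (v2_sum _ fun i _ => ?_)
    rw [L.mul, hw1, one_mul]
    exact (v2_cg (h.it i) (hx0 z hz i) (v2_le (hη i) (h.yl i)) (h.xl i) (h.yl i) (hxx z hz i)
      (hη i)).2
  have hfam : ∀ z : Ω, L.nm z < 1 → ∃ η : Fin n → Ω,
      (∀ i, fe (W i) ((r i).eval z) (η i) = 0) ∧ ∀ i, L.nm (η i - y i) < 1 := by
    intro z hz
    choose η h1 h2 using fun i => v2_near (K := K) (h.it i) (h.xl i) (h.yl i) (h.eq i)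
      (hx0 z hz i) (hxx z hz i)
    exact ⟨η, h1, h2⟩
  -- the ramification points
  have hbad : {l : Ω | ∃ (z : Ω) (i : Fin n) (η : Fin n → Ω), m.eval z ≠ 0 ∧
      (∀ j, fe (W j) ((r j).eval z) (η j) = 0) ∧ dy (W i) ((r i).eval z) (η i) = 0 ∧
      A₁.eval z + l * m.eval z = ∑ j, w j * η j}.Finite := by
    have h1 : (⋃ i : Fin n, {z : Ω | ∃ t, fe (W i) ((r i).eval z) t = 0 ∧
        dy (W i) ((r i).eval z) t = 0}).Finite :=
      Set.finite_iUnion fun i => v2_ram K (W i) (hrd i)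
    have h2 : ∀ z : Ω, {η : Fin n → Ω | ∀ j, fe (W j) ((r j).eval z) (η j) = 0}.Finite :=
      fun z => Set.Finite.pi' fun j => v2_fin K (W j) ((r j).eval z)
    refine Set.Finite.subset (h1.biUnion fun z _ => (h2 z).image fun η =>
      (∑ j, w j * η j - A₁.eval z) / m.eval z) ?_
    rintro l ⟨z, i, η, k1, k2, k3, k4⟩
    refine Set.mem_biUnion (Set.mem_iUnion.2 ⟨i, η i, k2 i, k3⟩) ⟨η, k2, ?_⟩
    show (∑ j, w j * η j - A₁.eval z) / m.eval z = l
    rw [← k4, add_sub_cancel_left, mul_div_cancel_right₀ _ k1]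
  -- the point `z₀`
  obtain ⟨z₀, hz₀⟩ := IsAlgClosed.exists_pow_nat_eq (L.p : Ω) (n := e + 2) (Nat.succ_pos _)
  have hzp : L.nm z₀ ^ (e + 2) = L.nm (L.p : Ω) := by rw [← L.pow, hz₀]
  have hz1 : L.nm z₀ < 1 := by
    by_contra hc
    rw [not_lt] at hc
    exact absurd (one_le_pow₀ hc (n := e + 2)) (not_le.2 (by rw [hzp]; exact hp1))
  have hz0 : 0 < L.nm z₀ := by
    rcases (L.nonneg z₀).lt_or_eq with h1 | h1
    · exact h1
    · rw [← h1, zero_pow (Nat.succ_ne_zero _)] at hzp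
      rw [← hzp] at hp0
      exact absurd hp0 (lt_irrefl _)
  have hpk : ∀ k, k < e + 2 → L.nm (L.p : Ω) < L.nm z₀ ^ k := by
    intro k hk
    rw [← hzp]
    exact pow_lt_pow_right_of_lt_one₀ hz0 hz1 hk
  have hmz0 : L.nm (m.eval z₀) = L.nm z₀ ^ e := tm_nm hm hN hz1 (hpk e (by omega))
  have hm0 : m.eval z₀ ≠ 0 := L.ne_zero (by rw [hmz0]; exact pow_pos hz0 e)
  have hpe : L.nm z₀ ^ (e + 1) ≤ L.nm z₀ ^ e := by
    rw [pow_succ]
    exact mul_le_of_le_one_right (pow_nonneg hz0.le e) hz1.le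
  refine ⟨z₀, hz1, hpk (e + 1) (by omega), ?_⟩
  have hval : ∃ s : Finset L.κ, ∀ (l : Ω) (ρ : L.κ), L.rs.Hv l ρ → ρ ∉ s →
      L.nm z₀ ^ (e + 1) ≤ L.nm (((To Ω W r w).eval (A₁ + C l * m)).eval z₀) := by
    obtain ⟨η, hη0, hηy⟩ := hfam z₀ hz1
    obtain ⟨a₁, ha₁⟩ : ∃ a₁, a₁ = A₁.eval z₀ - ∑ i, w i * η i := ⟨_, rfl⟩
    have hae : ∀ l, (A₁ + C l * m).eval z₀ - ∑ i, w i * η i = a₁ + l * m.eval z₀ := by
      intro l
      rw [hev, ha₁]
      ring
    obtain ⟨s, hs⟩ := v2_ex (L := L) a₁ (m.eval z₀) hm0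
    by_cases hall : ∀ i, L.nm (dy (W i) (x i) (y i)) = 1
    · refine ⟨s, fun l ρ hl hρ => ?_⟩
      have hl1 : L.nm l ≤ 1 := L.hv_int hl
      rw [v2_val _ hη0, v2_prod, Finset.prod_eq_single (∅ : Finset (Fin n))]
      · rw [Finset.sum_empty, add_zero, hae]
        exact hpe.trans (hmz0 ▸ hs l ρ hl hρ)
      · intro S _ hS0
        obtain ⟨i, hi⟩ := Finset.nonempty_iff_ne_empty.2 hS0
        exact hun z₀ hz1 η hηy l hl1 S ⟨i, hi, hall i⟩
      · intro h1
        exact absurd (Finset.mem_univ _) h1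
    · rw [not_forall] at hall
      obtain ⟨i₀, hi₀⟩ := hall
      obtain ⟨hd, x₀, hx₀m, hx₀1, hx₀π, hsl⟩ := (h.sg i₀).resolve_left hi₀
      have hsmooth : ∀ i, i ≠ i₀ → L.nm (dy (W i) (x i) (y i)) = 1 := fun i hi =>
        (h.one i i₀ hi).resolve_right hi₀
      have hg : L.Ip (L.Ur ⊥ N) (f i₀ - C x₀) := (hf i₀).sub (Ld.Ip.C
        ((bot_le : (⊥ : IntermediateField K Ω) ≤ L.Ur ⊥ N) hx₀m) hx₀1)
      have hg1 : L.nm ((f i₀ - C x₀).eval z₀) = L.nm z₀ := by
        refine lv_nm hN hg h.uf.pos h.uf.lt h.lv ?_ hz1 ?_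
        · rw [eval_sub, eval_C, hfx, hx₀π]
        · have h1 := hpk 1 (by omega)
          rwa [pow_one] at h1
      have hX : L.nm ((r i₀).eval z₀ - x₀) = L.nm z₀ := by
        have e1 : (r i₀).eval z₀ - x₀ = (f i₀ - C x₀).eval z₀ + z₀ * m.eval z₀ := by
          rw [hrf, eval_add, eval_mul, eval_X, eval_sub, eval_C]
          ring
        rw [e1, L.add_eq', hg1]
        rw [hg1, L.mul, hmz0]
        exact mul_lt_of_lt_one_right hz0 (pow_lt_one₀ hz0.le hz1 he0)
      have hdyv : L.nm (dy (W i₀) ((r i₀).eval z₀) (η i₀)) = L.nm z₀ := by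
        rw [← hX]
        refine hsl _ _ (hη0 i₀) (by rw [hX]; exact hz1) ?_
        rw [hX]
        exact hpk 2 (by omega)
      obtain ⟨s', hs'⟩ := v2_ex (L := L)
        (a₁ + w i₀ * dy (W i₀) ((r i₀).eval z₀) (η i₀)) (m.eval z₀) hm0
      refine ⟨s ∪ s', fun l ρ hl hρ => ?_⟩
      rw [Finset.mem_union, not_or] at hρ
      have hl1 : L.nm l ≤ 1 := L.hv_int hl
      have ha := hs l ρ hl hρ.1
      have hb := hs' l ρ hl hρ.2
      rw [hmz0] at ha hb
      have hab : L.nm z₀ ≤ max (L.nm (a₁ + l * m.eval z₀))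
          (L.nm (a₁ + w i₀ * dy (W i₀) ((r i₀).eval z₀) (η i₀) + l * m.eval z₀)) := by
        have h1 := L.sub (a₁ + l * m.eval z₀)
          (a₁ + w i₀ * dy (W i₀) ((r i₀).eval z₀) (η i₀) + l * m.eval z₀)
        have e1 : a₁ + l * m.eval z₀ -
            (a₁ + w i₀ * dy (W i₀) ((r i₀).eval z₀) (η i₀) + l * m.eval z₀) =
            -(w i₀ * dy (W i₀) ((r i₀).eval z₀) (η i₀)) := by ring
        rw [e1, L.neg, L.mul, hw1, one_mul, hdyv] at h1
        exact h1
      have hne : (∅ : Finset (Fin n)) ≠ {i₀} := (Finset.singleton_ne_empty i₀).symm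
      rw [v2_val _ hη0, v2_prod, Finset.prod_eq_mul (∅ : Finset (Fin n)) {i₀} hne]
      · rw [Finset.sum_empty, Finset.sum_singleton, add_zero, hae,
          show a₁ + l * m.eval z₀ + w i₀ * dy (W i₀) ((r i₀).eval z₀) (η i₀) =
            a₁ + w i₀ * dy (W i₀) ((r i₀).eval z₀) (η i₀) + l * m.eval z₀ by ring]
        have hz0e : 0 ≤ L.nm z₀ ^ e := pow_nonneg hz0.le e
        rcases le_max_iff.1 hab with h1 | h1
        · rw [pow_succ, mul_comm]
          exact mul_le_mul h1 hb hz0e (L.nonneg _)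
        · rw [pow_succ]
          exact mul_le_mul ha h1 hz0.le (L.nonneg _)
      · rintro S - ⟨hS0, hS1⟩
        obtain ⟨i, hi, hii⟩ : ∃ i ∈ S, i ≠ i₀ := by
          by_contra hc
          push Not at hc
          rcases S.eq_empty_or_nonempty with h1 | ⟨j, hj⟩
          · exact hS0 h1
          · refine hS1 (Finset.eq_singleton_iff_unique_mem.2 ⟨?_, hc⟩)
            rw [← hc j hj]
            exact hj
        exact hun z₀ hz1 η hηy l hl1 S ⟨i, hi, hsmooth i hii⟩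
      · intro h1
        exact absurd (Finset.mem_univ _) h1
      · intro h1
        exact absurd (Finset.mem_univ _) h1
  obtain ⟨s, hs⟩ := hval
  refine ⟨s ∪ hbad.toFinset.image L.rr, fun l ρ hl hρ => ?_⟩
  rw [Finset.mem_union, not_or] at hρ
  have hl1 : L.nm l ≤ 1 := L.hv_int hl
  refine ⟨hs l ρ hl hρ.1, fun z hz hmz' hz' => ?_⟩
  have hlb : ¬ ∃ (z : Ω) (i : Fin n) (η : Fin n → Ω), m.eval z ≠ 0 ∧
      (∀ j, fe (W j) ((r j).eval z) (η j) = 0) ∧ dy (W i) ((r i).eval z) (η i) = 0 ∧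
      A₁.eval z + l * m.eval z = ∑ j, w j * η j := by
    intro hc
    refine hρ.2 (Finset.mem_image.2 ⟨l, hbad.mem_toFinset.2 hc, ?_⟩)
    exact (L.hv_rr hl1).uniq hl
  -- a near family with the sum `A(z)`
  obtain ⟨η, hη0, hηy, hηs⟩ : ∃ η : Fin n → Ω, (∀ i, fe (W i) ((r i).eval z) (η i) = 0) ∧
      (∀ i, L.nm (η i - y i) < 1) ∧ ∑ i, w i * η i = (A₁ + C l * m).eval z := by
    obtain ⟨η, hη0, hηy⟩ := hfam z hz
    rw [v2_val _ hη0, Finset.prod_eq_zero_iff] at hz'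
    obtain ⟨S, -, hS0⟩ := hz'
    have hSn : ∀ i ∈ S, L.nm (dy (W i) (x i) (y i)) < 1 := by
      intro i hi
      rcases h.sg i with h1 | h1
      · have h2 := hun z hz η hηy l hl1 S ⟨i, hi, h1⟩
        rw [hS0, L.zero] at h2
        exact absurd h2 zero_ne_one
      · exact h1.1
    have hB : ∀ i, fe (W i) ((r i).eval z) (η i - dy (W i) ((r i).eval z) (η i)) = 0 := by
      intro i
      rw [← hη0 i]
      simp only [fe, dy]
      ring
    refine ⟨fun i => if i ∈ S then η i - dy (W i) ((r i).eval z) (η i) else η i, ?_, ?_, ?_⟩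
    · intro i
      by_cases hi : i ∈ S
      · simp only [hi, if_true]
        exact hB i
      · simp only [hi, if_false]
        exact hη0 i
    · intro i
      by_cases hi : i ∈ S
      · simp only [hi, if_true]
        exact v2_sing (h.it i) (h.xl i) (h.yl i) (h.eq i) (hSn i hi) (hx0 z hz i) (hxx z hz i)
          (hB i)
      · simp only [hi, if_false]
        exact hηy i
    · have e1 : ∑ i, w i * (if i ∈ S then η i - dy (W i) ((r i).eval z) (η i) else η i) =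
          ∑ i, w i * η i - ∑ i ∈ S, w i * dy (W i) ((r i).eval z) (η i) := by
        have e2 : ∑ i ∈ S, w i * dy (W i) ((r i).eval z) (η i) =
            ∑ i, if i ∈ S then w i * dy (W i) ((r i).eval z) (η i) else 0 := by
          rw [Finset.sum_ite_mem, Finset.univ_inter]
        rw [e2, ← Finset.sum_sub_distrib]
        refine Finset.sum_congr rfl fun i _ => ?_
        by_cases hi : i ∈ S
        · rw [if_pos hi, if_pos hi]
          ring
        · rw [if_neg hi, if_neg hi]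
          ring
      rw [e1]
      linear_combination -hS0
  -- the derivative
  rw [show (To Ω W r w) = Tg (fun i => (W i).baseChange Ω) r w from rfl, tg_dY]
  unfold Tf
  refine rt_der (η := η) ⟨fun i => v2_rt hη0 i, hηs⟩ fun S hS0 => ?_
  have e1 : ∑ i ∈ S, w i * (2 * η i + (((W i).baseChange Ω).a₁ * (r i).eval z +
      ((W i).baseChange Ω).a₃)) = ∑ i ∈ S, w i * dy (W i) ((r i).eval z) (η i) :=
    Finset.sum_congr rfl fun i _ => by rw [v2_dy]
  show ∑ i ∈ S, w i * (2 * η i + (((W i).baseChange Ω).a₁ * (r i).eval z +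
      ((W i).baseChange Ω).a₃)) ≠ 0
  rw [e1]
  by_cases hSu : ∃ i ∈ S, L.nm (dy (W i) (x i) (y i)) = 1
  · have h1 := hun z hz η hηy l hl1 S hSu
    rw [hηs, sub_self, zero_add] at h1
    exact L.ne_zero (by rw [h1]; exact zero_lt_one)
  · push Not at hSu
    obtain ⟨i₀, hi₀⟩ := hS0
    have hSe : S = {i₀} := by
      refine Finset.eq_singleton_iff_unique_mem.2 ⟨hi₀, fun j hj => ?_⟩
      by_contra hc
      rcases h.one j i₀ hc with h1 | h1
      · exact hSu j hj h1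
      · exact hSu i₀ hi₀ h1
    rw [hSe, Finset.sum_singleton]
    refine mul_ne_zero (L.ne_zero (by rw [hw1]; exact zero_lt_one)) fun hc => hlb ?_
    exact ⟨z, i₀, η, hmz', hη0, hc, by rw [← hev, hηs]⟩

end NE
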