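import Pool.Agent.Lib.MP_f80667_ag.Pe.Nsm
import Pool.Agent.Lib.MP_f80667_ag.Pe.Div
import Pool.Agent.Lib.MP_f80667_ag.Pe.LangB

/-!
Division of the points with nonsingular reduction.
-/

open ZC BE PE Polynomial IntermediateField

namespace NE

/-- The points with a given first coordinate. -/
private theorem dvn_fin1 {k : Type} [Field k] {W : WeierstrassCurve k} (r : k) :
    {Q : Pn W | ∃ (s : k) (h : W.toAffine.Nonsingular r s), Q = Pn.aff r s h}.Finite := by
  classical
  rcases Set.eq_empty_or_nonempty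
    {Q : Pn W | ∃ (s : k) (h : W.toAffine.Nonsingular r s), Q = Pn.aff r s h} with h | ⟨Q₀, s₀, h₀, rfl⟩
  · rw [h]
    exact Set.finite_empty
  refine Set.Finite.subset (Set.toFinite {Pn.aff r s₀ h₀, -Pn.aff r s₀ h₀}) ?_
  rintro Q ⟨s, h, rfl⟩
  have e₀ := Pn.eqn h₀
  have e₁ := Pn.eqn h
  have key : (s - s₀) * (s + s₀ + W.a₁ * r + W.a₃) = 0 := by
    linear_combination e₁ - e₀
  rcases mul_eq_zero.1 key with h2 | h2
  · left
    have h3 : s = s₀ := sub_eq_zero.1 h2
    subst h3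
    rfl
  · right
    obtain ⟨h', e⟩ := Pn.neg_aff h₀
    rw [Set.mem_singleton_iff, e]
    have h3 : s = -s₀ - W.a₁ * r - W.a₃ := by linear_combination h2
    subst h3
    rfl

variable {F : Type} [Field F]

/-- A point with a given multiple. -/
private theorem dvn_root {Ω : Type} [Field Ω] [CharZero Ω] [IsAlgClosed Ω] [Algebra F Ω]
    {W : WeierstrassCurve F} [W.IsElliptic] {n : ℕ} {U V : Polynomial Ω} (hUV : IsCoprime U V)
    (hpt : ∀ (x y : Ω) (h : (W.baseChange Ω).toAffine.Nonsingular x y),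
      (V.eval x = 0 → n • (Pt.aff x y h : Pt W Ω) = 0) ∧
      (V.eval x ≠ 0 → ∃ (y' : Ω) (h' : (W.baseChange Ω).toAffine.Nonsingular
        (U.eval x / V.eval x) y'), n • (Pt.aff x y h : Pt W Ω) = Pt.aff _ y' h'))
    {x₀ y₀ : Ω} (h₀ : (W.baseChange Ω).toAffine.Nonsingular x₀ y₀) {x : Ω}
    (hx : U.eval x = x₀ * V.eval x) :
    ∃ (y : Ω) (h : (W.baseChange Ω).toAffine.Nonsingular x y),
      n • (Pt.aff x y h : Pt W Ω) = Pt.aff x₀ y₀ h₀ := by
  have hV : V.eval x ≠ 0 := by
    intro h1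
    obtain ⟨a, b, hab⟩ := hUV
    have h2 := congrArg (eval x) hab
    rw [eval_add, eval_mul, eval_mul, hx, h1, mul_zero, mul_zero, mul_zero, add_zero,
      eval_one] at h2
    exact zero_ne_one h2
  obtain ⟨y, hy⟩ := Ld.lgB_root (algebraMap F Ω W.a₁ * x + algebraMap F Ω W.a₃)
    (x ^ 3 + algebraMap F Ω W.a₂ * x ^ 2 + algebraMap F Ω W.a₄ * x + algebraMap F Ω W.a₆)
  have hfe : fe W x y = 0 := by
    unfold fe
    linear_combination hy
  have hP := aff_of_fe hfe
  obtain ⟨y', h', hy'⟩ := (hpt x y hP).2 hV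
  have hxx : U.eval x / V.eval x = x₀ := by rw [hx, mul_div_cancel_right₀ _ hV]
  have e1 := fe_zero h'
  have e2 := fe_zero h₀
  rw [hxx] at e1
  unfold fe at e1 e2
  have hprod : (y' - y₀) * (y' + y₀ + algebraMap F Ω W.a₁ * x₀ + algebraMap F Ω W.a₃) = 0 := by
    linear_combination e1 - e2
  have hcg : ∀ {x y x' y' : Ω} {h : (W.baseChange Ω).toAffine.Nonsingular x y}
      {h' : (W.baseChange Ω).toAffine.Nonsingular x' y'}, x = x' → y = y' →
      (Pt.aff x y h : Pt W Ω) = Pt.aff x' y' h' := by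
    intro x y x' y' h h' hx hy
    subst hx hy
    rfl
  rcases mul_eq_zero.1 hprod with h3 | h3
  · refine ⟨y, hP, ?_⟩
    rw [hy']
    exact hcg hxx (sub_eq_zero.1 h3)
  · obtain ⟨h4, e4⟩ := Pn.neg_aff (W := W.baseChange Ω) hP
    obtain ⟨h5, e5⟩ := Pn.neg_aff (W := W.baseChange Ω) h'
    refine ⟨_, h4, ?_⟩
    have e6 : (Pt.aff x _ h4 : Pt W Ω) = -(Pt.aff x y hP : Pt W Ω) := e4.symm
    have e7 : -(Pt.aff _ y' h' : Pt W Ω) = Pt.aff _ _ h5 := e5
    rw [e6, smul_neg, hy', e7]
    refine hcg hxx ?_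
    change -y' - algebraMap F Ω W.a₁ * (U.eval x / V.eval x) - algebraMap F Ω W.a₃ = y₀
    rw [hxx]
    linear_combination -h3

variable {K Ω : Type} [Field K] [CharZero K] [Field Ω] [Algebra K Ω]
  [Algebra F K] [Algebra F Ω] [IsScalarTower F K Ω] [IsAlgClosure K Ω] {L : Ld K Ω}
  {W : WeierstrassCurve F} [W.IsElliptic]

omit [CharZero K] [IsAlgClosure K Ω] in
/-- The coefficients of a product of linear factors with integral roots. -/
private theorem dvn_prod (s : Multiset Ω) (hs : ∀ z ∈ s, L.nm z ≤ 1) (i : ℕ) :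
    L.nm ((s.map fun a => X - C a).prod.coeff i) ≤ 1 := by
  induction s using Multiset.induction_on generalizing i with
  | empty =>
    rw [Multiset.map_zero, Multiset.prod_zero, coeff_one]
    split_ifs
    · rw [L.one]
    · rw [L.zero]
      exact zero_le_one
  | cons a s ih =>
    rw [Multiset.map_cons, Multiset.prod_cons, sub_mul, coeff_sub, coeff_C_mul]
    have h1 := ih (fun z hz => hs z (Multiset.mem_cons_of_mem hz))
    refine (L.sub _ _).trans (max_le ?_ ?_)
    · rcases i with _ | i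
      · rw [mul_comm, coeff_mul_X_zero, L.zero]
        exact zero_le_one
      · rw [mul_comm, coeff_mul_X]
        exact h1 i
    · rw [L.mul]
      exact mul_le_one₀ (hs a (Multiset.mem_cons_self a s)) (L.nonneg _) (h1 i)

/-- The points of the formal group. Proof: good reduction: `div'`, `ns_good`. Otherwise `Q = (x_Q, y_Q)` with `nm x_Q > 1` (`Q = 0`: `b = 0`), `U`, `V` from `div_xn`, `V ≠ 0`. Every root `x` of
`U - x_Q V` gives `P = (x, y)` with `V(x) ≠ 0` (coprime), `n P = ± Q`. If some root has `nm x > 1` then `P` is in the formal group (`fm_aff`), so it has nonsingular reduction.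
Suppose that all roots are integral. Scale `U`, `V` (`lgB_scale`: `c U`, `c V` integral, one coefficient of norm `1`; the roots do not change). `U - x_Q V = u ∏ (X - root)` (`deg U = deg V + 1`, `u` the leading coefficient of `U`), so all
coefficients of `U - x_Q V` have norm `≤ nm u ≤ 1`, so `nm x_Q * nm (V_i) ≤ 1` and `nm (V_i) < 1` for all `i`; so some `nm (U_i) = 1`: for all integral `x` whose residue is not a root of the
reduction of `U` (a nonzero polynomial) we have `nm (U(x)) = 1`, `nm (V(x)) < 1`, so `n (x, y)` is in the formal group (`fm_aff`). Now take infinitely many points `a` with nonsingular reduction, pairwise not congruent and not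
in the formal group (`rs_lift`; the reduction has infinitely many nonsingular points: for all but finitely many `ξ : L.κ` there is a nonsingular point with the coordinate `ξ`), `dhs`: `S_a` with nonsingular reduction, `n S_a ≡ a`: `S_a` is not in the formal group, so it is integral and the residues of the `x(S_a)` take
infinitely many values (every residue `x` belongs to at most two classes); so for some `a` the residue of `x(S_a)` is not a root of the reduction of `U`, `n S_a` is in the formal group and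
so is `a`: a contradiction. -/
theorem div_fm (h : L.Gs W) {n : ℕ} (hn : n ≠ 0) {Q : Pt W Ω} (hQ : L.Fm Q) :
    ∃ b : Pt W Ω, L.Ns b ∧ n • b = Q := by
  classical
  have hac : IsAlgClosed Ω := IsAlgClosure.isAlgClosed K
  have hcz : CharZero Ω := charZero_of_injective_algebraMap (algebraMap K Ω).injective
  rcases h with h | h
  · obtain ⟨b, hb⟩ := div' n hn Q
    exact ⟨b, Ld.ns_good h b, hb⟩
  have hit : L.It W := h.toIt
  rcases Pt.cases' Q with rfl | ⟨xQ, yQ, hQn, rfl⟩
  · exact ⟨0, Ld.ns_fm hit Ld.fm_zero, smul_zero n⟩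
  have hxQ : 1 < L.nm xQ := (Ld.fm_aff hit hQn).1.1 hQ
  obtain ⟨U₀, V₀, hco, hdeg, hpt⟩ := div_xn (W := W) (Ω := Ω) n hn
  -- a root outside the integers
  by_cases hroot : ∃ x : Ω, (U₀ - C xQ * V₀).IsRoot x ∧ 1 < L.nm x
  · obtain ⟨x, hx, hx1⟩ := hroot
    have hx' : U₀.eval x = xQ * V₀.eval x := by
      have h1 : (U₀ - C xQ * V₀).eval x = 0 := hx
      rw [eval_sub, eval_mul, eval_C] at h1
      exact sub_eq_zero.1 h1
    obtain ⟨y, hP, e⟩ := dvn_root hco hpt hQn hx'
    exact ⟨Pt.aff x y hP, Ld.ns_fm hit ((Ld.fm_aff hit hP).1.2 hx1), e⟩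
  exfalso
  push Not at hroot
  have hU0 : U₀ ≠ 0 := by
    rintro rfl
    rw [natDegree_zero] at hdeg
    omega
  obtain ⟨c, hc0, hU, hV, hone⟩ := Ld.lgB_scale (L := L) (V := V₀) hU0
  -- the coefficients of `V` are small
  have hsplit : ∀ i, L.nm ((C c * (U₀ - C xQ * V₀)).coeff i) ≤ 1 := by
    intro i
    have hd : (C xQ * V₀).natDegree < U₀.natDegree := by
      have h1 : (C xQ * V₀).natDegree ≤ V₀.natDegree := natDegree_C_mul_le xQ V₀
      omega
    have hlead : (U₀ - C xQ * V₀).leadingCoeff = U₀.leadingCoeff := by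
      rw [sub_eq_add_neg]
      refine leadingCoeff_add_of_degree_lt' ?_
      rw [degree_neg]
      exact degree_lt_degree hd
    have h1 : U₀ - C xQ * V₀ = C (U₀ - C xQ * V₀).leadingCoeff *
        ((U₀ - C xQ * V₀).roots.map fun a => X - C a).prod :=
      (IsAlgClosed.splits (U₀ - C xQ * V₀)).eq_prod_roots
    rw [h1, hlead, coeff_C_mul, coeff_C_mul, ← mul_assoc, L.mul]
    have h2 : L.nm (c * U₀.leadingCoeff) ≤ 1 := by
      have h3 := hU U₀.natDegree
      rwa [coeff_C_mul] at h3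
    refine mul_le_one₀ h2 (L.nonneg _) (dvn_prod _ (fun z hz => ?_) i)
    exact hroot z (isRoot_of_mem_roots hz)
  have hVlt : ∀ i, L.nm ((C c * V₀).coeff i) < 1 := by
    intro i
    have h1 : xQ * (C c * V₀).coeff i = (C c * U₀).coeff i - (C c * (U₀ - C xQ * V₀)).coeff i := by
      simp only [coeff_C_mul, coeff_sub]
      ring
    have h2 : L.nm (xQ * (C c * V₀).coeff i) ≤ 1 := by
      rw [h1]
      exact (L.sub _ _).trans (max_le (hU i) (hsplit i))
    rw [L.mul] at h2
    by_contra h3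
    exact absurd (one_lt_mul_of_lt_of_le hxQ (not_lt.1 h3)) (not_lt.2 h2)
  have hUone : ∃ i, L.nm ((C c * U₀).coeff i) = 1 :=
    hone.resolve_right fun ⟨i, hi⟩ => absurd hi (hVlt i).ne
  obtain ⟨S, hS⟩ := Ld.lgB_poly hU hUone
  -- the points whose first coordinate is not in `S` modulo the maximal ideal
  have key : ∀ (x y : Ω) (hP : (W.baseChange Ω).toAffine.Nonsingular x y), L.nm x ≤ 1 →
      (∀ z ∈ S, ¬ L.nm (x - z) < 1) → L.Fm (n • (Pt.aff x y hP : Pt W Ω)) := by
    intro x y hP hx hz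
    have h1 : L.nm ((C c * V₀).eval x) < 1 := Ld.lgB_eval hVlt hx
    have h2 : L.nm ((C c * U₀).eval x) = 1 := by
      refine le_antisymm (L.eval_le hU hx) (not_lt.1 fun hlt => ?_)
      obtain ⟨z, hz1, hz2⟩ := hS x hx hlt
      exact hz z hz1 hz2
    obtain ⟨k1, k2⟩ := hpt x y hP
    have hVx : (C c * V₀).eval x = c * V₀.eval x := by rw [eval_mul, eval_C]
    have hUx : (C c * U₀).eval x = c * U₀.eval x := by rw [eval_mul, eval_C]
    by_cases hv : V₀.eval x = 0
    · rw [k1 hv]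
      exact Ld.fm_zero
    · obtain ⟨y', h', he⟩ := k2 hv
      have hv' : 0 < L.nm ((C c * V₀).eval x) := by
        rw [hVx]
        exact L.pos (mul_ne_zero hc0 hv)
      have hq : L.nm (U₀.eval x / V₀.eval x) =
          L.nm ((C c * U₀).eval x) / L.nm ((C c * V₀).eval x) := by
        rw [← L.div, hUx, hVx, mul_div_mul_left _ _ hc0]
      rw [he, (Ld.fm_aff hit h').1, hq, one_lt_div hv', h2]
      exact h1
  -- the reduction
  obtain ⟨x₀, y₀, α, β, hk⟩ := h.sp
  have ht := Ld.nc_tg h.toMd hk.toNc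
  have hκ : IsAlgClosed L.κ := L.κ_closed
  let T : Set (Pn (L.rc W)) := ⋃ r ∈ (S.image L.rr : Finset L.κ),
    {Q' : Pn (L.rc W) | ∃ (s : L.κ) (h : (L.rc W).toAffine.Nonsingular r s), Q' = Pn.aff r s h}
  have hT : T.Finite := Set.Finite.biUnion (Finset.finite_toSet _) fun r _ => dvn_fin1 r
  have hT' : (insert 0 ((fun Q' : Pn (L.rc W) => n • Q') '' T)).Finite :=
    (hT.image _).insert 0
  obtain ⟨u, hu⟩ := Infinite.exists_notMem_finset
    (insert (0 : L.κ) (hT'.toFinset.image (ndu (L.rr x₀) (L.rr y₀) (L.rr α) (L.rr β))))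
  have hu0 : u ≠ 0 := fun e => hu (by rw [e]; exact Finset.mem_insert_self _ _)
  obtain ⟨Q', hQ'⟩ := (nd_bij ht).2 u hu0
  have hQT : Q' ∉ insert 0 ((fun Q' : Pn (L.rc W) => n • Q') '' T) := by
    intro hc
    refine hu (Finset.mem_insert_of_mem (Finset.mem_image.2 ⟨Q', ?_, hQ'⟩))
    exact hT'.mem_toFinset.2 hc
  obtain ⟨S', hS'⟩ := nd_div ht n hn Q'
  have hS'T : S' ∉ T := fun hc => hQT (Set.mem_insert_of_mem _ ⟨S', hc, hS'⟩)
  obtain ⟨A, hA⟩ := Ld.rs_lift hit S'
  have hnA : L.Red (n • A) (n • S') := rs_nsmul hit.cv hA n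
  have hnot : ¬ L.Fm (n • A) := by
    intro hf
    have h1 : L.Red (n • A) (0 : Pn (L.rc W)) := (rs_fm hit.cv).2 hf
    have h2 : n • S' = 0 := rs_unique (w := L.rs) hnA h1
    exact hQT (Set.mem_insert_iff.2 (Or.inl (by rw [← hS', h2])))
  rcases Pt.cases' A with rfl | ⟨x, y, hP, rfl⟩
  · refine hnot ?_
    rw [smul_zero]
    exact Ld.fm_zero
  by_cases hx : L.nm x ≤ 1
  swap
  · exact hnot (Ld.fm_nsmul hit ((Ld.fm_aff hit hP).1.2 (not_le.1 hx)) n).1
  rcases (rs_red_aff (w := L.rs) hP).1 hA with ⟨h1, -⟩ | ⟨r, s, hn', hX, hY, e⟩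
  · exact h1 hx
  refine hnot (key x y hP hx fun z hz hlt => hS'T ?_)
  have hz1 : L.nm z ≤ 1 := by
    have e : z = x - (x - z) := by ring
    rw [e]
    exact (L.sub _ _).trans (max_le hx hlt.le)
  have hr : r = L.rr z := (L.hv_sub hX (L.hv_rr hz1)).2 hlt
  refine Set.mem_iUnion₂.2 ⟨r, ?_, s, hn', e⟩
  rw [hr]
  exact Finset.mem_image_of_mem _ hz

/-- **Division.** Proof: `dhs`: `S` with nonsingular reduction, `n S ≡ Q`; `Q - n S` is in the formal group: `div_fm`: `Q - n S = n b₀`; `b = S + b₀` (`ns_add`). -/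
theorem div_ns (h : L.Gs W) {n : ℕ} (hn : n ≠ 0) {Q : Pt W Ω} (hQ : L.Ns Q) :
    ∃ b : Pt W Ω, L.Ns b ∧ n • b = Q := by
  obtain ⟨S, hS, hc⟩ := Ld.dhs h hn hQ
  have hf : L.Fm (Q - n • S) := by
    have h1 := (Ld.fm_neg h.it hc).1
    rwa [neg_sub] at h1
  obtain ⟨b₀, hb₀, e⟩ := div_fm h hn hf
  refine ⟨S + b₀, Ld.ns_add h.it hS hb₀, ?_⟩
  rw [smul_add, e, add_sub_cancel]

end NE
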