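import Pool.Agent.Lib.MP_f80667_ag.Sm.Un
import Pool.Agent.Lib.MP_f80667_ag.Nf.Sna
import Pool.Agent.Lib.MP_f80667_ag.Ng.W
import Pool.Agent.Lib.MP_f80667_ag.Pe.Bs
import Pool.Agent.Lib.MP_f80667_ag.Cv.NfD

/-!
The symbols with all but two entries fixed; unramified symbols with several entries.
-/

open ZC BE PE Polynomial IntermediateField

namespace NE

namespace Sn

variable {F : Type} [Field F] {K Ω : Type} [Field K] [CharZero K] [Field Ω] [Algebra K Ω]
  [Algebra F K] [Algebra F Ω] [IsScalarTower F K Ω] [IsAlgClosure K Ω]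
  {ι : Type} [DecidableEq ι] {W : ι → WeierstrassCurve F} {G : Type} [AddCommGroup G]

/-- **Two entries.** The symbols over the extensions of `M` with the entries `x j` over `M`, `j ≠ i₁, i₂`, fixed. Proof: as `exists_bsn` (`Nf/SnaB.lean`): `sy N P Q` is the symbol over
`N.restrictScalars K` with the entries `P`, `Q` at `i₁`, `i₂`; `bs_fx`, `bs_nm` with the identity (as in `Pe/Bs.lean`); `Function.update_comm`. -/
theorem exists_fib (M : IntermediateField K Ω) [FiniteDimensional K M]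
    (S : Sn ι K Ω (fun i => Pt (W i) Ω) G) {i₁ i₂ : ι} (h12 : i₁ ≠ i₂) (x : ∀ i, Pt (W i) Ω)
    (hx : ∀ i, Fx M (x i)) :
    ∃ S' : Sc M Ω (Pt (W i₁) Ω) (Pt (W i₂) Ω) G, S'.T ≤ S.T ∧
      ∀ (N : IntermediateField M Ω) (P : Pt (W i₁) Ω) (Q : Pt (W i₂) Ω),
        S'.sy N P Q = S.sy (N.restrictScalars K) (Function.update (Function.update x i₁ P) i₂ Q) := by
  have hφ : ∀ (i : ι) (σ : Ω ≃ₐ[M] Ω) (a : Pt (W i) Ω),
      AddEquiv.refl (Pt (W i) Ω) (σ.restrictScalars K • a) =
        σ • AddEquiv.refl (Pt (W i) Ω) a := fun i σ a => rfl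
  have hfx : ∀ (N : IntermediateField M Ω) (i : ι) (P : Pt (W i) Ω), Fx N P →
      Fx (N.restrictScalars K) P := fun N i P h => (bs_fx M (hφ i) N P).1 h
  have hMN : ∀ N : IntermediateField M Ω, M ≤ N.restrictScalars K := fun N y hy =>
    N.algebraMap_mem ⟨y, hy⟩
  have hle : ∀ N N' : IntermediateField M Ω, N ≤ N' →
      N.restrictScalars K ≤ N'.restrictScalars K := fun N N' h x hx => h hx
  have hup : ∀ (N : IntermediateField M Ω) (i : ι) (P : Pt (W i) Ω),
      Fx (N.restrictScalars K) P → ∀ j, Fx (N.restrictScalars K) (Function.update x i P j) := by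
    intro N i P hP j
    by_cases h : j = i
    · subst h
      rw [Function.update_self]
      exact hP
    · rw [Function.update_of_ne h]
      exact (hx j).mono (hMN N)
  have hcm : ∀ (P : Pt (W i₁) Ω) (Q : Pt (W i₂) Ω),
      Function.update (Function.update x i₁ P) i₂ Q =
        Function.update (Function.update x i₂ Q) i₁ P := fun P Q =>
    Function.update_comm h12 P Q x
  let S' : Sc M Ω (Pt (W i₁) Ω) (Pt (W i₂) Ω) G :=
    { sy := fun N P Q =>
        S.sy (N.restrictScalars K) (Function.update (Function.update x i₁ P) i₂ Q)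
      add₁ := by
        intro N _ P P' Q hP hP' hQ
        have := bs_fin M N
        change S.sy (N.restrictScalars K) (Function.update (Function.update x i₁ (P + P')) i₂ Q) =
          S.sy (N.restrictScalars K) (Function.update (Function.update x i₁ P) i₂ Q) +
            S.sy (N.restrictScalars K) (Function.update (Function.update x i₁ P') i₂ Q)
        rw [hcm, hcm, hcm]
        exact S.add _ i₁ _ P P' (fun j _ => hup N i₂ Q (hfx N i₂ Q hQ) j) (hfx N i₁ P hP)
          (hfx N i₁ P' hP')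
      add₂ := by
        intro N _ P Q Q' hP hQ hQ'
        have := bs_fin M N
        exact S.add _ i₂ _ Q Q' (fun j _ => hup N i₁ P (hfx N i₁ P hP) j) (hfx N i₂ Q hQ)
          (hfx N i₂ Q' hQ')
      nm₁ := by
        intro N N' _ P Q h hP hQ
        have := bs_fin M N'
        have h1 : Nm N N' P = Nm (N.restrictScalars K) (N'.restrictScalars K) P :=
          bs_nm M (hφ i₁) h (P := P) (hfx N' i₁ P hP)
        change S.sy (N'.restrictScalars K) (Function.update (Function.update x i₁ P) i₂ Q) =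
          S.sy (N.restrictScalars K) (Function.update (Function.update x i₁ (Nm N N' P)) i₂ Q)
        rw [hcm, hcm, h1]
        exact S.nm _ _ i₁ _ P (hle N N' h) (fun j _ => hup N i₂ Q (hfx N i₂ Q hQ) j)
          (hfx N' i₁ P hP)
      nm₂ := by
        intro N N' _ P Q h hP hQ
        have := bs_fin M N'
        have h1 : Nm N N' Q = Nm (N.restrictScalars K) (N'.restrictScalars K) Q :=
          bs_nm M (hφ i₂) h (P := Q) (hfx N' i₂ Q hQ)
        change S.sy (N'.restrictScalars K) (Function.update (Function.update x i₁ P) i₂ Q) =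
          S.sy (N.restrictScalars K) (Function.update (Function.update x i₁ P) i₂ (Nm N N' Q))
        rw [h1]
        exact S.nm _ _ i₂ _ Q (hle N N' h) (fun j _ => hup N i₁ P (hfx N i₁ P hP) j)
          (hfx N' i₂ Q hQ) }
  refine ⟨S', ?_, fun N P Q => rfl⟩
  unfold Sc.T
  rw [AddSubgroup.closure_le]
  rintro g ⟨N, P, Q, hN, hP, hQ, rfl⟩
  have := hN
  refine AddSubgroup.subset_closure ⟨N.restrictScalars K,
    Function.update (Function.update x i₁ P) i₂ Q, bs_fin M N, fun j => ?_, rfl⟩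
  by_cases h : j = i₂
  · subst h
    rw [Function.update_self]
    exact hfx N _ Q hQ
  · rw [Function.update_of_ne h]
    exact hup N i₁ P (hfx N i₁ P hP) j

end Sn

variable {F : Type} [Field F] {K Ω : Type} [Field K] [CharZero K] [Field Ω] [Algebra K Ω]
  [Algebra F K] [Algebra F Ω] [IsScalarTower F K Ω] [IsAlgClosure K Ω]
  {ι : Type} [DecidableEq ι] {W : ι → WeierstrassCurve F} [∀ i, (W i).IsElliptic]

omit [CharZero K] [IsAlgClosure K Ω] in
private theorem fib_bot {M : IntermediateField K Ω} {y : Ω}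
    (h : y ∈ (⊥ : IntermediateField K Ω)) : y ∈ (⊥ : IntermediateField M Ω) := by
  obtain ⟨k, rfl⟩ := IntermediateField.mem_bot.1 h
  exact IntermediateField.mem_bot.2 ⟨algebraMap K M k, rfl⟩

omit [CharZero K] [Algebra F K] [IsScalarTower F K Ω] in
private theorem fib_gs {W : WeierstrassCurve F} (L : Ld K Ω) (M : IntermediateField K Ω)
    [FiniteDimensional K M] [IsAlgClosure M Ω] (h : L.Gs W) : (GX.xt L M).Gs W := by
  rcases h with h | h
  · exact Or.inl
      { a₁ := h.a₁
        a₂ := h.a₂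
        a₃ := h.a₃
        a₄ := h.a₄
        a₆ := h.a₆
        disc := h.disc }
  · refine Or.inr
      { a₁ := h.a₁
        a₂ := h.a₂
        a₃ := h.a₃
        a₄ := h.a₄
        a₆ := h.a₆
        disc := h.disc
        c₄ := h.c₄
        sp := ?_ }
    obtain ⟨x₀, y₀, α, β, hc⟩ := h.sp
    exact ⟨x₀, y₀, α, β,
      { x_le := hc.x_le
        y_le := hc.y_le
        α_le := hc.α_le
        β_le := hc.β_le
        dx := hc.dx
        dy := hc.dy
        add := hc.add
        mul := hc.mul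
        ne := hc.ne
        fe := hc.fe
        x_mem := fib_bot hc.x_mem
        y_mem := fib_bot hc.y_mem
        α_mem := fib_bot hc.α_mem
        β_mem := fib_bot hc.β_mem }⟩

omit [Algebra F K] [IsScalarTower F K Ω] in
private theorem fib_jc {W : WeierstrassCurve F} (L : Ld K Ω) [L.Unr] {N : ℕ} (hN : N ≠ 0)
    (M : IntermediateField K Ω) (hM : M ≤ L.Ur ⊥ N) [FiniteDimensional K M] [IsAlgClosure M Ω]
    {l : ℕ} (h : L.Jc l W) : (GX.xt L M).Jc l W := by
  have hC : CharZero Ω := charZero_of_injective_algebraMap (algebraMap K Ω).injective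
  have hp0 : (L.p : Ω) ≠ 0 := Nat.cast_ne_zero.2 L.pp.ne_zero
  have hUn : L.Un ⊥ (L.p : Ω) :=
    { mem := _root_.natCast_mem _ _
      pos := L.p_pos
      lt := L.lt
      val := fun y hy hy0 => by
        obtain ⟨k, rfl⟩ := IntermediateField.mem_bot.1 hy
        exact L.unr k fun h0 => hy0 (by rw [h0, map_zero]) }
  intro π hπ n hn hd
  have hπM : π ∈ M := by
    obtain ⟨m, rfl⟩ := IntermediateField.mem_bot.1 hπ.mem
    exact m.2
  have hπ0 : π ≠ 0 := by
    rintro rfl
    have h1 := hπ.pos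
    rw [GX.xt_nm, L.zero] at h1
    exact lt_irrefl _ h1
  obtain ⟨a, ha⟩ := Ld.ur_unr (L := L) hN (hM hπM) hπ0
  obtain ⟨b, hb⟩ := hπ.val (L.p : Ω) (_root_.natCast_mem _ _) hp0
  rw [GX.xt_nm, GX.xt_nm] at hb
  have hpos : 0 < L.nm π := hπ.pos
  have hlt : L.nm π < 1 := hπ.lt
  have hab : b * a = 1 := by
    have h1 : L.nm π ^ (b * a) = L.nm π ^ (1 : ℤ) := by
      rw [zpow_mul, ← hb, ← ha, zpow_one]
    exact (zpow_right_injective₀ hpos hlt.ne) h1
  have hb1 : b = 1 := by
    rcases Int.eq_one_or_neg_one_of_mul_eq_one hab with h1 | h1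
    · exact h1
    · exfalso
      rw [h1, zpow_neg_one] at hb
      have h2 := one_lt_inv_iff₀.2 ⟨hpos, hlt⟩
      rw [← hb] at h2
      exact absurd L.lt (not_lt.2 h2.le)
  rw [hb1, zpow_one] at hb
  refine h (L.p : Ω) hUn n ?_ hd
  rw [hb]
  exact hn

/-- **Unramified symbols.** Proof: choose `i₁ ≠ i₂`; `exists_fib` for `M`, `x`; the local field `GX.xt L M` over `M` (`Ng/W.lean`) is unramified (`ur_unr`, as in `dvR_ur`, `Nf/Pr.lean`), the hypotheses `Gs`, `Jc` hold for it (`Gd`, `Md`: only norms;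
`Nk`: `⊥ ≤ M`; `Jc`: a uniformizer of `M` or of `K` has norm `nm p`: `Unr`); `un_j` over `M` with the field `⊥` and `N = 1`. -/
theorem sn_un (L : Ld K Ω) [L.Unr] [Nontrivial ι] (h2 : L.p ≠ 2) (hW : ∀ i, L.Gs (W i))
    (hj : ∀ i, L.Jc L.p (W i)) {G : Type} [AddCommGroup G] (S : Sn ι K Ω (fun i => Pt (W i) Ω) G)
    {N : ℕ} (hN : N ≠ 0) (M : IntermediateField K Ω) (hM : M ≤ L.Ur ⊥ N) (x : ∀ i, Pt (W i) Ω)
    (hf : FiniteDimensional K M) (hx : ∀ i, Fx M (x i)) : S.Z L.p M x := by
  have hcl : IsAlgClosed Ω := IsAlgClosure.isAlgClosed K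
  have halg : Algebra.IsAlgebraic K Ω := IsAlgClosure.isAlgebraic
  have hac : IsAlgClosure M Ω := ⟨hcl, Algebra.IsAlgebraic.tower_top (K := K) M⟩
  have hu : (GX.xt L M).Unr := ⟨fun y hy => by
    have hy0 : (y : Ω) ≠ 0 := fun h0 => hy (Subtype.ext h0)
    exact Ld.ur_unr (L := L) hN (hM y.2) hy0⟩
  have hgs : ∀ i, (GX.xt L M).Gs (W i) := fun i => fib_gs L M (hW i)
  have hjc : ∀ i, (GX.xt L M).Jc L.p (W i) := fun i => fib_jc L hN M hM (hj i)
  obtain ⟨i₁, i₂, h12⟩ := exists_pair_ne ι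
  obtain ⟨S', hT, hS'⟩ := Sn.exists_fib M S h12 x hx
  have hb : (⊥ : IntermediateField M Ω).restrictScalars K = M :=
    IntermediateField.restrictScalars_bot_eq_self M
  have hφ : ∀ (i : ι) (σ : Ω ≃ₐ[M] Ω) (a : Pt (W i) Ω),
      AddEquiv.refl (Pt (W i) Ω) (σ.restrictScalars K • a) =
        σ • AddEquiv.refl (Pt (W i) Ω) a := fun i σ a => rfl
  have hfx : ∀ i, Fx (⊥ : IntermediateField M Ω) (x i) := fun i =>
    (bs_fx M (hφ i) ⊥ (x i)).2 (by rw [hb]; exact hx i)
  have hz : S'.Z L.p ⊥ (x i₁) (x i₂) :=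
    un_j (L := GX.xt L M) h2 (hgs i₁) (hgs i₂) (hjc i₁) (hjc i₂) S' (N := 1) one_ne_zero bot_le
      (hfx i₁) (hfx i₂)
  obtain ⟨g, hg, e⟩ := hz
  refine ⟨g, hT hg, ?_⟩
  rw [hS', hb, Function.update_eq_self, Function.update_eq_self] at e
  exact e

end NE
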