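import Pool.Agent.Lib.MP_f80667_ag.Nf.Snb
import Pool.Agent.Lib.MP_f80667_ag.Nf.Sna
import Pool.Agent.Lib.MP_f80667_ag.Pe.Tm
import Pool.Agent.Lib.MP_f80667_ag.Pe.Pha
import Pool.Agent.Lib.MP_f80667_ag.Pe.Ram

/-!
Composition of symbols with a homomorphism; reduction to symbols with at most one entry with singular reduction.
-/

open ZC BE PE Polynomial IntermediateField

namespace NE

namespace Sn

variable {ι : Type} [DecidableEq ι] {K Ω : Type} [Field K] [Field Ω] [Algebra K Ω]
  {A : ι → Type} [∀ i, AddCommGroup (A i)] [∀ i, DistribMulAction (Ω ≃ₐ[K] Ω) (A i)]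
  {G G' : Type} [AddCommGroup G] [AddCommGroup G']

/-- The composition with a homomorphism. -/
def comp (S : Sn ι K Ω A G) (f : G →+ G') : Sn ι K Ω A G' where
  sy M x := f (S.sy M x)
  add M _ i x P P' h h' h'' := by rw [S.add M i x P P' h h' h'', map_add]
  nm M N _ i x P h h' h'' := by rw [S.nm M N i x P h h' h'']

theorem comp_T (S : Sn ι K Ω A G) (f : G →+ G') {g : G'} (hg : g ∈ (S.comp f).T) :
    ∃ g₀ ∈ S.T, f g₀ = g := by
  induction hg using AddSubgroup.closure_induction with
  | mem g hg =>
    obtain ⟨M, x, h1, h2, rfl⟩ := hg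
    exact ⟨S.sy M x, AddSubgroup.subset_closure ⟨M, x, h1, h2, rfl⟩, rfl⟩
  | zero => exact ⟨0, S.T.zero_mem, map_zero f⟩
  | add x y _ _ hx hy =>
    obtain ⟨a, ha, rfl⟩ := hx
    obtain ⟨b, hb, rfl⟩ := hy
    exact ⟨a + b, S.T.add_mem ha hb, map_add f a b⟩
  | neg x _ hx =>
    obtain ⟨a, ha, rfl⟩ := hx
    exact ⟨-a, S.T.neg_mem ha, map_neg f a⟩

/-- Multiples of an entry. Proof: induction, `z_add`, `z_mul` (`0 = l • 0`), `z_neg`. -/
theorem z_zsmul [CharZero K] [IsAlgClosure K Ω] {S : Sn ι K Ω A G} {l : ℕ}
    {M : IntermediateField K Ω} [FiniteDimensional K M] {i : ι} {x : ∀ i, A i} {P : A i}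
    (hx : ∀ j, j ≠ i → Fx M (x j)) (hP : Fx M P) (h : S.Z l M (Function.update x i P)) (k : ℤ) :
    S.Z l M (Function.update x i (k • P)) := by
  have key : ∀ n : ℕ, S.Z l M (Function.update x i (n • P)) := by
    intro n
    induction n with
    | zero =>
      have h1 := z_mul (S := S) (l := l) hx (Fx.zero : Fx M (0 : A i))
      rw [smul_zero] at h1
      rw [zero_nsmul]
      exact h1
    | succ n ih =>
      rw [succ_nsmul]
      exact z_add hx (hP.nsmul n) hP ih h
  obtain ⟨n, rfl | rfl⟩ := k.eq_nat_or_neg
  · rw [natCast_zsmul]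
    exact key n
  · rw [neg_zsmul, natCast_zsmul]
    exact z_neg hx (hP.nsmul n) (key n)

end Sn

variable {F : Type} [Field F] {K Ω : Type} [Field K] [CharZero K] [Field Ω] [Algebra K Ω]
  [Algebra F K] [Algebra F Ω] [IsScalarTower F K Ω] [IsAlgClosure K Ω]
  {ι : Type} [DecidableEq ι] {W : ι → WeierstrassCurve F} [∀ i, (W i).IsElliptic]

open Classical in
/-- the entries with singular reduction -/
private noncomputable def sbad [Fintype ι] (L : Ld K Ω) (x : ∀ i, Pt (W i) Ω) : Finset ι :=
  Finset.univ.filter fun i => ¬ L.Ns (x i)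

omit [∀ i, (W i).IsElliptic] in
private theorem mem_sbad [Fintype ι] {L : Ld K Ω} {x : ∀ i, Pt (W i) Ω} {i : ι} :
    i ∈ sbad L x ↔ ¬ L.Ns (x i) := by
  classical
  simp [sbad]

/-- Symbols with at most one entry with singular reduction are enough. Proof: exactly as `sn_all` (`Nf/Snd.lean`, copy it), with `H` instead of `sn_one`. -/
theorem sn_sing (L : Ld K Ω) [Fintype ι] [Nonempty ι] (hW : ∀ i, L.Gs (W i)) {l : ℕ}
    (hl : l.Prime) {G : Type} [AddCommGroup G] (S : Sn ι K Ω (fun i => Pt (W i) Ω) G)
    (H : ∀ (M : IntermediateField K Ω) (x : ∀ i, Pt (W i) Ω) (i₁ : ι), FiniteDimensional K M →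
      (∀ i, Fx M (x i)) → (∀ i, i ≠ i₁ → L.Ns (x i)) → S.Z l M x)
    (M : IntermediateField K Ω) (x : ∀ i, Pt (W i) Ω) (hM : FiniteDimensional K M)
    (hx : ∀ i, Fx M (x i)) : S.Z l M x := by
  obtain ⟨n, hn⟩ : ∃ n, (sbad L x).card = n := ⟨_, rfl⟩
  induction n using Nat.strong_induction_on generalizing M x with
  | _ n ih =>
    by_cases h1 : 1 < (sbad L x).card
    · obtain ⟨i, hi, j, hj', hij⟩ := Finset.one_lt_card.1 h1
      obtain ⟨N, P', Q', hMN, hN, hP', hQ', hP, hQ⟩ :=
        la_ram L (hW i) (hW j) hl M (hx i) (hx j) (mem_sbad.1 hi) (mem_sbad.1 hj')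
      have hNm : Fx M (Nm M N P') := nm_fx hMN hP'
      have e1 : x = Function.update x i ((x i - Nm M N P') + Nm M N P') := by
        rw [sub_add_cancel, Function.update_eq_self]
      rw [e1]
      refine Sn.z_add (fun k _ => hx k) ((hx i).sub hNm) hNm ?_ ?_
      · refine ih _ ?_ M _ hM (fun k => ?_) rfl
        · rw [← hn]
          refine Finset.card_lt_card ⟨fun k hk => ?_, fun h => ?_⟩
          · rw [mem_sbad] at hk ⊢
            by_cases hki : k = i
            · subst hki
              rw [Function.update_self] at hk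
              exact absurd hP hk
            · rwa [Function.update_of_ne hki] at hk
          · have h2 := mem_sbad.1 (h hi)
            rw [Function.update_self] at h2
            exact h2 hP
        · by_cases hki : k = i
          · subst hki
            rw [Function.update_self]
            exact (hx k).sub hNm
          · rw [Function.update_of_ne hki]
            exact hx k
      · rw [Sn.z_nm hMN (fun k _ => hx k) hP']
        obtain ⟨y, hy⟩ : ∃ y, y = Function.update x i P' := ⟨_, rfl⟩
        rw [← hy]
        have hyF : ∀ k, Fx N (y k) := by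
          intro k
          rw [hy]
          by_cases hki : k = i
          · subst hki
            rw [Function.update_self]
            exact hP'
          · rw [Function.update_of_ne hki]
            exact (hx k).mono hMN
        have hyj : y j = x j := by
          rw [hy, Function.update_of_ne hij.symm]
        have e2 : y = Function.update y j ((y j - l • Q') + l • Q') := by
          rw [sub_add_cancel, Function.update_eq_self]
        rw [e2]
        refine Sn.z_add (fun k _ => hyF k) ((hyF j).sub (hQ'.nsmul l)) (hQ'.nsmul l) ?_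
          (Sn.z_mul (fun k _ => hyF k) hQ')
        refine ih _ ?_ N _ hN (fun k => ?_) rfl
        · rw [← hn]
          refine Finset.card_lt_card ⟨fun k hk => ?_, fun h => ?_⟩
          · rw [mem_sbad] at hk
            by_cases hkj : k = j
            · subst hkj
              rw [Function.update_self, hyj] at hk
              exact absurd hQ hk
            · rw [Function.update_of_ne hkj] at hk
              by_cases hki : k = i
              · rw [hki]
                exact hi
              · rw [hy, Function.update_of_ne hki] at hk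
                exact mem_sbad.2 hk
          · have h2 := mem_sbad.1 (h hj')
            rw [Function.update_self, hyj] at h2
            exact h2 hQ
        · by_cases hkj : k = j
          · subst hkj
            rw [Function.update_self]
            exact (hyF k).sub (hQ'.nsmul l)
          · rw [Function.update_of_ne hkj]
            exact hyF k
    · obtain ⟨i₁, hi₁⟩ : ∃ i₁ : ι, ∀ i, i ≠ i₁ → L.Ns (x i) := by
        rcases (sbad L x).eq_empty_or_nonempty with h | ⟨i₁, h⟩
        · obtain ⟨i₁⟩ := (inferInstance : Nonempty ι)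
          refine ⟨i₁, fun i _ => ?_⟩
          by_contra hc
          have h2 := mem_sbad.2 hc
          rw [h] at h2
          exact Finset.notMem_empty i h2
        · refine ⟨i₁, fun i hi => ?_⟩
          by_contra hc
          exact h1 (Finset.one_lt_card.2 ⟨i, mem_sbad.2 hc, i₁, h, hi⟩)
      exact H M x i₁ hM hx hi₁

end NE
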