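import Pool.Agent.Lib.MP_f80667_ag.Sm.Tht
import Pool.Agent.Lib.MP_f80667_ag.Sm.Sna
import Pool.Agent.Lib.MP_f80667_ag.Nf.SngB

/-!
The Albanese kernel and the cycles which are multiples of `l` in it, up to rational equivalence.
-/

open ZC BE PE Polynomial IntermediateField CV

namespace NE

variable {F : Type} [Field F] {n : ℕ}

/-- The Albanese kernel (cycles). -/
noncomputable def Ak (W : Fin n → WeierstrassCurve F) (K Ω : Type) [Field K] [Field Ω] [Algebra K Ω]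
    [Algebra F K] [Algebra F Ω] [IsScalarTower F K Ω] : AddSubgroup ((Xn W).pt Ω →₀ ℤ) where
  carrier := {w | w ∈ (Xn W).D0 K Ω ∧
    ∀ i, Finsupp.mapDomain ((pr (V := fun i => Ev (W i)) i).f Ω) w ∈ (Ev (W i)).ratEq K Ω}
  zero_mem' := ⟨AddSubgroup.zero_mem _, fun i => by
    rw [Finsupp.mapDomain_zero]
    exact AddSubgroup.zero_mem _⟩
  add_mem' := fun {a b} ha hb => ⟨AddSubgroup.add_mem _ ha.1 hb.1, fun i => by
    rw [Finsupp.mapDomain_add]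
    exact AddSubgroup.add_mem _ (ha.2 i) (hb.2 i)⟩
  neg_mem' := fun {a} ha => ⟨AddSubgroup.neg_mem _ ha.1, fun i => by
    have h := (Finsupp.mapDomain.addMonoidHom (M := ℤ)
      ((pr (V := fun i => Ev (W i)) i).f Ω)).map_neg a
    change Finsupp.mapDomain _ (-a) ∈ _
    rw [← Finsupp.mapDomain.addMonoidHom_apply, h, Finsupp.mapDomain.addMonoidHom_apply]
    exact AddSubgroup.neg_mem _ (ha.2 i)⟩

/-- The cycles which are multiples of `l` in the Albanese kernel, up to rational equivalence. -/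
noncomputable def Fl (W : Fin n → WeierstrassCurve F) (K Ω : Type) [Field K] [Field Ω] [Algebra K Ω]
    [Algebra F K] [Algebra F Ω] [IsScalarTower F K Ω] (l : ℕ) :
    AddSubgroup ((Xn W).pt Ω →₀ ℤ) :=
  (Ak W K Ω).map (nsmulAddMonoidHom l) ⊔ (Xn W).ratEq K Ω

variable {W : Fin n → WeierstrassCurve F} {K Ω : Type} [Field K] [Field Ω] [Algebra K Ω]
  [Algebra F K] [Algebra F Ω] [IsScalarTower F K Ω] {l : ℕ}

theorem mem_ak {z : (Xn W).pt Ω →₀ ℤ} : z ∈ Ak W K Ω ↔ z ∈ (Xn W).D0 K Ω ∧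
    ∀ i, Finsupp.mapDomain ((pr (V := fun i => Ev (W i)) i).f Ω) z ∈ (Ev (W i)).ratEq K Ω :=
  Iff.rfl

theorem fl_mul {z : (Xn W).pt Ω →₀ ℤ} (hz : z ∈ Ak W K Ω) : l • z ∈ Fl W K Ω l :=
  AddSubgroup.mem_sup_left ⟨z, hz, rfl⟩

theorem fl_rat {z : (Xn W).pt Ω →₀ ℤ} (hz : z ∈ (Xn W).ratEq K Ω) : z ∈ Fl W K Ω l :=
  AddSubgroup.mem_sup_right hz

theorem fl_ex {z : (Xn W).pt Ω →₀ ℤ} (hz : z ∈ Fl W K Ω l) :
    ∃ z' ∈ Ak W K Ω, z - l • z' ∈ (Xn W).ratEq K Ω := by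
  obtain ⟨_, ⟨a, ha, rfl⟩, b, hb, rfl⟩ := AddSubgroup.mem_sup.1 hz
  exact ⟨a, ha, by simpa using hb⟩

/-- The local theorem in terms of `Fl`. -/
theorem dvG_fl (h : ∀ z ∈ Ak W K Ω, z ∈ Fl W K Ω l) : DvG (fun i => Ev (W i)) K Ω l := by
  intro z hz ha
  obtain ⟨z', hz', hr⟩ := fl_ex (h z ⟨hz, ha⟩)
  exact ⟨z', hz'.1, hz'.2, hr⟩

variable [CharZero K] [IsAlgClosure K Ω] [∀ i, (W i).IsElliptic]

/-- The point `ex S x` is fixed if the entries are fixed. -/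
private theorem fl_fp {S : Finset (Fin n)} {M : IntermediateField K Ω}
    {x : ∀ i : {i // i ∈ S}, Pt (W i) Ω} (hx : ∀ i, Fx M (x i)) : Fp (Xn W) M (ex S x) := by
  intro γ hγ
  funext i
  change (Ev (W i)).act γ (ex S x i) = ex S x i
  by_cases h : i ∈ S
  · have e : ex S x i = x ⟨i, h⟩ := dif_pos h
    rw [e]
    exact hx ⟨i, h⟩ γ hγ
  · have e : ex S x i = (0 : Pt (W i) Ω) := dif_neg h
    rw [e]
    exact (smul_zero γ : γ • (0 : Pt (W i) Ω) = 0)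

/-- The elements of `Y.T` are classes of elements of the Albanese kernel. -/
private theorem fl_gen {S : Finset (Fin n)} (hS : 2 ≤ S.card)
    {H : AddSubgroup ((Xn W).pt Ω →₀ ℤ)}
    (Y : Sn {i // i ∈ S} K Ω (fun i => Pt (W i) Ω) (((Xn W).pt Ω →₀ ℤ) ⧸ H))
    (hY : ∀ (M : IntermediateField K Ω) (x : ∀ i : {i // i ∈ S}, Pt (W i) Ω), Y.sy M x =
        QuotientAddGroup.mk' H
          (Nm (⊥ : IntermediateField K Ω) M (tht S (ex S x) : (Xn W).pt Ω →₀ ℤ)))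
    {g : ((Xn W).pt Ω →₀ ℤ) ⧸ H} (hg : g ∈ Y.T) :
    ∃ w ∈ Ak W K Ω, QuotientAddGroup.mk' H w = g := by
  induction hg using AddSubgroup.closure_induction with
  | mem g hg =>
    obtain ⟨M', x', hM', hx', rfl⟩ := hg
    exact ⟨_, tht_alb hS M' (fl_fp hx'), (hY M' x').symm⟩
  | zero => exact ⟨0, AddSubgroup.zero_mem _, map_zero _⟩
  | add a b _ _ iha ihb =>
    obtain ⟨a', ha', rfl⟩ := iha
    obtain ⟨b', hb', rfl⟩ := ihb
    exact ⟨a' + b', AddSubgroup.add_mem _ ha' hb', map_add _ _ _⟩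
  | neg a _ iha =>
    obtain ⟨a', ha', rfl⟩ := iha
    exact ⟨-a', AddSubgroup.neg_mem _ ha', map_neg _ _⟩

/-- The symbols are in `Fl` if they are multiples of `l`. Proof: as in `dvG_sn` (`Nf/SngB.lean`): the elements of `Y.T` are classes of elements of `Ak` (`tht_alb`). -/
theorem fl_z {S : Finset (Fin n)} (hS : 2 ≤ S.card)
    (Y : Sn {i // i ∈ S} K Ω (fun i => Pt (W i) Ω) (((Xn W).pt Ω →₀ ℤ) ⧸ (Xn W).ratEq K Ω))
    (hY : ∀ (M : IntermediateField K Ω) (x : ∀ i : {i // i ∈ S}, Pt (W i) Ω), Y.sy M x =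
        QuotientAddGroup.mk' ((Xn W).ratEq K Ω)
          (Nm (⊥ : IntermediateField K Ω) M (tht S (ex S x) : (Xn W).pt Ω →₀ ℤ)))
    {M : IntermediateField K Ω} {x : ∀ i : {i // i ∈ S}, Pt (W i) Ω} (h : Y.Z l M x) :
    Nm (⊥ : IntermediateField K Ω) M (tht S (ex S x) : (Xn W).pt Ω →₀ ℤ) ∈ Fl W K Ω l := by
  obtain ⟨g, hg, e⟩ := h
  obtain ⟨w, hw, rfl⟩ := fl_gen hS Y hY hg
  rw [hY M x, ← map_nsmul] at e
  obtain ⟨r, hr, e4⟩ := (QuotientAddGroup.mk'_eq_mk' _).1 e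
  have e5 : (Nm (⊥ : IntermediateField K Ω) M (tht S (ex S x) : (Xn W).pt Ω →₀ ℤ) :
      (Xn W).pt Ω →₀ ℤ) = l • w + -r := by
    rw [← e4]; abel
  rw [e5]
  exact AddSubgroup.add_mem _ (fl_mul hw) (fl_rat (AddSubgroup.neg_mem _ hr))

/-- **All symbols.** Let `Y' = Y.comp φ` with `φ` the projection to the quotient by `Fl` (`QuotientAddGroup.lift`). If `Y'.Z l M x` then the symbol is in `Fl`: `g ∈ Y'.T` is the class of an element of `Ak` (`comp_T`), so `l • g = 0` (`fl_mul`). -/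
theorem fl_comp {S : Finset (Fin n)} (hS : 2 ≤ S.card)
    (Y : Sn {i // i ∈ S} K Ω (fun i => Pt (W i) Ω) (((Xn W).pt Ω →₀ ℤ) ⧸ (Fl W K Ω l)))
    (hY : ∀ (M : IntermediateField K Ω) (x : ∀ i : {i // i ∈ S}, Pt (W i) Ω), Y.sy M x =
        QuotientAddGroup.mk' (Fl W K Ω l)
          (Nm (⊥ : IntermediateField K Ω) M (tht S (ex S x) : (Xn W).pt Ω →₀ ℤ)))
    {M : IntermediateField K Ω} {x : ∀ i : {i // i ∈ S}, Pt (W i) Ω} :
    Y.Z l M x ↔ Nm (⊥ : IntermediateField K Ω) M (tht S (ex S x) : (Xn W).pt Ω →₀ ℤ) ∈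
      Fl W K Ω l := by
  constructor
  · rintro ⟨g, hg, e⟩
    obtain ⟨w, hw, rfl⟩ := fl_gen hS Y hY hg
    rw [hY M x, ← map_nsmul] at e
    obtain ⟨r, hr, e4⟩ := (QuotientAddGroup.mk'_eq_mk' _).1 e
    have e5 : (Nm (⊥ : IntermediateField K Ω) M (tht S (ex S x) : (Xn W).pt Ω →₀ ℤ) :
        (Xn W).pt Ω →₀ ℤ) = l • w + -r := by
      rw [← e4]; abel
    rw [e5]
    exact AddSubgroup.add_mem _ (fl_mul hw) (AddSubgroup.neg_mem _ hr)
  · intro h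
    refine ⟨0, AddSubgroup.zero_mem _, ?_⟩
    rw [hY M x, smul_zero]
    exact (QuotientAddGroup.eq_zero_iff _).2 h

/-- The symbols modulo `Fl`. Proof: `exists_sn`, `Sn.comp` (`Sm/Sna.lean`; or directly) with `QuotientAddGroup.map` (`fl_rat`). -/
theorem exists_snF (S : Finset (Fin n)) (l : ℕ) :
    ∃ Y : Sn {i // i ∈ S} K Ω (fun i => Pt (W i) Ω) (((Xn W).pt Ω →₀ ℤ) ⧸ (Fl W K Ω l)),
      ∀ (M : IntermediateField K Ω) (x : ∀ i : {i // i ∈ S}, Pt (W i) Ω), Y.sy M x =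
        QuotientAddGroup.mk' (Fl W K Ω l)
          (Nm (⊥ : IntermediateField K Ω) M (tht S (ex S x) : (Xn W).pt Ω →₀ ℤ)) := by
  obtain ⟨Y, hY⟩ := exists_sn (W := W) (K := K) (Ω := Ω) S
  refine ⟨Y.comp (QuotientAddGroup.map _ (Fl W K Ω l) (AddMonoidHom.id _) fun z hz => fl_rat hz),
    fun M x => ?_⟩
  change QuotientAddGroup.map _ (Fl W K Ω l) (AddMonoidHom.id _) _ (Y.sy M x) = _
  rw [hY M x]
  rfl

end NE
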