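import Pool.Agent.Lib.MP_f80667_ag.Sm.Nd
import Pool.Agent.Lib.MP_f80667_ag.Nf.Mv

/-! Moving a point with nonsingular reduction, `p` odd. -/

open ZC BE PE Polynomial IntermediateField CV GM

namespace NE

variable {F : Type} [Field F] {K Ω : Type} [Field K] [Field Ω] [Algebra K Ω] [Algebra F K]
  [Algebra F Ω] [IsScalarTower F K Ω] [CharZero K] [IsAlgClosure K Ω] {L : Ld K Ω} [L.Unr]

omit [CharZero K] [IsAlgClosure K Ω] [L.Unr] in
/-- The Frobenius. -/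
private theorem mva_phi (N : ℕ) : ∃ φ : L.κ →+* L.κ, ∀ x, φ x = x ^ L.p ^ N := by
  have hch := L.char_κ
  have hpr : Fact L.p.Prime := ⟨L.pp⟩
  exact ⟨iterateFrobenius L.κ L.p N, fun x => by rw [iterateFrobenius_def]⟩

omit [CharZero K] [IsAlgClosure K Ω] [L.Unr] in
private theorem mva_pow {N : ℕ} {r : L.κ} (h : r ^ L.p ^ N = r) (d : ℕ) :
    r ^ L.p ^ (N * d) = r := by
  rw [pow_mul]
  induction d with
  | zero => rw [pow_zero, pow_one]
  | succ d ih => rw [pow_succ, pow_mul, ih, h]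

omit [Algebra F K] [Algebra F Ω] [IsScalarTower F K Ω] in
/-- Representatives of residues. -/
private theorem mva_lift {m : ℕ} {r : L.κ} (hr : r ^ L.p ^ m = r) :
    ∃ z ∈ L.Te m, L.rs.Hv z r := by
  obtain ⟨x, hx⟩ := L.hv_surj r
  obtain ⟨N', hN', z, hz, hxz⟩ := Ld.te_rep (L := L) (L.hv_int hx)
  have hzr : L.rs.Hv z r := Ld.lifta_hv hx (by rw [L.sub_comm]; exact hxz)
  refine ⟨z, ?_, hzr⟩
  have h1 : L.rs.Hv (z ^ L.p ^ m) (r ^ L.p ^ m) := hzr.pow _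
  have h2 : z ^ L.p ^ m ∈ L.Te N' := by
    change (z ^ L.p ^ m) ^ L.p ^ N' = z ^ L.p ^ m
    rw [← pow_mul, mul_comm, pow_mul, show z ^ L.p ^ N' = z from hz]
  exact Ld.te_inj hN' h2 hz ((L.hv_sub h1 hzr).1 hr)

/-- The residues of the coefficients. -/
private theorem mva_fix {M : IntermediateField K Ω} {N : ℕ} (hM : L.Rf M N) {a : F}
    (ha : L.nm (algebraMap F Ω a) ≤ 1) :
    L.rr (algebraMap F Ω a) ^ L.p ^ N = L.rr (algebraMap F Ω a) := by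
  obtain ⟨z, hz, h⟩ := hM.res _ (Ld.lifta_mem M a) ha
  have h2 : L.rs.Hv z (L.rr (algebraMap F Ω a)) :=
    Ld.lifta_hv (L.hv_rr ha) (by rw [L.sub_comm]; exact h)
  have h3 := h2.pow (L.p ^ N)
  rw [show z ^ L.p ^ N = z from hz] at h3
  exact h3.uniq h2

private theorem mva_te {m : ℕ} {w : Ω} {r : L.κ} (hw : w ∈ L.Te m) (hr : L.rs.Hv w r) :
    r ^ L.p ^ m = r := by
  have h3 := hr.pow (L.p ^ m)
  rw [show w ^ L.p ^ m = w from hw] at h3
  exact h3.uniq hr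

/-- The point from its residues. -/
private theorem mva_fin {W : WeierstrassCurve F} (h : L.It W) {m : ℕ} (hm : m ≠ 0) {r s : L.κ}
    (hr : r ^ L.p ^ m = r) (hs : s ^ L.p ^ m = s)
    (he : s ^ 2 + (L.rc W).a₁ * r * s + (L.rc W).a₃ * s -
      (r ^ 3 + (L.rc W).a₂ * r ^ 2 + (L.rc W).a₄ * r + (L.rc W).a₆) = 0)
    (hd : 2 * s + (L.rc W).a₁ * r + (L.rc W).a₃ ≠ 0) :
    ∃ x y : Ω, x ∈ L.Ur ⊥ m ∧ y ∈ L.Ur ⊥ m ∧ L.nm x ≤ 1 ∧ L.nm y ≤ 1 ∧
      fe W x y = 0 ∧ L.nm (dy W x y) = 1 := by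
  obtain ⟨x₀, hx₀, hxr⟩ := mva_lift hr
  obtain ⟨y₀, hy₀, hys⟩ := mva_lift hs
  have hfd : FiniteDimensional K (L.Ur ⊥ m) := Ld.ur_fin ⊥ m hm
  have h1 : L.nm (fe W x₀ y₀) < 1 := by
    have h2 := Ld.lifta_fe h hxr hys
    rw [he] at h2
    exact L.hv_zero.1 h2
  have h2 : L.nm (dy W x₀ y₀) = 1 := (L.hv_ne (Ld.lifta_dy h hxr hys)).1 hd
  obtain ⟨x, hx, y, hy, h3, h4, h5⟩ := Ld.lifta_pt h (L.Ur ⊥ m) (Ld.te_ur hx₀) (Ld.te_ur hy₀)
    (L.hv_int hxr) (L.hv_int hys) h1 (Or.inr h2)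
  have h6 : L.rs.Hv x r := Ld.lifta_hv hxr h4
  have h7 : L.rs.Hv y s := Ld.lifta_hv hys h5
  exact ⟨x, y, hx, hy, L.hv_int h6, L.hv_int h7, h3, (L.hv_ne (Ld.lifta_dy h h6 h7)).1 hd⟩

/-- The discriminant polynomial over the residue field. -/
private noncomputable def mvD (E : WeierstrassCurve L.κ) : Polynomial L.κ :=
  (C E.a₁ * X + C E.a₃) ^ 2 + 4 * (X ^ 3 + C E.a₂ * X ^ 2 + C E.a₄ * X + C E.a₆)

private theorem mva_D_eval (E : WeierstrassCurve L.κ) (r : L.κ) : (mvD E).eval r =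
    (E.a₁ * r + E.a₃) ^ 2 + 4 * (r ^ 3 + E.a₂ * r ^ 2 + E.a₄ * r + E.a₆) := by
  simp [mvD]

private theorem mva_D {W : WeierstrassCurve F} (hp : L.p ≠ 2) : mvD (L.rc W) ≠ 0 := by
  have hch := L.char_κ
  have h4 : (4 : L.κ) ≠ 0 := by
    intro h5
    have h6 : ((4 : ℕ) : L.κ) = 0 := by
      rw [Nat.cast_ofNat]
      exact h5
    have h7 := (CharP.cast_eq_zero_iff L.κ L.p 4).1 h6
    have h8 : L.p ∣ 2 := L.pp.dvd_of_dvd_pow (n := 2) (by norm_num; exact h7)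
    exact hp ((Nat.prime_dvd_prime_iff_eq L.pp Nat.prime_two).1 h8)
  have h5 : mvD (L.rc W) =
      (⟨4, (L.rc W).a₁ ^ 2 + 4 * (L.rc W).a₂, 2 * (L.rc W).a₁ * (L.rc W).a₃ +
        4 * (L.rc W).a₄, (L.rc W).a₃ ^ 2 + 4 * (L.rc W).a₆⟩ : Cubic L.κ).toPoly := by
    simp only [mvD, Cubic.toPoly, map_add, map_mul, map_pow, map_ofNat]
    ring
  rw [h5]
  exact Cubic.ne_zero_of_a_ne_zero h4

/-- The equation for the second coordinate. -/
private noncomputable def mvQ (E : WeierstrassCurve L.κ) (r : L.κ) : Polynomial L.κ :=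
  X ^ 2 + C (E.a₁ * r + E.a₃) * X + C (-(r ^ 3 + E.a₂ * r ^ 2 + E.a₄ * r + E.a₆))

private theorem mva_Q_mon (E : WeierstrassCurve L.κ) (r : L.κ) : (mvQ E r).Monic := by
  unfold mvQ
  monicity!

private theorem mva_Q_deg (E : WeierstrassCurve L.κ) (r : L.κ) : (mvQ E r).natDegree = 2 := by
  unfold mvQ
  compute_degree!

private theorem mva_Q_eval (E : WeierstrassCurve L.κ) (r s : L.κ) : (mvQ E r).eval s =
    s ^ 2 + E.a₁ * r * s + E.a₃ * s - (r ^ 3 + E.a₂ * r ^ 2 + E.a₄ * r + E.a₆) := by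
  simp only [mvQ, eval_add, eval_mul, eval_pow, eval_X, eval_C]
  ring

/-- The equation for the first coordinate. -/
private noncomputable def mvR (E : WeierstrassCurve L.κ) (s : L.κ) : Polynomial L.κ :=
  X ^ 3 + C E.a₂ * X ^ 2 + C (E.a₄ - E.a₁ * s) * X + C (E.a₆ - s ^ 2 - E.a₃ * s)

private theorem mva_R_mon (E : WeierstrassCurve L.κ) (s : L.κ) : (mvR E s).Monic := by
  unfold mvR
  monicity!

private theorem mva_R_deg (E : WeierstrassCurve L.κ) (s : L.κ) : (mvR E s).natDegree = 3 := by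
  unfold mvR
  compute_degree!

private theorem mva_R_eval (E : WeierstrassCurve L.κ) (s r : L.κ) : (mvR E s).eval r =
    -(s ^ 2 + E.a₁ * r * s + E.a₃ * s - (r ^ 3 + E.a₂ * r ^ 2 + E.a₄ * r + E.a₆)) := by
  simp only [mvR, eval_add, eval_mul, eval_pow, eval_X, eval_C]
  ring

/-- A point with `dy` a unit. Proof: as `exists_sm` (`Nf/MvA.lean`); `mva_D` there uses `Hd` only for `p = 2`. -/
theorem exists_sm2 {l : ℕ} (hl : l = 2 ∨ l = 3) (h2 : L.p ≠ 2) {W : WeierstrassCurve F}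
    (h : L.It W) {M : IntermediateField K Ω} {N : ℕ} (hM : L.Rf M N) :
    ∃ (j : ℕ) (x y : Ω), x ∈ L.Ur ⊥ (N * l ^ j) ∧ y ∈ L.Ur ⊥ (N * l ^ j) ∧ L.nm x ≤ 1 ∧
      L.nm y ≤ 1 ∧ fe W x y = 0 ∧ L.nm (dy W x y) = 1 := by
  classical
  have hac : IsAlgClosed Ω := IsAlgClosure.isAlgClosed K
  have hκ : IsAlgClosed L.κ := L.κ_closed
  have f₁ : (L.rc W).a₁ ^ L.p ^ N = (L.rc W).a₁ := mva_fix hM h.a₁
  have f₂ : (L.rc W).a₂ ^ L.p ^ N = (L.rc W).a₂ := mva_fix hM h.a₂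
  have f₃ : (L.rc W).a₃ ^ L.p ^ N = (L.rc W).a₃ := mva_fix hM h.a₃
  have f₄ : (L.rc W).a₄ ^ L.p ^ N = (L.rc W).a₄ := mva_fix hM h.a₄
  have f₆ : (L.rc W).a₆ ^ L.p ^ N = (L.rc W).a₆ := mva_fix hM h.a₆
  have hD := mva_D (L := L) (W := W) h2
  rcases hl with rfl | rfl
  · obtain ⟨j, w, hw, r, hwr, hr⟩ := Ld.exists_res (L := L) (mvD (L.rc W)).roots.toFinset hM.ne
      (one_lt_two : 1 < 2)
    obtain ⟨m, hm⟩ : ∃ m, m = N * 2 ^ j := ⟨_, rfl⟩
    have hm0 : m ≠ 0 := by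
      rw [hm]
      exact mul_ne_zero hM.ne (pow_ne_zero _ two_ne_zero)
    rw [← hm] at hw
    have hrm := mva_te hw hwr
    have hDr : (mvD (L.rc W)).eval r ≠ 0 := fun h0 => hr (by
      rw [Multiset.mem_toFinset, mem_roots hD]
      exact h0)
    obtain ⟨s, hs⟩ := IsAlgClosed.exists_root (mvQ (L.rc W) r) (by
      rw [degree_eq_natDegree (mva_Q_mon _ _).ne_zero, mva_Q_deg]
      norm_num)
    obtain ⟨φ, hφ⟩ := mva_phi (L := L) m
    have g : ∀ {a : L.κ}, a ^ L.p ^ N = a → φ a = a := fun {a} ha => by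
      rw [hφ, hm]
      exact mva_pow ha _
    have gr : φ r = r := by rw [hφ, hrm]
    have hc : ∀ i, (mvQ (L.rc W) r).coeff i ^ L.p ^ m = (mvQ (L.rc W) r).coeff i := by
      intro i
      rw [← hφ, ← Polynomial.coeff_map]
      refine congrArg (fun q => Polynomial.coeff q i) ?_
      simp only [mvQ, Polynomial.map_add, Polynomial.map_mul, Polynomial.map_pow,
        Polynomial.map_neg, Polynomial.map_X, Polynomial.map_C, map_add, map_mul, map_pow,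
        map_neg, gr]
      rw [g f₁, g f₂, g f₃, g f₄, g f₆]
    have hs2 := mv_two hm0 (mva_Q_mon _ _) (mva_Q_deg _ _) hc hs
    have he : (mvQ (L.rc W) r).eval s = 0 := hs
    rw [mva_Q_eval] at he
    obtain ⟨x, y, h1⟩ := mva_fin h (mul_ne_zero hm0 two_ne_zero) (mva_pow hrm 2) hs2 he
      (fun h0 => hDr (by
        rw [mva_D_eval]
        linear_combination (2 * s + (L.rc W).a₁ * r + (L.rc W).a₃) * h0 - 4 * he))
    refine ⟨j + 1, x, y, ?_⟩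
    rw [pow_succ, ← mul_assoc, ← hm]
    exact h1
  · obtain ⟨j, w, hw, s, hws, hs⟩ := Ld.exists_res (L := L)
      ((mvD (L.rc W)).roots.toFinset.biUnion fun r => (mvQ (L.rc W) r).roots.toFinset) hM.ne
      (by norm_num : 1 < 3)
    obtain ⟨m, hm⟩ : ∃ m, m = N * 3 ^ j := ⟨_, rfl⟩
    have hm0 : m ≠ 0 := by
      rw [hm]
      exact mul_ne_zero hM.ne (pow_ne_zero _ three_ne_zero)
    rw [← hm] at hw
    have hsm := mva_te hw hws
    obtain ⟨φ, hφ⟩ := mva_phi (L := L) m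
    have g : ∀ {a : L.κ}, a ^ L.p ^ N = a → φ a = a := fun {a} ha => by
      rw [hφ, hm]
      exact mva_pow ha _
    have gs : φ s = s := by rw [hφ, hsm]
    have hc : ∀ i, (mvR (L.rc W) s).coeff i ^ L.p ^ m = (mvR (L.rc W) s).coeff i := by
      intro i
      rw [← hφ, ← Polynomial.coeff_map]
      refine congrArg (fun q => Polynomial.coeff q i) ?_
      simp only [mvR, Polynomial.map_add, Polynomial.map_sub, Polynomial.map_mul,
        Polynomial.map_pow, Polynomial.map_X, Polynomial.map_C, map_sub, map_mul, map_pow, gs]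
      rw [g f₁, g f₂, g f₃, g f₄, g f₆]
    obtain ⟨r, hr, hr3⟩ := mv_three hm0 (mva_R_mon _ _) (mva_R_deg _ _) hc
    rw [mva_R_eval, neg_eq_zero] at hr
    obtain ⟨x, y, h1⟩ := mva_fin h (mul_ne_zero hm0 three_ne_zero) hr3 (mva_pow hsm 3) hr
      (fun h0 => hs (by
        rw [Finset.mem_biUnion]
        refine ⟨r, ?_, ?_⟩
        · rw [Multiset.mem_toFinset, mem_roots hD, IsRoot.def, mva_D_eval]
          linear_combination (2 * s + (L.rc W).a₁ * r + (L.rc W).a₃) * h0 - 4 * hr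
        · rw [Multiset.mem_toFinset, mem_roots (mva_Q_mon _ _).ne_zero, IsRoot.def, mva_Q_eval]
          exact hr))
    refine ⟨j + 1, x, y, ?_⟩
    rw [pow_succ, ← mul_assoc, ← hm]
    exact h1

omit [L.Unr] in
/-- A point congruent to an integral point with `dy` a unit is such a point. -/
private theorem mvz_dy {W : WeierstrassCurve F} (h : L.It W) {xr yr : Ω}
    (hr : (W.baseChange Ω).toAffine.Nonsingular xr yr) (h1 : L.nm xr ≤ 1) (h2 : L.nm yr ≤ 1)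
    (h3 : L.nm (dy W xr yr) = 1) {P : Pt W Ω} (hc : L.Cg P (Pt.aff xr yr hr)) :
    ∃ (x y : Ω) (hx : (W.baseChange Ω).toAffine.Nonsingular x y), P = Pt.aff x y hx ∧
        L.nm x ≤ 1 ∧ L.nm y ≤ 1 ∧ L.nm (dy W x y) = 1 := by
  have hns : L.Ns (Pt.aff xr yr hr : Pt W Ω) := (Ld.ns_aff h hr h1).2.2 (Or.inr h3)
  rcases Pt.cases' P with rfl | ⟨x, y, hx, rfl⟩
  · exfalso
    unfold Ld.Cg at hc
    rw [zero_sub] at hc
    have h4 := (Ld.fm_neg h hc).1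
    rw [neg_neg] at h4
    exact absurd ((Ld.fm_aff h hr).1.1 h4) (not_lt.2 h1)
  · obtain ⟨h4, h5⟩ := (Ld.cg_aff h hr hx h1 hns).1 (Ld.cg_symm h hc)
    refine ⟨x, y, hx, rfl, ?_, ?_, ?_⟩
    · have e : x = (x - xr) + xr := by ring
      rw [e]
      exact (L.add _ _).trans (max_le h4.le h1)
    · have e : y = (y - yr) + yr := by ring
      rw [e]
      exact (L.add _ _).trans (max_le h5.le h2)
    · have e : dy W x y = dy W xr yr + (2 * (y - yr) + algebraMap F Ω W.a₁ * (x - xr)) := by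
        unfold dy
        ring
      rw [e, L.add_eq', h3]
      rw [h3]
      refine (L.add _ _).trans_lt (max_lt ?_ ?_)
      · rw [L.mul]
        exact (mul_le_of_le_one_left (L.nonneg _) L.two_le).trans_lt h5
      · rw [L.mul]
        exact (mul_le_of_le_one_left (L.nonneg _) h.a₁).trans_lt h4

/-- **Moving a point with nonsingular reduction.** Proof: the first case of `mv_pt` (`Nf/Mv.lean`) with `exists_sm2`. -/
theorem mv_ns {l : ℕ} (hl : l = 2 ∨ l = 3) (h2 : L.p ≠ 2) {W : WeierstrassCurve F}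
    [W.IsElliptic] (h : L.It W) {M : IntermediateField K Ω} [FiniteDimensional K M] {N : ℕ}
    (hM : L.Rf M N) {P : Pt W Ω} (hP : Fx M P) (hs : L.Ns P) : ∃ j₀ : ℕ, ∀ j ≥ j₀,
      ∃ (c : Pt W Ω) (x y : Ω) (hx : (W.baseChange Ω).toAffine.Nonsingular x y),
        Fx (L.Ur ⊥ (N * l ^ j)) c ∧ P + c = Pt.aff x y hx ∧ L.nm x ≤ 1 ∧ L.nm y ≤ 1 ∧
          dy W x y ≠ 0 ∧ L.nm (dy W x y) = 1 := by
  obtain ⟨j₁, xd, yd, hxd, hyd, hx1, hy1, hfe, hdy⟩ := exists_sm2 hl h2 h hM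
  have hd : (W.baseChange Ω).toAffine.Nonsingular xd yd := aff_of_fe hfe
  obtain ⟨Q, hQ, hQc⟩ := Ld.lift_rf h hM hs hP
  refine ⟨j₁, fun j hj => ?_⟩
  have hd1 : N ∣ N * l ^ j := dvd_mul_right _ _
  have hd2 : N * l ^ j₁ ∣ N * l ^ j := mul_dvd_mul_left N (pow_dvd_pow l hj)
  have hcf : Fx (L.Ur ⊥ (N * l ^ j)) (Pt.aff xd yd hd - Q) :=
    (((fx_aff _ hd).2 ⟨hxd, hyd⟩).mono (Ld.ur_dvd ⊥ hd2)).sub (hQ.mono (Ld.ur_dvd ⊥ hd1))
  have hcg : L.Cg (P + (Pt.aff xd yd hd - Q)) (Pt.aff xd yd hd) := by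
    have h1 := Ld.cg_symm h hQc
    unfold Ld.Cg at h1 ⊢
    have e : P + (Pt.aff xd yd hd - Q) - Pt.aff xd yd hd = P - Q := by abel
    rw [e]
    exact h1
  obtain ⟨x, y, hx, e, h4, h5, h6⟩ := mvz_dy h hd hx1 hy1 hdy hcg
  refine ⟨_, x, y, hx, hcf, e, h4, h5, ?_, h6⟩
  intro h0
  rw [h0, L.zero] at h6
  exact zero_ne_one h6

end NE
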