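import Pool.Agent.Lib.MP_f80667_ag.Sm.Cho
import Pool.Agent.Lib.MP_f80667_ag.Sm.Mv
import Pool.Agent.Lib.MP_f80667_ag.Nf.Nm
import Pool.Agent.Lib.MP_f80667_ag.Nf.GenA
import Pool.Agent.Lib.MP_f80667_ag.Nf.EeB
import Pool.Agent.Lib.MP_f80667_ag.Pe.GbZ

/-!
The points with nonsingular reduction in all entries but one, where the level is that of a uniformizer, are rationally equivalent to unramified points.
-/

open ZC BE PE Polynomial IntermediateField CV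

namespace NE

variable {F : Type} [Field F] {K Ω : Type} [Field K] [Field Ω] [Algebra K Ω] [Algebra F K]
  [Algebra F Ω] [IsScalarTower F K Ω] [CharZero K] [IsAlgClosure K Ω] {L : Ld K Ω} [L.Unr] {n : ℕ}
  {W : Fin n → WeierstrassCurve F} [∀ i, (W i).IsElliptic]

/-- The good points over `M`: the entries have nonsingular reduction, except at most one, which is of level `nm π`. -/
structure Gp (L : Ld K Ω) (W : Fin n → WeierstrassCurve F) (M : IntermediateField K Ω) (π : Ω)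
    (P : (Xn W).pt Ω) : Prop where
  uf : L.Uf M π
  lv : L.nm (L.p : Ω) < L.nm π ^ 2
  fp : Fp (Xn W) M P
  sg : ∀ i, L.Ns (cx P i) ∨ ∃ x₀ y₀ α β : Ω, L.Md (W i) ∧ L.Nk (W i) x₀ y₀ α β ∧
    L.La (W i) x₀ y₀ α β (L.nm π) (cx P i)
  one : ∀ i j, i ≠ j → L.Ns (cx P i) ∨ L.Ns (cx P j)

omit [L.Unr] in
/-- Unramified extensions have the same uniformizer. Proof: `exists_frob`, `rf_frob`, `ur_val` (`N = f`). -/
theorem uf_ur {M : IntermediateField K Ω} [FiniteDimensional K M] {N : ℕ} (hM : L.Rf M N) {D : ℕ}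
    (hD : D ≠ 0) {π : Ω} (h : L.Uf M π) : L.Uf (L.Ur M (N * D)) π := by
  obtain ⟨φ, q, hφ⟩ := exists_frob L.toLf M
  rw [Ld.rf_frob hM hφ] at hφ
  refine ⟨Ld.ur_le h.mem, h.pos, h.lt, fun x hx hx1 => ?_⟩
  obtain ⟨y, hy, hyx⟩ := Ld.ur_val hφ hM.ne hD hx
  rw [← hyx]
  exact h.max y hy (by rw [hyx]; exact hx1)

/-- The points of `Go`. Proof: as `gen_gn` (`Nf/Gen.lean`) with `exists_ch2`; `π` is given. -/
theorem gen_go (h2 : L.p ≠ 2) {M : IntermediateField K Ω} [FiniteDimensional K M] {N : ℕ} {π : Ω}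
    {x y : Fin n → Ω} (h : Go L W M N π x y) {l : ℕ} (hl : 1 < l) {P : (Xn W).pt Ω}
    (hP : ∀ i, ∃ h : ((W i).baseChange Ω).toAffine.Nonsingular (x i) (y i),
      cx P i = Pt.aff (x i) (y i) h) : ∃ j : ℕ,
    Nm (L.Ur ⊥ (N * l ^ j)) (L.Ur M (N * l ^ j)) (Finsupp.single P (1 : ℤ) : (Xn W).pt Ω →₀ ℤ) ∈
      (Xn W).ratEq (L.Ur ⊥ (N * l ^ j)) Ω ⊔ Uk L (Xn W) (L.Ur ⊥ (N * l ^ j)) := by
  obtain ⟨e, m, hm⟩ := Ld.exists_tm (d := 0) (z := π) h.rf (zero_mem _)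
    (by rw [L.zero]; exact zero_le_one) (by rw [sub_zero]; exact h.uf)
  obtain ⟨j, r, w, A, b, hch, hr0, hA0⟩ := exists_ch2 h2 h hm hl
  refine ⟨j, rel_nm h.rf.ne (pow_ne_zero _ (by omega)) h.rf hm h.uf.mem hch ?_⟩
  have h1 : ∀ i, ∃ h : ((W i).baseChange Ω).toAffine.Nonsingular ((r i).eval π) (y i),
      cx P i = Pt.aff ((r i).eval π) (y i) h := by
    intro i
    rw [hr0 i]
    exact hP i
  choose h3 h4 using h1
  exact ⟨y, h3, hA0.symm, funext h4⟩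

/-- Moving one entry. -/
private theorem gen_mv (h2 : L.p ≠ 2) {l : ℕ} (hl : l = 2 ∨ l = 3) {V : WeierstrassCurve F}
    [V.IsElliptic] (hV : L.It V) {M : IntermediateField K Ω} [FiniteDimensional K M] {N : ℕ}
    (hM : L.Rf M N) {π : Ω} (hπ : L.Uf M π) (hlv : L.nm (L.p : Ω) < L.nm π ^ 2) {P : Pt V Ω}
    (hP : Fx M P) (hs : L.Ns P ∨ ∃ x₀ y₀ α β : Ω, L.Md V ∧ L.Nk V x₀ y₀ α β ∧
      L.La V x₀ y₀ α β (L.nm π) P) : ∃ j₀ : ℕ, ∀ j ≥ j₀,
      ∃ (c : Pt V Ω) (x y : Ω) (hx : (V.baseChange Ω).toAffine.Nonsingular x y),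
        Fx (L.Ur ⊥ (N * l ^ j)) c ∧ P + c = Pt.aff x y hx ∧ L.nm x ≤ 1 ∧ L.nm y ≤ 1 ∧
          dy V x y ≠ 0 ∧ (L.nm (dy V x y) = 1 ∨ Sl L V π x y) ∧
            (L.Ns P → L.nm (dy V x y) = 1) := by
  by_cases hn : L.Ns P
  · obtain ⟨j₀, hj₀⟩ := mv_ns hl h2 hV hM hP hn
    refine ⟨j₀, fun j hj => ?_⟩
    obtain ⟨c, x, y, hx, h1, h3, h4, h5, h6, h7⟩ := hj₀ j hj
    exact ⟨c, x, y, hx, h1, h3, h4, h5, h6, Or.inl h7, fun _ => h7⟩
  · rcases hs with h | ⟨x₀, y₀, α, β, hmd, hnk, hla⟩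
    · exact absurd h hn
    · obtain ⟨x, y, hx, h1, h3, h4, h5, h6⟩ := lv_sl hmd hnk hπ.pos hπ.lt hlv hla
      refine ⟨0, fun j _ => ⟨0, x, y, hx, Fx.zero, ?_, h3, h4, h5, Or.inr h6,
        fun h => absurd h hn⟩⟩
      rw [add_zero, h1]

/-- Proof: as `gen_pt` (`Nf/Gen.lean`): `mv_ns` for the entries with nonsingular reduction (a common `j`), `c i = 0` for the last one (`lv_sl`: `Sl`); `Go` over `Ur M (N l ^ j)` (`rf_ur`, `uf_ur`; `one`: two entries which are not units do not have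
nonsingular reduction: for `Ns` entries `dy` is a unit after moving); `gen_go`, `trl_ratEq`, `trl_uk`, `trl_nm`. -/
theorem gen_pt2 (h2 : L.p ≠ 2) (hIt : ∀ i, L.It (W i)) {M : IntermediateField K Ω}
    [FiniteDimensional K M] {N : ℕ} (hM : L.Rf M N) {π : Ω} {l : ℕ} (hl : l = 2 ∨ l = 3)
    {P : (Xn W).pt Ω} (hP : Gp L W M π P) : ∃ j : ℕ,
    Nm (L.Ur ⊥ (N * l ^ j)) (L.Ur M (N * l ^ j)) (Finsupp.single P (1 : ℤ) : (Xn W).pt Ω →₀ ℤ) ∈
      (Xn W).ratEq (L.Ur ⊥ (N * l ^ j)) Ω ⊔ Uk L (Xn W) (L.Ur ⊥ (N * l ^ j)) := by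
  classical
  have hl1 : 1 < l := by omega
  have hl0 : l ≠ 0 := by omega
  have hP' := fpX.1 hP.fp
  choose j₀ hj₀ using fun i => gen_mv h2 hl (hIt i) hM hP.uf hP.lv (hP' i) (hP.sg i)
  set j := Finset.univ.sup j₀ with hj
  choose c x y hx hc hs hx1 hy1 hdy hsg hun using fun i =>
    hj₀ i j (Finset.le_sup (f := j₀) (Finset.mem_univ i))
  have hlj : l ^ j ≠ 0 := pow_ne_zero _ hl0
  have hN' : N * l ^ j ≠ 0 := mul_ne_zero hM.ne hlj
  have hrf : L.Rf (L.Ur M (N * l ^ j)) (N * l ^ j) := Ld.rf_ur hM hlj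
  have hfin : FiniteDimensional K (L.Ur M (N * l ^ j)) := Ld.ur_fin M _ hN'
  have hmem : ∀ i, x i ∈ L.Ur M (N * l ^ j) ∧ y i ∈ L.Ur M (N * l ^ j) := by
    intro i
    rw [← fx_aff (K := K) _ (hx i), ← hs i]
    exact ((hP' i).mono Ld.ur_le).add ((hc i).mono (Ld.ur_bot_ur M _))
  have hgo : Go L W (L.Ur M (N * l ^ j)) (N * l ^ j) π x y :=
    { rf := hrf
      uf := uf_ur hM hlj hP.uf
      lv := hP.lv
      it := hIt
      xm := fun i => (hmem i).1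
      ym := fun i => (hmem i).2
      xl := hx1
      yl := hy1
      eq := fun i => fe_zero (hx i)
      ne := hdy
      sg := hsg
      one := fun i k hik => by
        rcases hP.one i k hik with h | h
        · exact Or.inl (hun i h)
        · exact Or.inr (hun k h) }
  let cc : (Xn W).pt Ω := fun i => (c i : Pt (W i) Ω)
  let nc : (Xn W).pt Ω := fun i => (-c i : Pt (W i) Ω)
  obtain ⟨j', hj'⟩ := gen_go h2 hgo hl1 (P := trl cc P) fun i => ⟨hx i, hs i⟩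
  refine ⟨j + j', ?_⟩
  have e1 : N * l ^ (j + j') = N * l ^ j * l ^ j' := by rw [pow_add, mul_assoc]
  rw [e1]
  have e2 : L.Ur (L.Ur M (N * l ^ j)) (N * l ^ j * l ^ j') = L.Ur M (N * l ^ j * l ^ j') :=
    Ld.ur_ur M (dvd_mul_right _ _)
  rw [e2] at hj'
  set U := L.Ur ⊥ (N * l ^ j * l ^ j') with hU
  have hU0 : N * l ^ j * l ^ j' ≠ 0 := mul_ne_zero hN' (pow_ne_zero _ hl0)
  have hfin' : FiniteDimensional K (L.Ur M (N * l ^ j * l ^ j')) := Ld.ur_fin M _ hU0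
  have hnc : Fp (Xn W) U nc := fpX.2 fun i =>
    ((hc i).neg).mono (Ld.ur_dvd ⊥ (dvd_mul_right _ _))
  have e3 : trl nc (trl cc P) = P := by
    funext i
    change cx P i + c i + -c i = cx P i
    rw [add_neg_cancel_right]
  have e4 : Nm U (L.Ur M (N * l ^ j * l ^ j')) (Finsupp.single P (1 : ℤ) : (Xn W).pt Ω →₀ ℤ) =
      Finsupp.mapDomain (trl nc) (Nm U (L.Ur M (N * l ^ j * l ^ j'))
        (Finsupp.single (trl cc P) (1 : ℤ) : (Xn W).pt Ω →₀ ℤ)) := by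
    rw [trl_nm (Ld.ur_bot_ur M _) hnc, e3]
  rw [e4]
  obtain ⟨a, ha, b, hb, hab⟩ := AddSubgroup.mem_sup.1 hj'
  rw [← hab, Finsupp.mapDomain_add]
  exact AddSubgroup.add_mem_sup (trl_ratEq hnc ha) (trl_uk hU0 le_rfl hnc hb)

/-- **The generation for good points.** Proof: as `gen_all` (`Nf/Gen.lean`) with `gen_pt2`. -/
theorem gen_lv (h2 : L.p ≠ 2) (hIt : ∀ i, L.It (W i)) {M : IntermediateField K Ω} {π : Ω}
    {P : (Xn W).pt Ω} (hf : FiniteDimensional K M) (hP : Gp L W M π P) :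
    Nm (⊥ : IntermediateField K Ω) M (Finsupp.single P 1) ∈ (Xn W).ratEq K Ω ⊔ Uv L (Xn W) := by
  obtain ⟨N, hN⟩ := exists_rfM (L := L) M
  have key : ∀ l : ℕ, l = 2 ∨ l = 3 → ∃ j : ℕ, l ^ j • Nm (⊥ : IntermediateField K Ω) M
      (Finsupp.single P (1 : ℤ) : (Xn W).pt Ω →₀ ℤ) ∈ (Xn W).ratEq K Ω ⊔ Uv L (Xn W) := by
    intro l hl
    have hl0 : l ≠ 0 := by omega
    obtain ⟨j, hj⟩ := gen_pt2 h2 hIt hN hl hP
    refine ⟨j, ?_⟩
    have hlj : l ^ j ≠ 0 := pow_ne_zero _ hl0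
    have hN' : N * l ^ j ≠ 0 := mul_ne_zero hN.ne hlj
    have hfin : FiniteDimensional K (L.Ur M (N * l ^ j)) := Ld.ur_fin M _ hN'
    have hfinU : FiniteDimensional K (L.Ur ⊥ (N * l ^ j)) := Ld.ur_fin ⊥ _ hN'
    have hPM : Fx M (Finsupp.single P (1 : ℤ) : (Xn W).pt Ω →₀ ℤ) := fx_single hP.fp 1
    have hPN : Fx (L.Ur M (N * l ^ j)) (Finsupp.single P (1 : ℤ) : (Xn W).pt Ω →₀ ℤ) :=
      hPM.mono Ld.ur_le
    have e1 : l ^ j • Nm (⊥ : IntermediateField K Ω) M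
        (Finsupp.single P (1 : ℤ) : (Xn W).pt Ω →₀ ℤ) =
        Nm (⊥ : IntermediateField K Ω) (L.Ur M (N * l ^ j)) (Finsupp.single P (1 : ℤ)) := by
      rw [nm_tr bot_le Ld.ur_le hPN, nm_deg hN hlj hP.fp, nm_nsmul bot_le]
    rw [e1, nm_tr bot_le (Ld.ur_bot_ur M (N * l ^ j)) hPN]
    obtain ⟨a, ha, b, hb, hab⟩ := AddSubgroup.mem_sup.1 hj
    have hfx : Fx (L.Ur ⊥ (N * l ^ j)) a := by
      have h1 := nm_fx (Ld.ur_bot_ur M (N * l ^ j)) hPN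
      rw [← hab] at h1
      have h3 := h1.sub hb.1
      rwa [add_sub_cancel_right] at h3
    rw [← hab, nm_add bot_le]
    exact AddSubgroup.add_mem_sup (nm_ratEq ha hfx) (uk_uv hN' hb)
  obtain ⟨a, ha⟩ := key 2 (Or.inl rfl)
  obtain ⟨b, hb⟩ := key 3 (Or.inr rfl)
  have hcop : IsCoprime ((2 ^ a : ℕ) : ℤ) ((3 ^ b : ℕ) : ℤ) := by
    rw [Nat.isCoprime_iff_coprime]
    exact Nat.Coprime.pow _ _ (by norm_num)
  obtain ⟨u, v, huv⟩ := hcop
  have e : Nm (⊥ : IntermediateField K Ω) M (Finsupp.single P (1 : ℤ) : (Xn W).pt Ω →₀ ℤ) =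
      u • (2 ^ a • Nm (⊥ : IntermediateField K Ω) M (Finsupp.single P 1)) +
        v • (3 ^ b • Nm (⊥ : IntermediateField K Ω) M (Finsupp.single P 1)) := by
    rw [← natCast_zsmul, ← natCast_zsmul, smul_smul, smul_smul, ← add_smul, huv, one_smul]
  rw [e]
  exact add_mem (zsmul_mem ha u) (zsmul_mem hb v)

end NE
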