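import Pool.Agent.Lib.MP_f80667_ag.Sm.Sna

/-!
Reduction to symbols with at most one entry with singular reduction, of the level of a uniformizer.
-/

open ZC BE PE Polynomial IntermediateField

namespace NE

variable {F : Type} [Field F] {K Ω : Type} [Field K] [CharZero K] [Field Ω] [Algebra K Ω]
  [Algebra F K] [Algebra F Ω] [IsScalarTower F K Ω] [IsAlgClosure K Ω]
  {ι : Type} [DecidableEq ι] {W : ι → WeierstrassCurve F} [∀ i, (W i).IsElliptic]

omit [CharZero K] [IsAlgClosure K Ω] in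
/-- A uniformizer (values) is a uniformizer (maximum). -/
private theorem snaB_uf (L : Ld K Ω) {M : IntermediateField K Ω} {π : Ω} (h : L.Un M π) :
    L.Uf M π := by
  refine ⟨h.mem, h.pos, h.lt, fun x hx hx1 => ?_⟩
  by_cases h0 : x = 0
  · rw [h0, L.zero]
    exact h.pos.le
  obtain ⟨n, hn⟩ := h.val x hx h0
  rw [hn] at hx1 ⊢
  have h5 : (0 : ℤ) < n := by
    rw [← zpow_lt_zpow_iff_right_of_lt_one₀ h.pos h.lt, zpow_zero]
    exact hx1
  calc L.nm π ^ n ≤ L.nm π ^ (1 : ℤ) :=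
        (zpow_le_zpow_iff_right_of_lt_one₀ h.pos h.lt).2 (by omega)
    _ = L.nm π := zpow_one _

omit [CharZero K] [IsAlgClosure K Ω] in
private theorem snaB_prod (L : Ld K Ω) (s : Finset (Ω ≃ₐ[K] Ω)) (x : Ω) :
    L.nm (∏ γ ∈ s, γ x) = L.nm x ^ s.card := by
  classical
  induction s using Finset.induction_on with
  | empty => rw [Finset.prod_empty, Finset.card_empty, pow_zero, L.one]
  | insert σ s hσ ih =>
    rw [Finset.prod_insert hσ, L.mul, ih, Finset.card_insert_of_notMem hσ, pow_succ, mul_comm,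
      L.act]

/-- The relative norm. -/
private theorem snaB_norm (L : Ld K Ω) {M N : IntermediateField K Ω} (hMN : M ≤ N)
    [FiniteDimensional K N] {x : Ω} (hx : x ∈ N) :
    ∃ y ∈ M, L.nm y = L.nm x ^ N.fixingSubgroup.relIndex M.fixingSubgroup := by
  classical
  obtain ⟨s, hs, hsM, hsu, -⟩ := nm_rep (K := K) (Ω := Ω) hMN
  refine ⟨∏ γ ∈ s, γ x, ?_, by rw [snaB_prod, hs]⟩
  refine mem_of_fix M fun σ hσ => ?_
  rw [map_prod]
  have hfix : ∀ {γ δ : Ω ≃ₐ[K] Ω}, δ⁻¹ * γ ∈ N.fixingSubgroup → γ x = δ x := by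
    intro γ δ h
    have h1 := (IntermediateField.mem_fixingSubgroup_iff N (δ⁻¹ * γ)).1 h x hx
    have h2 : γ x = δ ((δ⁻¹ * γ) x) := by
      change γ x = (δ * (δ⁻¹ * γ)) x
      rw [mul_inv_cancel_left]
    rw [h2, h1]
  choose! f hf hfu using fun γ hγ => hsu (σ * γ) (M.fixingSubgroup.mul_mem hσ (hsM γ hγ))
  refine Finset.prod_bij (fun γ _ => f γ) (fun γ hγ => (hf γ hγ).1) ?_ ?_ ?_
  · intro γ hγ γ' hγ' h
    have h1 := (hf γ hγ).2
    have h2 := (hf γ' hγ').2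
    change f γ = f γ' at h
    rw [h] at h1
    have h3 : γ⁻¹ * γ' ∈ N.fixingSubgroup := by
      have h4 := N.fixingSubgroup.mul_mem (N.fixingSubgroup.inv_mem h1) h2
      have h5 : ((f γ')⁻¹ * (σ * γ))⁻¹ * ((f γ')⁻¹ * (σ * γ')) = γ⁻¹ * γ' := by group
      rwa [h5] at h4
    obtain ⟨δ, -, hδ⟩ := hsu γ' (hsM γ' hγ')
    have h6 := hδ γ ⟨hγ, h3⟩
    have h7 := hδ γ' ⟨hγ', by rw [inv_mul_cancel]; exact N.fixingSubgroup.one_mem⟩
    rw [h6, h7]
  · intro δ hδ
    obtain ⟨γ, ⟨hγ, h1⟩, -⟩ := hsu (σ⁻¹ * δ)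
      (M.fixingSubgroup.mul_mem (M.fixingSubgroup.inv_mem hσ) (hsM δ hδ))
    refine ⟨γ, hγ, ?_⟩
    refine (hfu γ hγ δ ⟨hδ, ?_⟩).symm
    have h4 := N.fixingSubgroup.inv_mem h1
    have h5 : (γ⁻¹ * (σ⁻¹ * δ))⁻¹ = δ⁻¹ * (σ * γ) := by group
    rwa [h5] at h4
  · intro γ hγ
    exact hfix (hf γ hγ).2

/-- An extension of degree `4`. Proof: `exists_uf`, `exists_ram` for `l = 4` (`L.unif` gives the values of `M`): `w ^ 4 = π`, `w` is a uniformizer of `N`: for `x ∈ N`, `x ≠ 0`, the product of the `γ x` over the `4` cosets (`Nm` for the multiplicative group, or `Algebra.norm`) is in `M` and has the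
norm `nm x ^ 4` (`L.act`), a power of `nm π = nm w ^ 4`, so `nm x` is a power of `nm w`. `nm p ≤ nm π` (`p ∈ M`). -/
theorem exists_four (L : Ld K Ω) (M : IntermediateField K Ω) [FiniteDimensional K M] :
    ∃ (N : IntermediateField K Ω) (π w : Ω), M ≤ N ∧ FiniteDimensional K N ∧ L.Un M π ∧
      L.Uf M π ∧ L.Uf N w ∧ w ^ 4 = π ∧ N.fixingSubgroup.relIndex M.fixingSubgroup = 4 ∧
      L.nm (L.p : Ω) < L.nm w ^ 2 := by
  obtain ⟨π, hπ, p0, p1, hv⟩ := L.unif M inferInstance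
  have hUn : L.Un M π := ⟨hπ, p0, p1, hv⟩
  have hUf := snaB_uf L hUn
  obtain ⟨N, w, hMN, hN, hwN, hwl, hdeg⟩ :=
    L.exists_ram M (l := 4) (by norm_num) hπ p0 p1 hv
  have hw : L.nm w ^ 4 = L.nm π := by rw [← L.pow, hwl]
  have w0 : 0 < L.nm w := by
    refine lt_of_le_of_ne (L.nonneg w) fun h => ?_
    rw [← h, zero_pow (by norm_num)] at hw
    exact absurd hw p0.ne
  have w1 : L.nm w < 1 := by
    by_contra h
    have h1 := one_le_pow₀ (not_lt.1 h) (n := 4)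
    rw [hw] at h1
    exact absurd p1 (not_lt.2 h1)
  have hval : ∀ x ∈ N, x ≠ 0 → ∃ n : ℤ, L.nm x = L.nm w ^ n := by
    intro x hx hx0
    obtain ⟨y, hy, hyx⟩ := snaB_norm L hMN hx
    rw [hdeg] at hyx
    have hy0 : y ≠ 0 := by
      rintro rfl
      rw [L.zero] at hyx
      exact (pow_pos (L.pos hx0) 4).ne hyx
    obtain ⟨n, hn⟩ := hv y hy hy0
    refine ⟨n, ?_⟩
    have h1 : L.nm x ^ 4 = (L.nm w ^ n) ^ 4 := by
      rw [← hyx, hn, ← hw, ← zpow_natCast, ← zpow_natCast, ← zpow_mul, ← zpow_mul, mul_comm]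
    exact (pow_left_inj₀ (L.nonneg _) (zpow_nonneg w0.le n) (by norm_num)).1 h1
  refine ⟨N, π, w, hMN, hN, hUn, hUf, snaB_uf L ⟨hwN, w0, w1, hval⟩, hwl, hdeg, ?_⟩
  have h1 : L.nm (L.p : Ω) ≤ L.nm π := hUf.max _ (IntermediateField.natCast_mem M L.p) L.lt
  refine h1.trans_lt ?_
  rw [← hw]
  exact pow_lt_pow_right_of_lt_one₀ w0 w1 (by norm_num)

/-- **The level.** The hypothesis `H`: the entries have nonsingular reduction, except the entry `i₁`, which may be of level `nm π`, `π` a uniformizer of `M`. Proof: `exists_four`: `N`, `w`; `z_cop` (`4` is prime to `l`): the symbol over `N`. If `x i₁` has nonsingular reduction: `H`.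
Otherwise `W i₁` has split multiplicative reduction (`ns_good`), `Nk`: `x₀, y₀, α, β`; `la_or`: `La (nm v) (± x i₁)`, `v ∈ M`, `nm v = nm π ^ j` (`Un.val`), `j ≥ 1` (`La`: `nm v < 1`). `la_ex` over `N`:
`P*` with `La (nm w) P*` (`la_half`: `nm f₀ ≤ nm v ^ 2 ≤ nm w ^ 2`); `la_nsmul`: `La (nm v) ((4 j) P*)` (`nm v = nm w ^ (4 j)`, `la_half`); `la_ns`: `± x i₁ - (4 j) P*` has nonsingular reduction. So `x i₁ = ± (4 j) P* + P₀`: `z_add`, `z_zsmul`, `H` for the
entries `P*` and `P₀`. -/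
theorem sn_lev (L : Ld K Ω) [Nonempty ι] (hW : ∀ i, L.Gs (W i)) {l : ℕ} (hl : l.Prime)
    (h2 : l ≠ 2) {G : Type} [AddCommGroup G] (S : Sn ι K Ω (fun i => Pt (W i) Ω) G) (i₁ : ι)
    (H : ∀ (M : IntermediateField K Ω) (π : Ω) (x : ∀ i, Pt (W i) Ω), FiniteDimensional K M →
      L.Uf M π → L.nm (L.p : Ω) < L.nm π ^ 2 → (∀ i, Fx M (x i)) → (∀ i, i ≠ i₁ → L.Ns (x i)) →
      (L.Ns (x i₁) ∨ ∃ x₀ y₀ α β : Ω, L.Md (W i₁) ∧ L.Nk (W i₁) x₀ y₀ α β ∧
        L.La (W i₁) x₀ y₀ α β (L.nm π) (x i₁)) → S.Z l M x)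
    (M : IntermediateField K Ω) (x : ∀ i, Pt (W i) Ω) (hM : FiniteDimensional K M)
    (hx : ∀ i, Fx M (x i)) (hs : ∀ i, i ≠ i₁ → L.Ns (x i)) : S.Z l M x := by
  obtain ⟨N, π, w, hMN, hN, hUn, hUf, hUw, hwl, hdeg, hlt⟩ := exists_four L M
  have hcop : (N.fixingSubgroup.relIndex M.fixingSubgroup).Coprime l := by
    rw [hdeg]
    have h3 : Nat.Coprime 2 l := (Nat.coprime_primes Nat.prime_two hl).2 (Ne.symm h2)
    exact Nat.Coprime.mul_left h3 h3
  refine Sn.z_cop hMN hx hcop ?_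
  have hxN : ∀ i, Fx N (x i) := fun i => (hx i).mono hMN
  by_cases hns : L.Ns (x i₁)
  · exact H N w x hN hUw hlt hxN hs (Or.inl hns)
  have hm : L.Ms (W i₁) := (hW i₁).resolve_left fun h => hns (Ld.ns_good h _)
  obtain ⟨x₀, y₀, α, β, hc⟩ := hm.sp
  obtain ⟨v, hv, hor⟩ := Ld.la_or hm.toMd hc hns M (hx i₁)
  have hx' : ∀ j, j ≠ i₁ → Fx N (x j) := fun j _ => hxN j
  -- the statement for a point of the level of `v`
  have key : ∀ P : Pt (W i₁) Ω, Fx N P → L.La (W i₁) x₀ y₀ α β (L.nm v) P →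
      S.Z l N (Function.update x i₁ P) := by
    intro P hP hla
    have hv0 : 0 < L.nm v := Ld.la_pos hc.toNc hla
    have hv1 : L.nm v < 1 := by
      obtain ⟨a, b, hab, h1, h2, h3, h4⟩ := hla
      exact h3
    obtain ⟨n, hn⟩ := hUn.val v hv (L.ne_zero hv0)
    have hn0 : (0 : ℤ) < n := by
      rw [hn] at hv1
      rw [← zpow_lt_zpow_iff_right_of_lt_one₀ hUn.pos hUn.lt, zpow_zero]
      exact hv1
    obtain ⟨j, rfl⟩ := Int.eq_ofNat_of_zero_le hn0.le
    have hj : j ≠ 0 := by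
      rintro rfl
      exact absurd hn0 (lt_irrefl _)
    have hw : L.nm w ^ 4 = L.nm π := by rw [← L.pow, hwl]
    have hvw : L.nm v = L.nm w ^ (4 * j) := by
      rw [hn, pow_mul, hw]
      exact zpow_natCast _ _
    have hf := Ld.la_half hc.toNc hla
    have hle : L.nm v ≤ L.nm w := by
      rw [hvw]
      exact pow_le_of_le_one hUw.pos.le hUw.lt.le (by omega)
    obtain ⟨Q, hQ, hlQ⟩ := Ld.la_ex hm.toMd hc N hUw.mem (L.ne_zero hUw.pos) hUw.lt
      (hf.trans (pow_le_pow_left₀ hv0.le hle 2))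
    have hms := Ld.la_nsmul hm.toMd hc.toNc hlQ (n := 4 * j) (by omega)
      (by rw [← hvw]; exact hf)
    rw [← hvw] at hms
    have hns' : L.Ns (P - (4 * j) • Q) := Ld.la_ns hm.toMd hc.toNc hla hms
    have hQn : Fx N ((4 * j) • Q) := hQ.nsmul _
    have hP0 : Fx N (P - (4 * j) • Q) := by
      rw [sub_eq_add_neg]
      exact hP.add hQn.neg
    have hup : ∀ R : Pt (W i₁) Ω, Fx N R → ∀ i, Fx N (Function.update x i₁ R i) := by
      intro R hR i
      by_cases hi : i = i₁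
      · subst hi
        rw [Function.update_self]
        exact hR
      · rw [Function.update_of_ne hi]
        exact hxN i
    have hus : ∀ (R : Pt (W i₁) Ω) (i : ι), i ≠ i₁ → L.Ns (Function.update x i₁ R i) := by
      intro R i hi
      rw [Function.update_of_ne hi]
      exact hs i hi
    have z1 : S.Z l N (Function.update x i₁ (P - (4 * j) • Q)) := by
      refine H N w _ hN hUw hlt (hup _ hP0) (hus _) (Or.inl ?_)
      rw [Function.update_self]
      exact hns'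
    have z2 : S.Z l N (Function.update x i₁ Q) := by
      refine H N w _ hN hUw hlt (hup _ hQ) (hus _) (Or.inr ⟨x₀, y₀, α, β, hm.toMd, hc, ?_⟩)
      rw [Function.update_self]
      exact hlQ
    have z3 := Sn.z_zsmul hx' hQ z2 ((4 * j : ℕ) : ℤ)
    rw [natCast_zsmul] at z3
    have z4 := Sn.z_add hx' hP0 hQn z1 z3
    rwa [sub_add_cancel] at z4
  rcases hor with hla | hla
  · have h1 := key (x i₁) (hxN i₁) hla
    rwa [Function.update_eq_self] at h1
  · have h1 := Sn.z_neg hx' (hxN i₁).neg (key (-x i₁) (hxN i₁).neg hla)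
    rw [neg_neg, Function.update_eq_self] at h1
    exact h1

end NE
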