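import Pool.Agent.Lib.MP_f80667_ag.Sm.Fl
import Pool.Agent.Lib.MP_f80667_ag.Sm.Fib
import Pool.Agent.Lib.MP_f80667_ag.Sm.SnaB
import Pool.Agent.Lib.MP_f80667_ag.Sm.Gen
import Pool.Agent.Lib.MP_f80667_ag.Kf.TpD

/-!
The local theorem at `l = p` for curves with good or split multiplicative reduction.
-/

open ZC BE PE Polynomial IntermediateField CV

namespace NE

variable {F : Type} [Field F] {n : ℕ} {W : Fin n → WeierstrassCurve F} [∀ i, (W i).IsElliptic]
  {K Ω : Type} [Field K] [Field Ω] [Algebra K Ω] [Algebra F K] [Algebra F Ω]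
  [IsScalarTower F K Ω] [CharZero K] [IsAlgClosure K Ω]

/-- Subfields of the unramified extensions are finite. -/
private theorem lc_fin (L : Ld K Ω) {N : ℕ} (hN : N ≠ 0) {M : IntermediateField K Ω}
    (hM : M ≤ L.Ur ⊥ N) : FiniteDimensional K M := by
  have hU : FiniteDimensional K (L.Ur ⊥ N) := Ld.ur_fin ⊥ N hN
  exact fin_le hM

omit [∀ i, (W i).IsElliptic] in
/-- The norm of an integral combination. -/
private theorem lc_nm {M : IntermediateField K Ω} [FiniteDimensional K M] {ι : Type}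
    (s : Finset ι) (c : ι → ℤ) (f : ι → ((Xn W).pt Ω →₀ ℤ)) :
    Nm (⊥ : IntermediateField K Ω) M (∑ i ∈ s, c i • f i) =
      ∑ i ∈ s, c i • Nm (⊥ : IntermediateField K Ω) M (f i) := by
  obtain ⟨t, -, -, -, h3⟩ := nm_rep (M := (⊥ : IntermediateField K Ω)) (N := M) bot_le
  have e : ∀ i ∈ s, c i • Nm (⊥ : IntermediateField K Ω) M (f i) = ∑ γ ∈ t, c i • γ • f i :=
    fun i _ => by rw [h3 _ (f i), Finset.smul_sum]
  rw [h3, Finset.sum_congr rfl e, Finset.sum_comm]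
  refine Finset.sum_congr rfl fun γ _ => ?_
  rw [Finset.smul_sum]
  exact Finset.sum_congr rfl fun i _ => smul_comm γ (c i) (f i)

omit [∀ i, (W i).IsElliptic] in
/-- The cycles of unramified points are invariant. -/
private theorem lc_uv (L : Ld K Ω) {u : (Xn W).pt Ω →₀ ℤ} (hu : u ∈ Uv L (Xn W)) :
    u ∈ (Xn W).cyc K Ω := by
  refine (AddSubgroup.closure_le _).2 ?_ hu
  rintro _ ⟨N, M, y, hN, hM, hy, rfl⟩
  have hf : FiniteDimensional K M := lc_fin L hN hM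
  intro γ
  refine nm_fx (M := (⊥ : IntermediateField K Ω)) (N := M) bot_le (fx_single hy 1) γ ?_
  rw [IntermediateField.fixingSubgroup_bot]
  trivial

omit [IsScalarTower F K Ω] in
/-- Principal cycles have degree `0`. -/
private theorem ratEq_deg' (V : Vr F) {z : V.pt Ω →₀ ℤ} (hz : z ∈ V.ratEq K Ω) :
    V.deg Ω z = 0 := by
  have := IsAlgClosure.isAlgClosed (R := K) (K := Ω)
  exact tpD_main V hz

omit [∀ i, (W i).IsElliptic] in
/-- The points `xt x T` are good. -/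
private theorem lc_gp {L : Ld K Ω} (hW : ∀ i, L.Gs (W i)) {M : IntermediateField K Ω} {π : Ω}
    {x : (Xn W).pt Ω} (hx : Gp L W M π x) (T : Finset (Fin n)) : Gp L W M π (xt x T) := by
  have h1 : ∀ i, i ∈ T → cx (xt x T) i = cx x i := fun i hi => if_pos hi
  have h0 : ∀ i, i ∉ T → cx (xt x T) i = (0 : Pt (W i) Ω) := fun i hi => if_neg hi
  have hn : ∀ i, i ∉ T → L.Ns (cx (xt x T) i) := fun i hi => by
    rw [h0 i hi]
    exact Ld.ns_fm (hW i).it Ld.fm_zero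
  refine ⟨hx.uf, hx.lv, fun γ hγ => funext fun i => ?_, fun i => ?_, fun i j hij => ?_⟩
  · change (Ev (W i)).act γ (xt x T i) = xt x T i
    by_cases h : i ∈ T
    · have e : xt x T i = x i := if_pos h
      rw [e]
      exact congrFun (hx.fp γ hγ) i
    · have e : xt x T i = (0 : Pt (W i) Ω) := if_neg h
      rw [e]
      exact (smul_zero γ : γ • (0 : Pt (W i) Ω) = 0)
  · by_cases h : i ∈ T
    · rw [h1 i h]
      exact hx.sg i
    · exact Or.inl (hn i h)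
  · by_cases h : i ∈ T
    · by_cases h' : j ∈ T
      · rw [h1 i h, h1 j h']
        exact hx.one i j hij
      · exact Or.inr (hn j h')
    · exact Or.inl (hn i h)

omit [∀ i, (W i).IsElliptic] in
/-- The points `ex S x` are good. -/
private theorem lc_ex {L : Ld K Ω} (hW : ∀ i, L.Gs (W i)) {S : Finset (Fin n)}
    {M : IntermediateField K Ω} {π : Ω} {x : ∀ i : {i // i ∈ S}, Pt (W i) Ω} {i₁ : {i // i ∈ S}}
    (hu : L.Uf M π) (hl : L.nm (L.p : Ω) < L.nm π ^ 2) (hx : ∀ i, Fx M (x i))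
    (hs : ∀ i, i ≠ i₁ → L.Ns (x i))
    (hs1 : L.Ns (x i₁) ∨ ∃ x₀ y₀ α β : Ω, L.Md (W i₁) ∧ L.Nk (W i₁) x₀ y₀ α β ∧
      L.La (W i₁) x₀ y₀ α β (L.nm π) (x i₁)) : Gp L W M π (ex S x) := by
  have h1 : ∀ (i : Fin n) (h : i ∈ S), cx (ex S x) i = x ⟨i, h⟩ := fun i h => dif_pos h
  have h0 : ∀ i, i ∉ S → L.Ns (cx (ex S x) i) := fun i hi => by
    have e : cx (ex S x) i = (0 : Pt (W i) Ω) := dif_neg hi
    rw [e]
    exact Ld.ns_fm (hW i).it Ld.fm_zero
  have h2 : ∀ i : Fin n, i ≠ i₁ → L.Ns (cx (ex S x) i) := fun i hi => by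
    by_cases h : i ∈ S
    · rw [h1 i h]
      exact hs ⟨i, h⟩ fun e => hi (congrArg Subtype.val e)
    · exact h0 i h
  refine ⟨hu, hl, fun γ hγ => funext fun i => ?_, fun i => ?_, fun i j hij => ?_⟩
  · change (Ev (W i)).act γ (ex S x i) = ex S x i
    by_cases h : i ∈ S
    · have e : ex S x i = x ⟨i, h⟩ := dif_pos h
      rw [e]
      exact hx ⟨i, h⟩ γ hγ
    · have e : ex S x i = (0 : Pt (W i) Ω) := dif_neg h
      rw [e]
      exact (smul_zero γ : γ • (0 : Pt (W i) Ω) = 0)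
  · by_cases h : i = i₁
    · subst h
      rw [h1 _ i₁.2]
      exact hs1
    · exact Or.inl (h2 i h)
  · by_cases h : i = i₁
    · exact Or.inr (h2 j fun e => hij (h.trans e.symm))
    · exact Or.inl (h2 i h)

/-- Unramified symbols. Proof: `exists_sn`, `sn_un` (the index set is nontrivial: `2 ≤ S.card`, as in `loc_lp`, `Nf/SngB.lean`), `fl_z`, `tht_congr` (`tht S (ex S x) = tht S x`). -/
theorem un_fl (L : Ld K Ω) [L.Unr] (h2 : L.p ≠ 2) (hW : ∀ i, L.Gs (W i))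
    (hj : ∀ i, L.Jc L.p (W i)) {S : Finset (Fin n)} (hS : 2 ≤ S.card) {N : ℕ} (hN : N ≠ 0)
    {M : IntermediateField K Ω} (hM : M ≤ L.Ur ⊥ N) {x : (Xn W).pt Ω} (hx : Fp (Xn W) M x) :
    Nm (⊥ : IntermediateField K Ω) M (tht S x : (Xn W).pt Ω →₀ ℤ) ∈ Fl W K Ω L.p := by
  have hn : Nontrivial {i // i ∈ S} := by
    obtain ⟨a, ha, b, hb, hab⟩ := Finset.one_lt_card.1 (show 1 < S.card by omega)
    exact ⟨⟨⟨a, ha⟩, ⟨b, hb⟩, fun h => hab (congrArg Subtype.val h)⟩⟩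
  have hf : FiniteDimensional K M := lc_fin L hN hM
  obtain ⟨Y, hY⟩ := exists_sn (W := W) (K := K) (Ω := Ω) S
  have h := sn_un L (ι := {i // i ∈ S}) (W := fun i => W i) h2 (fun i => hW i) (fun i => hj i) Y
    hN M hM (fun i => x i) hf (fun i γ hγ => congrFun (hx γ hγ) i)
  have h3 := fl_z hS Y hY h
  have e2 : tht S (ex S fun i : {i // i ∈ S} => (x i : Pt (W i) Ω)) = tht S x :=
    tht_congr fun i hi => dif_pos hi
  rwa [e2] at h3

/-- The cycles of unramified points. Proof: `tht_genS` for the set of the pairs `(M, x)` with `M ≤ Ur ⊥ N`, `N ≠ 0` (`ur_fin`, `fin_le`: `M` is finite over `K`); `un_fl`, `fl_rat`. -/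
theorem uv_fl (L : Ld K Ω) [L.Unr] (h2 : L.p ≠ 2) (hW : ∀ i, L.Gs (W i))
    (hj : ∀ i, L.Jc L.p (W i)) {z : (Xn W).pt Ω →₀ ℤ} (hz : z ∈ Uv L (Xn W))
    (ha : z ∈ Ak W K Ω) : z ∈ Fl W K Ω L.p := by
  obtain ⟨w, hw, hzw⟩ := tht_genS (W := W) (K := K) (Ω := Ω)
    (fun M x => ∃ N : ℕ, N ≠ 0 ∧ M ≤ L.Ur ⊥ N ∧ Fp (Xn W) M x)
    (fun M x ⟨N, h1, h3, h4⟩ => ⟨lc_fin L h1 h3, h4⟩) (z := z)
    (AddSubgroup.closure_mono (fun z hz => by
      obtain ⟨N, M, y, hN, hM, hy, rfl⟩ := hz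
      exact ⟨M, y, ⟨N, hN, hM, hy⟩, rfl⟩) hz) ha.1 ha.2
  have h3 : w ∈ Fl W K Ω L.p := by
    refine (AddSubgroup.closure_le _).2 ?_ hw
    rintro _ ⟨S, M, x, hS, ⟨N, hN, hM, hx⟩, rfl⟩
    exact un_fl L h2 hW hj hS hN hM hx
  have e : z = w + (z - w) := by abel
  rw [e]
  exact add_mem h3 (fl_rat hzw)

/-- Good symbols. Proof: `tht S x` is the sum over the subsets `T` of `S` of `± [xt x T]`, and `xt x T` is again a good point (`Gp`; `0` has nonsingular reduction: `ns_fm`, `fm_zero`): `gen_lv` (the norm is additive: `nm_add`, as in `Nf/Sng.lean`). So the norm is `r + u` with `r ∈ ratEq`,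
`u ∈ Uv`; `r = Nm - u` is invariant (`Uv`: norms are invariant, `nm_fx`) and has degree `0` (an element of `ratEq`), its push-forwards are in `ratEq` (`Mo.ratEq` for `pr i`), so `r ∈ Ak` and `u ∈ Ak` (`tht_alb`): `uv_fl`, `fl_rat`. -/
theorem gp_fl (L : Ld K Ω) [L.Unr] (h2 : L.p ≠ 2) (hW : ∀ i, L.Gs (W i))
    (hj : ∀ i, L.Jc L.p (W i)) {S : Finset (Fin n)} (hS : 2 ≤ S.card)
    {M : IntermediateField K Ω} {π : Ω} (hf : FiniteDimensional K M) {x : (Xn W).pt Ω}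
    (hx : Gp L W M π x) :
    Nm (⊥ : IntermediateField K Ω) M (tht S x : (Xn W).pt Ω →₀ ℤ) ∈ Fl W K Ω L.p := by
  have hz := tht_alb hS M hx.fp
  have hm : Nm (⊥ : IntermediateField K Ω) M (tht S x : (Xn W).pt Ω →₀ ℤ) ∈
      (Xn W).ratEq K Ω ⊔ Uv L (Xn W) := by
    rw [tht, lc_nm]
    exact sum_mem fun T _ => zsmul_mem (gen_lv h2 (fun i => (hW i).it) hf (lc_gp hW hx T)) _
  obtain ⟨r, hr, u, hu, e⟩ := AddSubgroup.mem_sup.1 hm
  have hc : u ∈ (Xn W).cyc K Ω := lc_uv L hu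
  have hrA : r ∈ Ak W K Ω := by
    refine ⟨⟨?_, ratEq_deg' _ hr⟩, fun i => (pr (V := fun i => Ev (W i)) i).ratEq K Ω hr⟩
    have e2 : r = Nm (⊥ : IntermediateField K Ω) M (tht S x : (Xn W).pt Ω →₀ ℤ) - u := by
      rw [← e]; abel
    rw [e2]
    exact AddSubgroup.sub_mem _ hz.1.1 hc
  have huA : u ∈ Ak W K Ω := by
    have e2 : u = Nm (⊥ : IntermediateField K Ω) M (tht S x : (Xn W).pt Ω →₀ ℤ) - r := by
      rw [← e]; abel
    rw [e2]
    exact sub_mem (mem_ak.2 hz) hrA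
  rw [← e]
  exact add_mem (fl_rat hr) (uv_fl L h2 hW hj hu huA)

/-- **The local theorem, split case.** Proof: `dvG_fl`, `tht_gen`: it is enough that all symbols are in `Fl` (then use `fl_rat`, closure induction). `exists_snF`, `fl_comp`: all symbols of `Y` are multiples of `L.p`: `sn_sing`, `sn_lev` (for the index set `S` of the curves `W i`; the
hypothesis of `sn_lev` gives `Gp` for the point `ex S x`, whose entries outside `S` are `0`), `gp_fl`. -/
theorem loc_gs (L : Ld K Ω) [L.Unr] (h2 : L.p ≠ 2) (hW : ∀ i, L.Gs (W i))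
    (hj : ∀ i, L.Jc L.p (W i)) : DvG (fun i => Ev (W i)) K Ω L.p := by
  refine dvG_fl fun z hz => ?_
  obtain ⟨w, hw, hzw⟩ := tht_gen (W := W) (K := K) (Ω := Ω) hz.1 hz.2
  have h3 : w ∈ Fl W K Ω L.p := by
    refine (AddSubgroup.closure_le _).2 ?_ hw
    rintro _ ⟨S, M, x, hS, hM, hx, rfl⟩
    obtain ⟨Y, hY⟩ := exists_snF (W := W) (K := K) (Ω := Ω) S L.p
    have hn : Nonempty {i // i ∈ S} := by
      obtain ⟨a, ha⟩ := Finset.card_pos.1 (show 0 < S.card by omega)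
      exact ⟨⟨a, ha⟩⟩
    have key : Y.Z L.p M (fun i => x i) := by
      refine sn_sing L (ι := {i // i ∈ S}) (W := fun i => W i) (fun i => hW i) L.pp Y ?_ M _ hM
        fun i γ hγ => congrFun (hx γ hγ) i
      intro M x i₁ hM hx hs
      refine sn_lev L (ι := {i // i ∈ S}) (W := fun i => W i) (fun i => hW i) L.pp h2 Y i₁ ?_ M x
        hM hx hs
      intro M π x hM hu hl hx hs hs1
      exact (fl_comp hS Y hY).2 (gp_fl L h2 hW hj hS hM (lc_ex hW hu hl hx hs hs1))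
    have h4 := (fl_comp hS Y hY).1 key
    have e2 : tht S (ex S fun i : {i // i ∈ S} => (x i : Pt (W i) Ω)) = tht S x :=
      tht_congr fun i hi => dif_pos hi
    rwa [e2] at h4
  have e : z = w + (z - w) := by abel
  rw [e]
  exact add_mem h3 (fl_rat hzw)

end NE
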