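import Pool.Agent.Lib.MP_f80667_ag.Nf.Df
import Pool.Agent.Lib.MP_f80667_ag.Pe.Tm
import Pool.Agent.Lib.MP_f80667_ag.Pe.Pha

/-!
The points of the level of a uniformizer: definitions.

* `Sl L W π x y`: `(x, y)` reduces to the node, `x₀` is a coordinate of the node over `K`, `nm (x - x₀) = nm π`, and `nm (dy W z η) = nm (z - x₀)` for all points `(z, η)` near the node with `nm p < nm (z - x₀) ^ 2`.
* `Go`: `n` points over `M` with integral coordinates; for all but at most one `dy` is a unit, the last one satisfies `Sl`; `π` is a uniformizer of `M` and `nm p < nm π ^ 2`.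
-/

open ZC BE PE Polynomial IntermediateField CV GM

namespace NE

variable {F : Type} [Field F] {K Ω : Type} [Field K] [Field Ω] [Algebra K Ω] [Algebra F K]
  [Algebra F Ω] [IsScalarTower F K Ω]

/-- A point of the level of `π`. -/
def Sl (L : Ld K Ω) (W : WeierstrassCurve F) (π x y : Ω) : Prop :=
  L.nm (dy W x y) < 1 ∧ ∃ x₀ ∈ (⊥ : IntermediateField K Ω), L.nm x₀ ≤ 1 ∧
    L.nm (x - x₀) = L.nm π ∧ ∀ z η : Ω, fe W z η = 0 → L.nm (z - x₀) < 1 →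
      L.nm (L.p : Ω) < L.nm (z - x₀) ^ 2 → L.nm (dy W z η) = L.nm (z - x₀)

/-- The situation. -/
structure Go {n : ℕ} (L : Ld K Ω) (W : Fin n → WeierstrassCurve F) (M : IntermediateField K Ω)
    (N : ℕ) (π : Ω) (x y : Fin n → Ω) : Prop where
  rf : L.Rf M N
  uf : L.Uf M π
  lv : L.nm (L.p : Ω) < L.nm π ^ 2
  it : ∀ i, L.It (W i)
  xm : ∀ i, x i ∈ M
  ym : ∀ i, y i ∈ M
  xl : ∀ i, L.nm (x i) ≤ 1
  yl : ∀ i, L.nm (y i) ≤ 1
  eq : ∀ i, fe (W i) (x i) (y i) = 0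
  ne : ∀ i, dy (W i) (x i) (y i) ≠ 0
  sg : ∀ i, L.nm (dy (W i) (x i) (y i)) = 1 ∨ Sl L (W i) π (x i) (y i)
  one : ∀ i j, i ≠ j → L.nm (dy (W i) (x i) (y i)) = 1 ∨ L.nm (dy (W j) (x j) (y j)) = 1

variable [CharZero K] [IsAlgClosure K Ω] {L : Ld K Ω} {W : WeierstrassCurve F} {x₀ y₀ α β : Ω}

omit [CharZero K] [IsAlgClosure K Ω] [Algebra F K] [IsScalarTower F K Ω] in
private theorem nd_X (x y : Ω) :
    (α - β) * (x - x₀) = nu x₀ y₀ β x y - nu x₀ y₀ α x y := by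
  unfold nu
  ring

omit [CharZero K] [IsAlgClosure K Ω] [Algebra F K] [IsScalarTower F K Ω] in
private theorem nd_sum (hc : L.Nc W x₀ y₀ α β) (x y : Ω) :
    dy W x y = nu x₀ y₀ α x y + nu x₀ y₀ β x y := by
  have h1 := hc.dy
  have h2 := hc.add
  unfold dy at h1 ⊢
  unfold nu
  linear_combination h1 + (x - x₀) * h2

omit [CharZero K] [IsAlgClosure K Ω] [Algebra F K] [IsScalarTower F K Ω] in
private theorem nd_eq (hc : L.Nc W x₀ y₀ α β) (x y : Ω) :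
    nu x₀ y₀ α x y * nu x₀ y₀ β x y = (x - x₀) ^ 3 + fe W x y - fe W x₀ y₀ := by
  have h0 := hc.dx
  have h1 := hc.dy
  have h2 := hc.add
  have h3 := hc.mul
  unfold dx at h0
  unfold dy at h1
  unfold nu fe
  linear_combination (x - x₀) * h0 - (y - y₀) * h1 - (x - x₀) * (y - y₀) * h2 +
    (x - x₀) ^ 2 * h3

omit [CharZero K] [IsAlgClosure K Ω] [Algebra F K] [IsScalarTower F K Ω] in
/-- The derivative near the node. Proof: with `u = nu x₀ y₀ α z η`, `v = nu x₀ y₀ β z η`, `X = z - x₀`: `u v = X ^ 3 - fe W x₀ y₀` (`nc_eq`), `(α - β) X = v - u`, `dy W z η = u + v` (`phx_X`, `phx_dy` in `Pe/Ph.lean`, private: copy), so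
`dy ^ 2 = (α - β) ^ 2 X ^ 2 + 4 (X ^ 3 - f₀)`; `nm (α - β) = 1` and `nm X ^ 3 < nm X ^ 2`, `nm f₀ ≤ nm p < nm X ^ 2`. -/
theorem nd_dy (hc : L.Nc W x₀ y₀ α β) (hf : L.nm (fe W x₀ y₀) ≤ L.nm (L.p : Ω)) {z η : Ω}
    (he : fe W z η = 0) (h1 : L.nm (z - x₀) < 1) (h2 : L.nm (L.p : Ω) < L.nm (z - x₀) ^ 2) :
    L.nm (dy W z η) = L.nm (z - x₀) := by
  have hpos : 0 < L.nm (z - x₀) ^ 2 := (L.nonneg _).trans_lt h2
  have e1 := nd_X (x₀ := x₀) (y₀ := y₀) (α := α) (β := β) z η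
  have e2 := nd_sum hc z η
  have e3 := nd_eq hc z η
  rw [he, add_zero] at e3
  have e4 : dy W z η ^ 2 = ((α - β) * (z - x₀)) ^ 2 + 4 * ((z - x₀) ^ 3 - fe W x₀ y₀) := by
    rw [e2, e1, ← e3]
    ring
  have h3 : L.nm (((α - β) * (z - x₀)) ^ 2) = L.nm (z - x₀) ^ 2 := by
    rw [L.pow, L.mul, hc.ne, one_mul]
  have h4 : L.nm ((z - x₀) ^ 3 - fe W x₀ y₀) < L.nm (z - x₀) ^ 2 := by
    refine (L.sub _ _).trans_lt (max_lt ?_ (hf.trans_lt h2))
    rw [L.pow, pow_succ]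
    exact mul_lt_of_lt_one_right hpos h1
  have h5 : L.nm (4 * ((z - x₀) ^ 3 - fe W x₀ y₀)) < L.nm (z - x₀) ^ 2 := by
    rw [L.mul]
    refine lt_of_le_of_lt ?_ h4
    have h6 : L.nm (4 : Ω) ≤ 1 := by
      have := L.nat_le 4
      rwa [Nat.cast_ofNat] at this
    exact mul_le_of_le_one_left (L.nonneg _) h6
  have h6 : L.nm (dy W z η ^ 2) = L.nm (((α - β) * (z - x₀)) ^ 2) := by
    apply L.eq_of_close
    rw [e4, add_sub_cancel_left, h3]
    exact h5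
  rw [h3, L.pow] at h6
  exact (pow_left_inj₀ (L.nonneg _) (L.nonneg _) two_ne_zero).1 h6

/-- **The points of the level of `π`.** Proof: `La`: `P = (x, y)`, `nm x ≤ 1`, `nm u = nm π`, `nm v ≤ nm π` (notation as above); `nm f₀ = nm Δ ≤ nm p` (`nc_disc`; `Md.disc`, `L.Unr`, `Δ ∈ K`: `unr`). `nm X ≤ nm π` (`(α - β) X = v - u`), so
`nm (u v) ≤ max (nm π ^ 3) (nm p) < nm π ^ 2`, `nm v < nm π`, so `nm X = nm π` and `nm (dy) = nm (u + v) = nm π`. `x`, `y` integral (`y` is a root of a monic integral equation). `nd_dy`. -/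
theorem lv_sl [L.Unr] [W.IsElliptic] (h : L.Md W) (hc : L.Nk W x₀ y₀ α β) {π : Ω}
    (h0 : 0 < L.nm π) (h1 : L.nm π < 1) (hlv : L.nm (L.p : Ω) < L.nm π ^ 2) {P : Pt W Ω}
    (hP : L.La W x₀ y₀ α β (L.nm π) P) :
    ∃ (x y : Ω) (hx : (W.baseChange Ω).toAffine.Nonsingular x y), P = Pt.aff x y hx ∧
      L.nm x ≤ 1 ∧ L.nm y ≤ 1 ∧ dy W x y ≠ 0 ∧ Sl L W π x y := by
  obtain ⟨x, y, hx, e, hx1, -, hu, hv⟩ := hP
  have hy1 := (Ld.ns_aff h.toIt hx hx1).1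
  have hΔ : (algebraMap F K W.Δ) ≠ 0 :=
    (_root_.map_ne_zero _).2 (WeierstrassCurve.isUnit_Δ (W := W)).ne_zero
  -- the norm of the discriminant
  have hf : L.nm (fe W x₀ y₀) ≤ L.nm (L.p : Ω) := by
    rw [← Ld.nc_disc hc.toNc]
    obtain ⟨n, hn⟩ := L.unr _ hΔ
    rw [← IsScalarTower.algebraMap_apply] at hn
    have h2 := h.disc
    rw [hn] at h2 ⊢
    have h3 : (1 : ℤ) ≤ n := by
      by_contra hcon
      have h4 : n ≤ 0 := by omega
      exact absurd h2 (not_lt.2 (one_le_zpow_of_nonpos₀ L.p_pos L.lt.le h4))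
    calc L.nm (L.p : Ω) ^ n ≤ L.nm (L.p : Ω) ^ (1 : ℤ) :=
          zpow_le_zpow_right_of_le_one₀ L.p_pos L.lt.le h3
      _ = L.nm (L.p : Ω) := zpow_one _
  have e1 := nd_X (x₀ := x₀) (y₀ := y₀) (α := α) (β := β) x y
  have e2 := nd_sum hc.toNc x y
  have e3 := nd_eq hc.toNc x y
  rw [fe_zero hx, add_zero] at e3
  have hX : L.nm (x - x₀) ≤ L.nm π := by
    have h2 : L.nm ((α - β) * (x - x₀)) ≤ L.nm π := by
      rw [e1]
      exact (L.sub _ _).trans (max_le hv hu.le)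
    rwa [L.mul, hc.ne, one_mul] at h2
  have hv2 : L.nm (nu x₀ y₀ β x y) < L.nm π := by
    have h2 : L.nm (nu x₀ y₀ α x y * nu x₀ y₀ β x y) < L.nm π ^ 2 := by
      rw [e3]
      refine (L.sub _ _).trans_lt (max_lt ?_ (hf.trans_lt hlv))
      rw [L.pow]
      refine (pow_le_pow_left₀ (L.nonneg _) hX 3).trans_lt ?_
      rw [pow_succ]
      exact mul_lt_of_lt_one_right (pow_pos h0 2) h1
    rw [L.mul, hu, sq] at h2
    exact lt_of_mul_lt_mul_left h2 h0.le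
  have hX2 : L.nm (x - x₀) = L.nm π := by
    have h2 : L.nm ((α - β) * (x - x₀)) = L.nm (-nu x₀ y₀ α x y) := by
      apply L.eq_of_close
      rw [e1, L.neg, hu, sub_neg_eq_add, sub_add_cancel]
      exact hv2
    rwa [L.mul, hc.ne, one_mul, L.neg, hu] at h2
  have hd : L.nm (dy W x y) = L.nm π := by
    rw [← hu]
    apply L.eq_of_close
    rw [e2, add_sub_cancel_left, hu]
    exact hv2
  refine ⟨x, y, hx, e, hx1, hy1, L.ne_zero (by rw [hd]; exact h0), by rw [hd]; exact h1, x₀,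
    hc.x_mem, hc.x_le, hX2, ?_⟩
  intro z η he hz1 hz2
  exact nd_dy hc.toNc hf he hz1 hz2

end NE
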