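import Pool.Agent.Lib.MP_f80667_ag.Pe.Pha
import Pool.Agent.Lib.MP_f80667_ag.Pe.Cp
import Pool.Agent.Lib.MP_f80667_ag.Pe.Tm

/-!
The node of a curve with multiplicative reduction is rational; the slopes generate an unramified extension of degree at most two.
-/

open ZC BE PE Polynomial IntermediateField

namespace NE

variable {F : Type} [Field F] {K Ω : Type} [Field K] [CharZero K] [Field Ω] [Algebra K Ω]
  [Algebra F K] [Algebra F Ω] [IsScalarTower F K Ω] [IsAlgClosure K Ω] {L : Ld K Ω}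
  {W : WeierstrassCurve F} {x₀ y₀ α β : Ω}

omit [CharZero K] [IsAlgClosure K Ω] in
/-- Numerals are integral. -/
private theorem spl_num (n : ℕ) [n.AtLeastTwo] : L.nm (OfNat.ofNat n : Ω) ≤ 1 := by
  rw [← Nat.cast_ofNat]
  exact L.nat_le _

omit [CharZero K] [IsAlgClosure K Ω] in
/-- The equation and its derivatives at the conjugate point. -/
private theorem spl_act (γ : Ω ≃ₐ[K] Ω) (x y : Ω) : dx W (γ x) (γ y) = γ (dx W x y) ∧
    dy W (γ x) (γ y) = γ (dy W x y) ∧ fe W (γ x) (γ y) = γ (fe W x y) := by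
  have h : ∀ c : F, γ (algebraMap F Ω c) = algebraMap F Ω c := fun c => by
    rw [IsScalarTower.algebraMap_apply F K Ω, AlgEquiv.commutes]
  refine ⟨?_, ?_, ?_⟩
  · unfold dx
    simp only [map_add, map_sub, map_mul, map_pow, map_ofNat, h]
  · unfold dy
    simp only [map_add, map_mul, map_ofNat, h]
  · unfold fe
    simp only [map_add, map_sub, map_mul, map_pow, h]

omit [CharZero K] [IsAlgClosure K Ω] in
private theorem spl_mem (c : F) : algebraMap F Ω c ∈ (⊥ : IntermediateField K Ω) := by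
  rw [IsScalarTower.algebraMap_apply F K Ω]
  exact IntermediateField.algebraMap_mem _ _

/-- The difference of the coordinates. -/
private theorem spl_X (x y : Ω) :
    (α - β) * (x - x₀) = nu x₀ y₀ β x y - nu x₀ y₀ α x y := by
  unfold nu
  ring

omit [CharZero K] [Algebra F K] [IsScalarTower F K Ω] [IsAlgClosure K Ω] in
private theorem spl_dy (hc : L.Nc W x₀ y₀ α β) (x y : Ω) :
    dy W x y = nu x₀ y₀ α x y + nu x₀ y₀ β x y := by
  have h1 := hc.dy
  have h2 := hc.add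
  unfold dy at h1 ⊢
  unfold nu
  linear_combination h1 + (x - x₀) * h2

omit [CharZero K] [Algebra F K] [IsScalarTower F K Ω] [IsAlgClosure K Ω] in
private theorem spl_dx (hc : L.Nc W x₀ y₀ α β) (x y : Ω) :
    dx W x y = α * dy W x y + 3 * (x - x₀) ^ 2 - (α - β) * nu x₀ y₀ α x y := by
  have h0 := hc.dx
  have h1 := hc.dy
  have h2 := hc.add
  have h3 := hc.mul
  unfold dy at h1 ⊢
  unfold dx at h0 ⊢
  unfold nu
  linear_combination h0 - α * h1 - (y - y₀ + α * (x - x₀)) * h2 + 2 * (x - x₀) * h3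

/-- The degree of the adjunction of a root of a quadratic polynomial. -/
private theorem spl_deg {N : IntermediateField K Ω} [FiniteDimensional K N] {f : Polynomial Ω}
    (hf : f ≠ 0) (hd : f.natDegree ≤ 2) (hc : ∀ i, f.coeff i ∈ N) {x : Ω} (hx : f.eval x = 0) :
    (N ⊔ K⟮x⟯).fixingSubgroup.relIndex N.fixingSubgroup ≠ 0 ∧
      (N ⊔ K⟮x⟯).fixingSubgroup.relIndex N.fixingSubgroup ≤ 2 := by
  have hal : Algebra.IsAlgebraic K Ω := IsAlgClosure.isAlgebraic
  have hxi : IsIntegral K x := (Algebra.IsAlgebraic.isAlgebraic x).isIntegral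
  have hfx : FiniteDimensional K K⟮x⟯ := IntermediateField.adjoin.finiteDimensional hxi
  have hfs : FiniteDimensional K (N ⊔ K⟮x⟯ : IntermediateField K Ω) :=
    IntermediateField.finiteDimensional_sup N K⟮x⟯
  have h1 := relIndex_fix (M := N) (N := N ⊔ K⟮x⟯) le_sup_left
  have hN : 0 < Module.finrank K N := Module.finrank_pos
  have hS : 0 < Module.finrank K (N ⊔ K⟮x⟯ : IntermediateField K Ω) := Module.finrank_pos
  have hxN : IsIntegral N x := hxi.tower_top
  obtain ⟨g, hg⟩ : ∃ g : Polynomial N, g.map (algebraMap N Ω) = f := by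
    have h2 : f ∈ Polynomial.lifts (algebraMap N Ω) := by
      rw [Polynomial.lifts_iff_coeff_lifts]
      intro n
      exact ⟨⟨f.coeff n, hc n⟩, rfl⟩
    exact (Polynomial.mem_lifts f).1 h2
  have hg0 : g ≠ 0 := by
    rintro rfl
    rw [Polynomial.map_zero] at hg
    exact hf hg.symm
  have hgx : Polynomial.aeval x g = 0 := by
    rw [Polynomial.aeval_def, ← Polynomial.eval_map, hg, hx]
  have hdg : g.natDegree ≤ 2 := by
    rw [← Polynomial.natDegree_map (algebraMap N Ω), hg]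
    exact hd
  have h3 : (minpoly N x).natDegree ≤ 2 :=
    (Polynomial.natDegree_le_natDegree (minpoly.degree_le_of_ne_zero N x hg0 hgx)).trans hdg
  have h4 : Module.finrank K (N ⊔ K⟮x⟯ : IntermediateField K Ω) =
      Module.finrank K N * (minpoly N x).natDegree := by
    have h5 : (N ⊔ K⟮x⟯ : IntermediateField K Ω) = (N⟮x⟯).restrictScalars K :=
      (IntermediateField.restrictScalars_adjoin_eq_sup K N {x}).symm
    rw [h5, ← IntermediateField.adjoin.finrank hxN]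
    exact (Module.finrank_mul_finrank K N N⟮x⟯).symm
  have h6 : (N ⊔ K⟮x⟯).fixingSubgroup.relIndex N.fixingSubgroup = (minpoly N x).natDegree := by
    rw [h4, mul_comm] at h1
    exact Nat.eq_of_mul_eq_mul_left hN h1
  rw [h6]
  exact ⟨(minpoly.natDegree_pos hxN).ne', h3⟩

/-- **The node is rational.** Proof: `x₀` is algebraic over `K`; let `γ ∈ Gal(Ω/K)`, `x₁ = γ x₀`, `y₁ = γ y₀`: again `dx = dy = 0` and `nm (fe) < 1` (`L.act`). Let `X = x₁ - x₀`, `u = nu x₀ y₀ α x₁ y₁`, `v = nu x₀ y₀ β x₁ y₁`: `u + v = dy = 0`, `(α - β) X = v - u`, so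
`2 u = - (α - β) X`, and `dx W x₁ y₁ = α dy + 3 X ^ 2 - (α - β) u` (`phx_dx` in `Pe/Ph.lean`), so `3 X ^ 2 = (α - β) u`; if `X ≠ 0`: `6 X = - (α - β) ^ 2`, so `nm X ≥ 1` (`nm 6 ≤ 1`), and by `nc_eq` `fe W x₁ y₁ - f₀ = u v - X ^ 3 = - u ^ 2 - X ^ 3`, `12 (u ^ 2 + X ^ 3) = X ^ 2 (α - β) ^ 2`
(up to checking: `4 u ^ 2 = (α - β) ^ 2 X ^ 2`, `6 X ^ 3 = - (α - β) ^ 2 X ^ 2`), so its norm is `≥ nm X ^ 2 ≥ 1`, a contradiction. So `x₀` is fixed by all `γ` and `x₀ ∈ ⊥`; `y₀ = - (a₁ x₀ + a₃) / 2`. -/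
theorem nc_bot (hc : L.Nc W x₀ y₀ α β) :
    x₀ ∈ (⊥ : IntermediateField K Ω) ∧ y₀ ∈ (⊥ : IntermediateField K Ω) := by
  have hac : IsAlgClosed Ω := IsAlgClosure.isAlgClosed K
  have hcz : CharZero Ω := charZero_of_injective_algebraMap (algebraMap K Ω).injective
  have hx : x₀ ∈ (⊥ : IntermediateField K Ω) := by
    refine mem_of_fix ⊥ fun γ _ => ?_
    by_contra hne
    have hX : γ x₀ - x₀ ≠ 0 := sub_ne_zero.2 hne
    obtain ⟨h0, h1, h2⟩ := spl_act (K := K) (W := W) γ x₀ y₀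
    have hdx : dx W (γ x₀) (γ y₀) = 0 := by rw [h0, hc.dx, map_zero]
    have hdy : dy W (γ x₀) (γ y₀) = 0 := by rw [h1, hc.dy, map_zero]
    have hfe : L.nm (fe W (γ x₀) (γ y₀)) < 1 := by
      rw [h2, L.act]
      exact hc.fe
    obtain ⟨X, hXd⟩ : ∃ X, X = γ x₀ - x₀ := ⟨_, rfl⟩
    obtain ⟨u, hu⟩ : ∃ u, u = nu x₀ y₀ α (γ x₀) (γ y₀) := ⟨_, rfl⟩
    obtain ⟨v, hv⟩ : ∃ v, v = nu x₀ y₀ β (γ x₀) (γ y₀) := ⟨_, rfl⟩
    have e1 : (α - β) * X = v - u := by
      rw [hXd, hu, hv]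
      exact spl_X _ _
    have e2 : u + v = 0 := by
      rw [hu, hv, ← spl_dy hc, hdy]
    have e3 : 3 * X ^ 2 = (α - β) * u := by
      have h3 := spl_dx hc (γ x₀) (γ y₀)
      rw [hdx, hdy, mul_zero, zero_add, ← hu, ← hXd] at h3
      linear_combination -h3
    have e4 : u * v = X ^ 3 + fe W (γ x₀) (γ y₀) - fe W x₀ y₀ := by
      rw [hu, hv, hXd]
      exact Ld.nc_eq hc _ _
    rw [← hXd] at hX
    have e5 : 6 * X = -(α - β) ^ 2 := by
      refine mul_left_cancel₀ hX ?_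
      linear_combination 2 * e3 + (α - β) * e1 + (α - β) * e2
    have e6 : 1 ≤ L.nm X := by
      have h3 := congrArg L.nm e5
      rw [L.neg, L.pow, hc.ne, one_pow, L.mul] at h3
      rw [← h3]
      exact mul_le_of_le_one_left (L.nonneg _) (spl_num 6)
    have e7 : -(12 * (fe W (γ x₀) (γ y₀) - fe W x₀ y₀)) = (X * (α - β)) ^ 2 := by
      linear_combination 12 * e4 + 2 * X ^ 2 * e5 - 3 * ((α - β) * X + (v - u)) * e1 -
        3 * (u + v) * e2
    have e8 := congrArg L.nm e7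
    rw [L.neg, L.pow, L.mul X, hc.ne, mul_one, L.mul] at e8
    have e9 : L.nm (fe W (γ x₀) (γ y₀) - fe W x₀ y₀) < 1 := by
      rw [sub_eq_add_neg]
      exact (L.add _ _).trans_lt (max_lt hfe (by rw [L.neg]; exact hc.fe))
    have e10 : L.nm (12 : Ω) * L.nm (fe W (γ x₀) (γ y₀) - fe W x₀ y₀) < 1 :=
      mul_lt_one_of_nonneg_of_lt_one_right (spl_num 12) (L.nonneg _) e9
    rw [e8] at e10
    exact absurd e10 (not_lt.2 (one_le_pow₀ e6))
  refine ⟨hx, ?_⟩
  have h1 := hc.dy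
  unfold dy at h1
  have h2 : y₀ = -(algebraMap F Ω W.a₁ * x₀ + algebraMap F Ω W.a₃) / 2 := by
    rw [eq_div_iff (two_ne_zero : (2 : Ω) ≠ 0)]
    linear_combination h1
  rw [h2]
  exact div_mem (neg_mem (add_mem (mul_mem (spl_mem _) hx) (spl_mem _))) (ofNat_mem _ 2)

/-- **The slopes.** Proof: `α` is a root of `T ^ 2 + a₁ T - (a₂ + 3 x₀)` (`Nc.add`, `Nc.mul`), with coefficients in `⊥` (`nc_bot`); `M = K(α)`, of degree at most `2`, `β = - a₁ - α`. `Cp l M`: as `cp_adj` (`Pe/Cp.lean`; for degree at most `2` and `l` odd). `M ≤ Ur ⊥ N`: `root_ur` needs `Unr` only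
formally; state it with `[L.Unr]` (the derivative at `α` is `2 α + a₁ = α - β`, a unit). -/
theorem nc_spl {l : ℕ} (hl : l.Prime) (h2 : l ≠ 2) (hc : L.Nc W x₀ y₀ α β) :
    ∃ M : IntermediateField K Ω, FiniteDimensional K M ∧ Cp l M ∧ α ∈ M ∧ β ∈ M ∧
      (L.Unr → ∃ N : ℕ, N ≠ 0 ∧ M ≤ L.Ur ⊥ N) := by
  have hal : Algebra.IsAlgebraic K Ω := IsAlgClosure.isAlgebraic
  obtain ⟨hx, -⟩ := nc_bot hc
  obtain ⟨a, ha⟩ : ∃ a, a = algebraMap F Ω W.a₁ := ⟨_, rfl⟩
  obtain ⟨b, hb⟩ : ∃ b, b = α * β := ⟨_, rfl⟩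
  have ham : a ∈ (⊥ : IntermediateField K Ω) := by
    rw [ha]
    exact spl_mem _
  have hbm : b ∈ (⊥ : IntermediateField K Ω) := by
    rw [hb, hc.mul]
    exact neg_mem (add_mem (spl_mem _) (mul_mem (ofNat_mem _ 3) hx))
  have hadd : α + β = -a := by rw [hc.add, ha]
  have ha1 : L.nm a ≤ 1 := by
    have h1 : a = -(α + β) := by rw [hadd, neg_neg]
    rw [h1, L.neg]
    exact (L.add _ _).trans (max_le hc.α_le hc.β_le)
  have hb1 : L.nm b ≤ 1 := by
    rw [hb, L.mul]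
    exact mul_le_one₀ hc.α_le (L.nonneg _) hc.β_le
  obtain ⟨f, hf⟩ : ∃ f : Polynomial Ω, f = X ^ 2 + C a * X + C b := ⟨_, rfl⟩
  have hfs : f = (X - C α) * (X - C β) := by
    have h1 : C a = -(C α + C β : Polynomial Ω) := by
      rw [← C_add, hadd, C_neg, neg_neg]
    have h2 : (C b : Polynomial Ω) = C α * C β := by rw [hb, C_mul]
    rw [hf, h1, h2]
    ring
  have hmon : f.Monic := by
    rw [hfs]
    exact (monic_X_sub_C α).mul (monic_X_sub_C β)
  have hdeg : f.natDegree ≤ 2 := by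
    rw [hfs, (monic_X_sub_C α).natDegree_mul (monic_X_sub_C β), natDegree_X_sub_C,
      natDegree_X_sub_C]
  have hroot : f.eval α = 0 := by
    rw [hfs, eval_mul, eval_sub, eval_X, eval_C, sub_self, zero_mul]
  have hip : L.Ip ⊥ f := by
    rw [hf]
    exact ((Ld.Ip.X.pow 2).add ((Ld.Ip.C ham ha1).mul Ld.Ip.X)).add (Ld.Ip.C hbm hb1)
  have hder : L.nm ((derivative f).eval α) = 1 := by
    have h1 : (derivative f).eval α = α - β := by
      rw [hf]
      simp only [derivative_add, derivative_mul, derivative_pow, derivative_X, derivative_C,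
        zero_mul, zero_add, mul_one, add_zero, eval_add, eval_mul, eval_C, eval_X,
        Nat.cast_ofNat, Nat.add_one_sub_one, pow_one]
      linear_combination hadd
    rw [h1, hc.ne]
  have hxi : IsIntegral K α := (Algebra.IsAlgebraic.isAlgebraic α).isIntegral
  have hfx : FiniteDimensional K K⟮α⟯ := IntermediateField.adjoin.finiteDimensional hxi
  have hαm : α ∈ K⟮α⟯ := IntermediateField.mem_adjoin_simple_self K α
  refine ⟨K⟮α⟯, hfx, ?_, hαm, ?_, ?_⟩
  · intro N hN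
    obtain ⟨h1, h3⟩ := spl_deg (N := N) hmon.ne_zero hdeg
      (fun i => (bot_le : (⊥ : IntermediateField K Ω) ≤ N) (hip i).1) hroot
    refine ((Nat.Prime.coprime_iff_not_dvd hl).2 fun h4 => ?_).symm
    have h5 := Nat.le_of_dvd (Nat.pos_of_ne_zero h1) h4
    have h6 := hl.two_le
    omega
  · have h1 : β = -a - α := by linear_combination hadd
    rw [h1]
    exact sub_mem (neg_mem ((bot_le : (⊥ : IntermediateField K Ω) ≤ K⟮α⟯) ham)) hαm
  · intro hU
    obtain ⟨N, hN, -, h1⟩ := Ld.root_ur (L := L) (N := 1) one_ne_zero (hip.mono bot_le) hmon hroot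
      hder
    exact ⟨N, hN, IntermediateField.adjoin_simple_le_iff.2 h1⟩

end NE
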