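import Pool.Agent.Lib.MP_f80667_ag.Sm.Loc
import Pool.Agent.Lib.MP_f80667_ag.Sm.SplA
import Pool.Agent.Lib.MP_f80667_ag.Nf.SngB
import Pool.Agent.Lib.MP_f80667_ag.Cv.Td

/-!
The local theorems for semistable curves, `l` odd.
-/

open ZC BE PE Polynomial IntermediateField CV

namespace NE

variable {F : Type} [Field F] {n : ℕ} {W : Fin n → WeierstrassCurve F} [∀ i, (W i).IsElliptic]
  {K Ω : Type} [Field K] [Field Ω] [Algebra K Ω] [Algebra F K] [Algebra F Ω]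
  [IsScalarTower F K Ω] [CharZero K] [IsAlgClosure K Ω]

/-- The compositum of finitely many extensions of degree prime to `l`. -/
private theorem spl_sup {ι : Type} {L : Ld K Ω} {l : ℕ} (M : ι → IntermediateField K Ω)
    (hf : ∀ i, FiniteDimensional K (M i)) (hc : ∀ i, Cp l (M i))
    (hu : ∀ i, L.Unr → ∃ N : ℕ, N ≠ 0 ∧ M i ≤ L.Ur ⊥ N) (s : Finset ι) :
    ∃ M₀ : IntermediateField K Ω, FiniteDimensional K M₀ ∧ Cp l M₀ ∧ (∀ i ∈ s, M i ≤ M₀) ∧
      (L.Unr → ∃ N : ℕ, N ≠ 0 ∧ M₀ ≤ L.Ur ⊥ N) := by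
  classical
  induction s using Finset.induction_on with
  | empty =>
    exact ⟨⊥, inferInstance, cp_bot l, fun j hj => absurd hj (Finset.notMem_empty j),
      fun _ => ⟨1, one_ne_zero, bot_le⟩⟩
  | insert i s _ ih =>
    obtain ⟨M₀, h₁, h₂, h₃, h₄⟩ := ih
    have := hf i
    refine ⟨M i ⊔ M₀, IntermediateField.finiteDimensional_sup (M i) M₀, cp_sup (hc i) h₂,
      fun j hj => ?_, fun h => ?_⟩
    · rcases Finset.mem_insert.1 hj with rfl | hj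
      · exact le_sup_left
      · exact (h₃ j hj).trans le_sup_right
    · obtain ⟨a, ha, ha'⟩ := hu i h
      obtain ⟨b, hb, hb'⟩ := h₄ h
      exact ⟨a * b, Nat.mul_ne_zero ha hb, sup_le
        (ha'.trans (Ld.ur_dvd ⊥ (dvd_mul_right a b)))
        (hb'.trans (Ld.ur_dvd ⊥ (dvd_mul_left b a)))⟩

omit [CharZero K] [IsAlgClosure K Ω] in
/-- An element of `⊥` over `K` is in `⊥` over `M`. -/
private theorem spl_bot {M : IntermediateField K Ω} {x : Ω} (hx : x ∈ M) :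
    x ∈ (⊥ : IntermediateField M Ω) :=
  IntermediateField.mem_bot.2 ⟨⟨x, hx⟩, rfl⟩

/-- One curve. -/
private theorem spl_one (L : Ld K Ω) {l : ℕ} (hl : l.Prime) (h2 : l ≠ 2)
    (V : WeierstrassCurve F) (hW : L.Gd V ∨ L.Md V) :
    ∃ M : IntermediateField K Ω, FiniteDimensional K M ∧ Cp l M ∧
      (L.Unr → ∃ N : ℕ, N ≠ 0 ∧ M ≤ L.Ur ⊥ N) ∧
      ∀ (M₀ : IntermediateField K Ω) (_ : FiniteDimensional K M₀), M ≤ M₀ →
        (GX.xt L M₀).Gs V := by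
  rcases hW with h | h
  · exact ⟨⊥, inferInstance, cp_bot l, fun _ => ⟨1, one_ne_zero, bot_le⟩, fun M₀ _ _ =>
      Or.inl ⟨⟨h.a₁, h.a₂, h.a₃, h.a₄, h.a₆⟩, h.disc⟩⟩
  · obtain ⟨x₀, y₀, α, β, hc⟩ := Ld.exists_nc h
    obtain ⟨hx, hy⟩ := nc_bot hc
    obtain ⟨M, hf, hcp, hα, hβ, hu⟩ := nc_spl hl h2 hc
    refine ⟨M, hf, hcp, hu, fun M₀ _ hM => Or.inr
      ⟨⟨⟨h.a₁, h.a₂, h.a₃, h.a₄, h.a₆⟩, h.disc, h.c₄⟩, x₀, y₀, α, β,
      ⟨⟨hc.x_le, hc.y_le, hc.α_le, hc.β_le, hc.dx, hc.dy, hc.add, hc.mul, hc.ne, hc.fe⟩,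
      spl_bot ((bot_le : (⊥ : IntermediateField K Ω) ≤ M₀) hx),
      spl_bot ((bot_le : (⊥ : IntermediateField K Ω) ≤ M₀) hy), spl_bot (hM hα),
      spl_bot (hM hβ)⟩⟩⟩

/-- The condition over the extension. -/
private theorem spl_jc (L : Ld K Ω) {l : ℕ} (hl : l.Prime) (V : WeierstrassCurve F)
    (hW : L.Gd V ∨ L.Md V) (M₀ : IntermediateField K Ω) [FiniteDimensional K M₀] (hc : Cp l M₀)
    (hj : L.Jc l V) : (GX.xt L M₀).Jc l V := by
  by_cases hΔ : V.Δ = 0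
  · intro π hπ m hm _
    have hm' : L.nm (algebraMap F Ω V.Δ) = L.nm (algebraMap F Ω V.c₄) ^ 3 * L.nm π ^ m := hm
    rcases hW with h | h
    · have h1 := h.disc
      rw [hΔ, map_zero, L.zero] at h1
      exact absurd h1 zero_ne_one
    · rw [hΔ, map_zero, L.zero, h.c₄, one_pow, one_mul] at hm'
      have h2 : (0 : ℝ) < L.nm π := hπ.pos
      exact absurd hm'.symm (pow_pos h2 m).ne'
  have hE : V.IsElliptic := ⟨isUnit_iff_ne_zero.2 hΔ⟩
  have e4 : algebraMap M₀ Ω (V.map (algebraMap F M₀)).c₄ = algebraMap F Ω V.c₄ := by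
    rw [WeierstrassCurve.map_c₄, ← IsScalarTower.algebraMap_apply F M₀ Ω]
  have eD : algebraMap M₀ Ω (V.map (algebraMap F M₀)).Δ = algebraMap F Ω V.Δ := by
    rw [WeierstrassCurve.map_Δ, ← IsScalarTower.algebraMap_apply F M₀ Ω]
  have h := Ld.jc_ext L hl hc (GX.xt L M₀) (fun _ => rfl) V (V.map (algebraMap F M₀))
    (by rw [e4, eD]) hj
  intro π hπ m hm hd
  refine h π hπ m ?_ hd
  have e1 : algebraMap M₀ Ω (V.map (algebraMap F M₀)).c₄ = algebraMap F Ω V.c₄ := e4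
  rw [eD, e4]
  exact hm

omit [CharZero K] in
/-- The algebraic closure over the extension. -/
private theorem spl_cl (M₀ : IntermediateField K Ω) : IsAlgClosure M₀ Ω := by
  have hac : IsAlgClosed Ω := IsAlgClosure.isAlgClosed K
  have halg : Algebra.IsAlgebraic K Ω := IsAlgClosure.isAlgebraic
  exact ⟨hac, Algebra.IsAlgebraic.tower_top (K := K) M₀⟩

omit [∀ i, (W i).IsElliptic] in
/-- **The extension.** Proof: the compositum of the fields of `nc_spl` (`exists_nc`; `⊥` for good reduction, `cp_bot`) as in `sndB_sup` (`Nf/SndB.lean`); `Unr`: `M₀ ≤ Ur ⊥ (∏ N_i)` (`ur_dvd`). Over `M₀` the curves satisfy `Gs` (`Gd`, `Md` only involve norms; `Nk`: `⊥` is `M₀`),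
`Jc` by `jc_ext` (`Pe/ElgE.lean`, the curve `W i` over `M₀`), `Unr` by `ur_unr`. `finrank K M₀` is prime to `l`: `Cp` for `N = ⊥` (the index of the fixing subgroup is the degree, as in `Pe/Ram.lean`). -/
theorem exists_spl (L : Ld K Ω) {l : ℕ} (hl : l.Prime) (h2 : l ≠ 2)
    (hW : ∀ i, L.Gd (W i) ∨ L.Md (W i)) (hj : ∀ i, L.Jc l (W i)) :
    ∃ (M₀ : IntermediateField K Ω) (hf : FiniteDimensional K M₀),
      (Module.finrank K M₀).Coprime l ∧ (∀ i, (GX.xt L M₀).Gs (W i)) ∧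
      (∀ i, (GX.xt L M₀).Jc l (W i)) ∧ (L.Unr → (GX.xt L M₀).Unr) := by
  classical
  choose M hf hc hu hM using fun i => spl_one L hl h2 (W i) (hW i)
  obtain ⟨M₀, hf₀, hc₀, hle, hu₀⟩ := spl_sup (L := L) M hf hc hu Finset.univ
  refine ⟨M₀, hf₀, ?_, fun i => hM i M₀ hf₀ (hle i (Finset.mem_univ i)),
    fun i => spl_jc L hl (W i) (hW i) M₀ hc₀ (hj i), fun h => ?_⟩
  · have h4 := hc₀ ⊥ inferInstance
    rw [bot_sup_eq] at h4
    have h3 := relIndex_fix (M := (⊥ : IntermediateField K Ω)) (N := M₀) bot_le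
    rw [IntermediateField.finrank_bot, mul_one] at h3
    rwa [h3] at h4
  · obtain ⟨N, hN, hle'⟩ := hu₀ h
    refine ⟨fun x hx => ?_⟩
    have hxN : (x : Ω) ∈ L.Ur ⊥ N := hle' x.2
    have hx0 : (x : Ω) ≠ 0 := fun h0 => hx (Subtype.ext h0)
    obtain ⟨k, hk⟩ := Ld.ur_unr (L := L) hN hxN hx0
    exact ⟨k, hk⟩

/-- **The local theorem at `l = p`.** Proof: `exists_spl` for `l = L.p`, `loc_gs` over `M₀`, `dvG_up` (`Cv/Td.lean`; base points `bpE (W i)`, `Fct (Ev (W i))`). -/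
theorem loc_ss (L : Ld K Ω) [L.Unr] (h2 : L.p ≠ 2) (hW : ∀ i, L.Gd (W i) ∨ L.Md (W i))
    (hj : ∀ i, L.Jc L.p (W i)) : DvG (fun i => Ev (W i)) K Ω L.p := by
  obtain ⟨M₀, hf, hc, hg, hj', hu⟩ := exists_spl L L.pp h2 hW hj
  have h0 : CharZero M₀ := charZero_of_injective_algebraMap (algebraMap K M₀).injective
  have h1 : IsAlgClosure M₀ Ω := spl_cl M₀
  have h3 : (GX.xt L M₀).Unr := hu inferInstance
  exact dvG_up (fun i => bpE (W i)) (fun i => (hfE (W i)).out) M₀ hc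
    (loc_gs (GX.xt L M₀) h2 hg hj')

/-- **The local theorem for `l ≠ p`, semistable curves, `l` odd.** Proof: `exists_spl`, over `M₀`: `dvG_sn`, `sn_all` (as `loc_lp`, `Nf/SngB.lean`); `dvG_up`. -/
theorem loc_ne (L : Ld K Ω) {l : ℕ} (hl : l.Prime) (h2 : l ≠ 2) (hlp : l ≠ L.p)
    (hW : ∀ i, L.Gd (W i) ∨ L.Md (W i)) (hj : ∀ i, L.Jc l (W i)) :
    DvG (fun i => Ev (W i)) K Ω l := by
  obtain ⟨M₀, hf, hc, hg, hj', -⟩ := exists_spl L hl h2 hW hj
  have h0 : CharZero M₀ := charZero_of_injective_algebraMap (algebraMap K M₀).injective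
  have h1 : IsAlgClosure M₀ Ω := spl_cl M₀
  refine dvG_up (fun i => bpE (W i)) (fun i => (hfE (W i)).out) M₀ hc
    (dvG_sn fun S hS Y M x hM hx => ?_)
  have hn : Nontrivial {i // i ∈ S} := by
    obtain ⟨a, ha, b, hb, hab⟩ := Finset.one_lt_card.1 (show 1 < S.card by omega)
    exact ⟨⟨⟨a, ha⟩, ⟨b, hb⟩, fun h => hab (congrArg Subtype.val h)⟩⟩
  exact sn_all (GX.xt L M₀) (W := fun i : {i // i ∈ S} => W i) (fun i => hg i) hl hlp
    (fun i => hj' i) Y M x hM hx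

end NE
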