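import Pool.Agent.Lib.MP_f80667_ag.Nf.Sng

/-!
The generation by the traces of the cycles `tht S x`, for a given set of fields and points.
-/

open ZC BE PE Polynomial IntermediateField CV

namespace NE

variable {F : Type} [Field F] {n : ℕ} {W : Fin n → WeierstrassCurve F} [∀ i, (W i).IsElliptic]
  {K Ω : Type} [Field K] [Field Ω] [Algebra K Ω] [Algebra F K] [Algebra F Ω]
  [IsScalarTower F K Ω] [CharZero K] [IsAlgClosure K Ω]

section

omit [∀ i, (W i).IsElliptic]

variable (W) in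
/-- The composite of the projection and the section. -/
private noncomputable def thtS_s (i : Fin n) : Mo (Xn W) (Xn W) :=
  (sc (V := fun i => Ev (W i)) (fun j => bpE (W j)) i).comp (pr (V := fun i => Ev (W i)) i)

variable (W) in
/-- The base point. -/
private noncomputable def thtS_o : Bp (Xn W) where
  o L _ _ := fun i => (bpE (W i)).o L
  nat L M _ _ _ _ σ := funext fun i => (bpE (W i)).nat L M σ
  red K L Ω _ _ _ _ _ _ _ w := fun i => (bpE (W i)).red K L Ω w

variable (W Ω) in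
/-- The component in the Albanese kernel. -/
private noncomputable def thtS_t : ((Xn W).pt Ω →₀ ℤ) →+ ((Xn W).pt Ω →₀ ℤ) :=
  AddMonoidHom.id _ - ∑ i, Finsupp.mapDomain.addMonoidHom ((thtS_s W i).f Ω) +
    ((n : ℤ) - 1) • Finsupp.mapDomain.addMonoidHom ((Mo.cst (Xn W) (thtS_o W)).f Ω)

private theorem thtS_t_apply (z : (Xn W).pt Ω →₀ ℤ) :
    thtS_t W Ω z = z - ∑ i, Finsupp.mapDomain ((thtS_s W i).f Ω) z +
      ((n : ℤ) - 1) • Finsupp.mapDomain ((Mo.cst (Xn W) (thtS_o W)).f Ω) z := by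
  rw [thtS_t, AddMonoidHom.add_apply, AddMonoidHom.sub_apply, AddMonoidHom.finsetSum_apply]
  rfl

private theorem thtS_s_f (i : Fin n) (x : (Xn W).pt Ω) : (thtS_s W i).f Ω x = xt x {i} := by
  have e0 : (thtS_s W i).f Ω x = @Function.update (Fin n) (fun i => (Ev (W i)).pt Ω)
      (fun a b => Classical.propDecidable (a = b)) (fun j => (bpE (W j)).o Ω) i (x i) := rfl
  funext j
  rw [e0]
  rcases eq_or_ne j i with rfl | h
  · have e1 : @Function.update (Fin n) (fun i => (Ev (W i)).pt Ω)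
        (fun a b => Classical.propDecidable (a = b)) (fun j => (bpE (W j)).o Ω) j (x j) j = x j :=
      @Function.update_self (Fin n) (fun i => (Ev (W i)).pt Ω)
        (fun a b => Classical.propDecidable (a = b)) j (x j) _
    have e2 : xt x {j} j = x j := if_pos (Finset.mem_singleton_self j)
    rw [e1, e2]
  · have e1 : @Function.update (Fin n) (fun i => (Ev (W i)).pt Ω)
        (fun a b => Classical.propDecidable (a = b)) (fun j => (bpE (W j)).o Ω) i (x i) j =
        (0 : Pt (W j) Ω) :=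
      @Function.update_of_ne (Fin n) (fun i => (Ev (W i)).pt Ω)
        (fun a b => Classical.propDecidable (a = b)) j i h (x i) _
    have e2 : xt x {i} j = (0 : Pt (W j) Ω) := if_neg (by rw [Finset.mem_singleton]; exact h)
    rw [e1, e2]

private theorem thtS_card_one (x : (Xn W).pt Ω) :
    (∑ S ∈ (Finset.univ : Finset (Finset (Fin n))).filter (fun S => ¬ 2 ≤ S.card), tht S x :
      (Xn W).pt Ω →₀ ℤ) = tht ∅ x + ∑ i : Fin n, tht {i} x := by
  classical
  have h1 : (Finset.univ : Finset (Finset (Fin n))).filter (fun S => ¬ 2 ≤ S.card) =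
      insert ∅ (Finset.univ.image (fun i : Fin n => ({i} : Finset (Fin n)))) := by
    ext S
    rw [Finset.mem_filter, Finset.mem_insert, Finset.mem_image]
    constructor
    · rintro ⟨_, h⟩
      rcases Nat.lt_or_ge S.card 1 with h2 | h2
      · exact Or.inl (Finset.card_eq_zero.1 (by omega))
      · obtain ⟨i, hi⟩ := Finset.card_eq_one.1 (show S.card = 1 by omega)
        exact Or.inr ⟨i, Finset.mem_univ i, hi.symm⟩
    · rintro (rfl | ⟨i, _, rfl⟩)
      · exact ⟨Finset.mem_univ _, by simp⟩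
      · exact ⟨Finset.mem_univ _, by simp⟩
  rw [h1, Finset.sum_insert]
  · congr 1
    rw [Finset.sum_image]
    intro i _ j _ h
    exact Finset.singleton_injective h
  · rw [Finset.mem_image]
    rintro ⟨i, _, h⟩
    exact Finset.singleton_ne_empty i h

private theorem thtS_t_single (x : (Xn W).pt Ω) :
    thtS_t W Ω (Finsupp.single x 1) =
      ∑ S ∈ (Finset.univ : Finset (Finset (Fin n))).filter (fun S => 2 ≤ S.card), tht S x := by
  classical
  have h1 := tht_sum x
  rw [← Finset.sum_filter_add_sum_filter_not (Finset.univ : Finset (Finset (Fin n)))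
    (fun S => 2 ≤ S.card), thtS_card_one, tht_emp] at h1
  have h2 : (∑ i : Fin n, tht {i} x : (Xn W).pt Ω →₀ ℤ) =
      ∑ i : Fin n, Finsupp.single (xt x {i}) 1 - (n : ℤ) • Finsupp.single (oX W Ω) 1 := by
    rw [Finset.sum_congr rfl (fun i _ => tht_one x i), Finset.sum_sub_distrib, Finset.sum_const,
      Finset.card_univ, Fintype.card_fin, natCast_zsmul]
  have h3 : (∑ i : Fin n, Finsupp.mapDomain ((thtS_s W i).f Ω) (Finsupp.single x 1) :
      (Xn W).pt Ω →₀ ℤ) = ∑ i : Fin n, Finsupp.single (xt x {i}) 1 := by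
    refine Finset.sum_congr rfl fun i _ => ?_
    rw [Finsupp.mapDomain_single, thtS_s_f]
  have h4 : Finsupp.mapDomain ((Mo.cst (Xn W) (thtS_o W)).f Ω) (Finsupp.single x (1 : ℤ)) =
      Finsupp.single (oX W Ω) 1 := Finsupp.mapDomain_single
  rw [thtS_t_apply, h3, h4, ← h1, h2, sub_smul, one_smul]
  abel

private theorem thtS_act (φ : Mo (Xn W) (Xn W)) (γ : Ω ≃ₐ[K] Ω) (z : (Xn W).pt Ω →₀ ℤ) :
    γ • Finsupp.mapDomain (φ.f Ω) z = Finsupp.mapDomain (φ.f Ω) (γ • z) := by
  rw [CV.smul_def, CV.smul_def, ← Finsupp.mapDomain_comp, ← Finsupp.mapDomain_comp]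
  have h1 : (Xn W).act γ ∘ φ.f Ω = φ.f Ω ∘ (Xn W).act γ :=
    funext fun x => φ.act γ x
  rw [h1]

private theorem thtS_smul (γ : Ω ≃ₐ[K] Ω) (z : (Xn W).pt Ω →₀ ℤ) :
    γ • thtS_t W Ω z = thtS_t W Ω (γ • z) := by
  rw [thtS_t_apply, thtS_t_apply, smul_add, smul_sub, Finset.smul_sum, smul_comm γ, thtS_act]
  congr 2
  exact Finset.sum_congr rfl fun i _ => thtS_act _ γ z

private theorem thtS_const {S₀ : Vr F} {Y : Type} (o : Y) (u : S₀.pt Ω →₀ ℤ) :
    Finsupp.mapDomain (fun _ : S₀.pt Ω => o) u = Finsupp.single o (S₀.deg Ω u) := by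
  induction u using Finsupp.induction_linear with
  | zero => simp
  | add f g hf hg => rw [Finsupp.mapDomain_add, hf, hg, map_add, Finsupp.single_add]
  | single a n => rw [Finsupp.mapDomain_single, Vr.deg, Finsupp.liftAddHom_apply_single]; rfl

/-- On the Albanese kernel the component is the identity modulo `ratEq`. -/
private theorem thtS_id {z : (Xn W).pt Ω →₀ ℤ} (hz : z ∈ (Xn W).D0 K Ω)
    (ha : ∀ i, Finsupp.mapDomain ((pr (V := fun i => Ev (W i)) i).f Ω) z ∈
      (Ev (W i)).ratEq K Ω) : z - thtS_t W Ω z ∈ (Xn W).ratEq K Ω := by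
  have hdeg : (Xn W).deg Ω z = 0 := hz.2
  have h1 : Finsupp.mapDomain ((Mo.cst (Xn W) (thtS_o W)).f Ω) z = 0 := by
    have h2 := thtS_const (S₀ := Xn W) ((thtS_o W).o Ω) z
    rw [hdeg, Finsupp.single_zero] at h2
    exact h2
  have h3 : z - thtS_t W Ω z = ∑ i, Finsupp.mapDomain ((thtS_s W i).f Ω) z := by
    rw [thtS_t_apply, h1, smul_zero]
    abel
  rw [h3]
  refine sum_mem fun i _ => ?_
  have h4 : Finsupp.mapDomain ((thtS_s W i).f Ω) z =
      Finsupp.mapDomain ((sc (V := fun i => Ev (W i)) (fun j => bpE (W j)) i).f Ω)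
        (Finsupp.mapDomain ((pr (V := fun i => Ev (W i)) i).f Ω) z) := by
    rw [← Finsupp.mapDomain_comp]
    rfl
  rw [h4]
  exact (sc (V := fun i => Ev (W i)) (fun j => bpE (W j)) i).ratEq K Ω (ha i)

private theorem thtS_nm_sum {S₀ : Vr F} [Hf S₀] {M : IntermediateField K Ω}
    [FiniteDimensional K M] {ι : Type} (s : Finset ι) (f : ι → (S₀.pt Ω →₀ ℤ)) :
    Nm (⊥ : IntermediateField K Ω) M (∑ i ∈ s, f i) =
      ∑ i ∈ s, Nm (⊥ : IntermediateField K Ω) M (f i) := by
  obtain ⟨t, -, -, -, h3⟩ := nm_rep (M := (⊥ : IntermediateField K Ω)) (N := M) bot_le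
  rw [h3, Finset.sum_congr rfl (fun i _ => h3 _ (f i)), Finset.sum_comm]
  exact Finset.sum_congr rfl fun γ _ => Finset.smul_sum

end

/-- Proof: as `tht_gen` (`Nf/Sng.lean`; copy its private lemmas `sng_*`): `w = sng_t z`, `z - w ∈ ratEq` (`sng_id`); `sng_t` of a norm of a point is the sum of the norms of the `tht S x` with `2 ≤ S.card`. -/
theorem tht_genS (𝒮 : IntermediateField K Ω → (Xn W).pt Ω → Prop)
    (h𝒮 : ∀ M x, 𝒮 M x → FiniteDimensional K M ∧ Fp (Xn W) M x) {z : (Xn W).pt Ω →₀ ℤ}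
    (hc : z ∈ AddSubgroup.closure {z : (Xn W).pt Ω →₀ ℤ | ∃ (M : IntermediateField K Ω)
      (x : (Xn W).pt Ω), 𝒮 M x ∧ z = Nm (⊥ : IntermediateField K Ω) M (Finsupp.single x 1)})
    (hz : z ∈ (Xn W).D0 K Ω)
    (ha : ∀ i, Finsupp.mapDomain ((pr (V := fun i => Ev (W i)) i).f Ω) z ∈ (Ev (W i)).ratEq K Ω) :
    ∃ w ∈ AddSubgroup.closure {w : (Xn W).pt Ω →₀ ℤ | ∃ (S : Finset (Fin n))
        (M : IntermediateField K Ω) (x : (Xn W).pt Ω), 2 ≤ S.card ∧ 𝒮 M x ∧
        w = Nm (⊥ : IntermediateField K Ω) M (tht S x)},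
      z - w ∈ (Xn W).ratEq K Ω := by
  classical
  refine ⟨thtS_t W Ω z, ?_, thtS_id hz ha⟩
  have hle : AddSubgroup.closure {z : (Xn W).pt Ω →₀ ℤ | ∃ (M : IntermediateField K Ω)
      (x : (Xn W).pt Ω), 𝒮 M x ∧ z = Nm (⊥ : IntermediateField K Ω) M (Finsupp.single x 1)} ≤
      (AddSubgroup.closure {w : (Xn W).pt Ω →₀ ℤ | ∃ (S : Finset (Fin n))
        (M : IntermediateField K Ω) (x : (Xn W).pt Ω), 2 ≤ S.card ∧ 𝒮 M x ∧
        w = Nm (⊥ : IntermediateField K Ω) M (tht S x)}).comap (thtS_t W Ω) := by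
    refine (AddSubgroup.closure_le _).2 ?_
    rintro _ ⟨M', x, hx, rfl⟩
    have hf := (h𝒮 M' x hx).1
    rw [SetLike.mem_coe, AddSubgroup.mem_comap, hom_nm (thtS_t W Ω) bot_le
      (fun γ _ a => (thtS_smul γ a).symm), thtS_t_single, thtS_nm_sum]
    refine sum_mem fun S hS => ?_
    rw [Finset.mem_filter] at hS
    exact AddSubgroup.subset_closure ⟨S, M', x, hS.2, hx, rfl⟩
  exact hle hc

end NE
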