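import Pool.Agent.Lib.MP_f80667_ag.Sm.Div
import Pool.Agent.Lib.MP_f80667_ag.Pe.Un
import Pool.Agent.Lib.MP_f80667_ag.Pe.Phb

/-!
Symbols of two points with nonsingular reduction over unramified extensions are multiples of `p`, `p` odd.
-/

open ZC BE PE Polynomial IntermediateField

namespace NE

variable {F : Type} [Field F] {K Ω : Type} [Field K] [CharZero K] [Field Ω] [Algebra K Ω]
  [Algebra F K] [Algebra F Ω] [IsScalarTower F K Ω] [IsAlgClosure K Ω] {L : Ld K Ω} [L.Unr]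
  {W₁ W₂ : WeierstrassCurve F} [W₁.IsElliptic] [W₂.IsElliptic] {G : Type} [AddCommGroup G]

/-- Proof: as `Ld.un_wild` (`Pe/Un.lean`): if `p` divides the degree it is at least `3` (it is positive and a multiple of `p ≥ 3`). -/
theorem un_wild2 (h2 : L.p ≠ 2) (h₁ : L.It W₁) (h₂ : L.It W₂) (S : Sc K Ω (Pt W₁ Ω) (Pt W₂ Ω) G)
    {N : ℕ} (hN : N ≠ 0) {P : Pt W₁ Ω} {b : Pt W₂ Ω} (hP : Fx (L.Ur ⊥ N) P) (hPf : L.Fm P)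
    (hb : L.Fm b) (hQ : Fx (L.Ur ⊥ N) (L.p • b)) (ht : L.nm (tp (L.p • b)) = L.nm (L.p : Ω)) :
    S.Z L.p (L.Ur ⊥ N) P (L.p • b) := by
  have hfU : FiniteDimensional K (L.Ur ⊥ N) := Ld.ur_fin ⊥ N hN
  have hfM : FiniteDimensional K (Ld.Pf (L.Ur ⊥ N) b) := Ld.pf_fin _ b
  have hle : L.Ur ⊥ N ≤ Ld.Pf (L.Ur ⊥ N) b := Ld.pf_le _ b
  have hbM : Fx (Ld.Pf (L.Ur ⊥ N) b) b := (Ld.pf_fx h₂ _ hb).2.2.1
  by_cases hd : L.p ∣ (Ld.Pf (L.Ur ⊥ N) b).fixingSubgroup.relIndex (L.Ur ⊥ N).fixingSubgroup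
  · have hn : 3 ≤ (Ld.Pf (L.Ur ⊥ N) b).fixingSubgroup.relIndex (L.Ur ⊥ N).fixingSubgroup := by
      have hdeg := Ld.wild_deg h₂ hN hb
      have hpos : 0 < (Ld.Pf (L.Ur ⊥ N) b).fixingSubgroup.relIndex (L.Ur ⊥ N).fixingSubgroup := by
        rcases Nat.eq_zero_or_pos
          ((Ld.Pf (L.Ur ⊥ N) b).fixingSubgroup.relIndex (L.Ur ⊥ N).fixingSubgroup) with h0 | h0
        · rw [h0, pow_zero] at hdeg
          exact absurd hdeg (not_le.2 L.lt)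
        · exact h0
      have hle' := Nat.le_of_dvd hpos hd
      have h3 := L.pp.two_le
      omega
    have step : ∀ i : ℕ, 1 ≤ i → ∀ a : Pt W₁ Ω, L.Fm a → Fx (L.Ur ⊥ N) a →
        L.nm (tp a) ≤ L.nm (L.p : Ω) ^ i → ∃ a' a'' : Pt W₁ Ω, a = a' + a'' ∧ L.Fm a'' ∧
          Fx (L.Ur ⊥ N) a'' ∧ L.nm (tp a'') ≤ L.nm (L.p : Ω) ^ (i + 1) ∧
          Fx (L.Ur ⊥ N) a' ∧ S.Z L.p (L.Ur ⊥ N) a' (L.p • b) := by
      intro i hi a ha ha' hai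
      obtain ⟨c, hc, hc', hct⟩ := Ld.wild_norm h₁ h₂ hN hb hQ hn hi ha ha' hai
      have hNm : Fx (L.Ur ⊥ N) (Nm (L.Ur ⊥ N) (Ld.Pf (L.Ur ⊥ N) b) c) := nm_fx hle hc'
      refine ⟨Nm (L.Ur ⊥ N) (Ld.Pf (L.Ur ⊥ N) b) c, a - Nm (L.Ur ⊥ N) (Ld.Pf (L.Ur ⊥ N) b) c,
        (add_sub_cancel _ _).symm, (Ld.fm_sub h₁ ha (Ld.fm_nm h₁ hle hc).1).1,
        ha'.sub hNm, hct, hNm, ?_⟩
      exact (Sc.z_nm₁ hle hc' hQ).2 (Sc.z_mul₂ hc' hbM)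
    have h0 : L.nm (tp P) ≤ L.nm (L.p : Ω) ^ (0 + 1) :=
      Ld.ur_lt hN ((Ld.fm_fx h₁ hPf _).1 hP) (by rw [pow_zero]; exact Ld.fm_lt hPf)
    obtain ⟨a₁, b₁, e₁, f₁, g₁, t₁, k₁, z₁⟩ := step 1 le_rfl P hPf hP h0
    obtain ⟨a₂, b₂, e₂, f₂, g₂, t₂, k₂, z₂⟩ := step 2 one_le_two b₁ f₁ g₁ t₁
    obtain ⟨c, -, hc, -, e₃⟩ := Ld.fm_p h₁ hN one_le_two (Or.inl le_rfl) f₂ g₂ t₂
    rw [e₁]
    refine Sc.z_add₁ k₁ g₁ hQ z₁ ?_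
    rw [e₂]
    refine Sc.z_add₁ k₂ g₂ hQ z₂ ?_
    rw [← e₃]
    exact Sc.z_mul₁ hc hQ
  · exact Sc.z_cop hle hP hQ (Nat.Coprime.symm ((Nat.Prime.coprime_iff_not_dvd L.pp).2 hd))
      (Sc.z_mul₂ (hP.mono hle) hbM)

/-- Both points in the formal group. Proof: as `Ld.un_fm`, with `div_ns` instead of `div'` (so `b` has nonsingular reduction). -/
theorem un_fm2 (h2 : L.p ≠ 2) (h₁ : L.It W₁) (h₂ : L.Gs W₂) (S : Sc K Ω (Pt W₁ Ω) (Pt W₂ Ω) G)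
    {N : ℕ} (hN : N ≠ 0) {P : Pt W₁ Ω} {Q : Pt W₂ Ω} (hP : Fx (L.Ur ⊥ N) P) (hPf : L.Fm P)
    (hQ : Fx (L.Ur ⊥ N) Q) (hQf : L.Fm Q) : S.Z L.p (L.Ur ⊥ N) P Q := by
  have hac : IsAlgClosed Ω := IsAlgClosure.isAlgClosed K
  have hcz : CharZero Ω := charZero_of_injective_algebraMap (algebraMap K Ω).injective
  have hfin : FiniteDimensional K (L.Ur ⊥ N) := Ld.ur_fin ⊥ N hN
  obtain ⟨b, hbs, hb⟩ := div_ns h₂ L.pp.ne_zero (Ld.ns_fm h₂.it hQf)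
  obtain ⟨f, hf, hlift⟩ := Ld.lift_ur h₂.it hbs
  have hN' : f * N ≠ 0 := mul_ne_zero hf hN
  obtain ⟨c, hc, hcb⟩ := hlift (f * N) hN' (Dvd.intro _ rfl)
  have hle : L.Ur ⊥ N ≤ L.Ur ⊥ (f * N) := Ld.ur_dvd ⊥ (Dvd.intro_left _ rfl)
  have hfin' : FiniteDimensional K (L.Ur ⊥ (f * N)) := Ld.ur_fin ⊥ (f * N) hN'
  have hb'f : L.Fm (b - c) := Ld.cg_symm h₂.it hcb
  have hpb : L.p • (b - c) = Q - L.p • c := by rw [smul_sub, hb]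
  have hpbx : Fx (L.Ur ⊥ (f * N)) (L.p • (b - c)) := by
    rw [hpb]
    exact (hQ.mono hle).sub (hc.nsmul _)
  obtain ⟨P', hP'f, hP', hPP'⟩ := Ld.fm_norm h₁ (L.Ur ⊥ N) hN' hPf hP
  rw [Ld.ur_ur ⊥ (Dvd.intro_left _ rfl)] at hP' hPP'
  rw [← hPP', Sc.z_nm₁ hle hP' hQ]
  have hQe : Q = L.p • c + L.p • (b - c) := by rw [hpb, add_sub_cancel]
  rw [hQe]
  refine Sc.z_add₂ hP' (hc.nsmul _) hpbx (Sc.z_mul₂ hP' hc) ?_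
  have hpbf : L.Fm (L.p • (b - c)) := (Ld.fm_nsmul h₂.it hb'f L.p).1
  have hmem : tp (L.p • (b - c)) ∈ L.Ur ⊥ (f * N) := (Ld.fm_fx h₂.it hpbf _).1 hpbx
  have h1 : L.nm (tp (L.p • (b - c))) ≤ L.nm (L.p : Ω) ^ (0 + 1) := by
    refine Ld.ur_lt hN' hmem ?_
    rw [pow_zero]
    exact Ld.fm_lt hpbf
  rw [zero_add, pow_one] at h1
  rcases h1.eq_or_lt with h3 | h3
  · exact un_wild2 h2 h₁ h₂.it S hN' hP' hP'f hb'f hpbx h3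
  · have h4 : L.nm (tp (L.p • (b - c))) ≤ L.nm (L.p : Ω) ^ (1 + 1) := by
      refine Ld.ur_lt hN' hmem ?_
      rwa [pow_one]
    obtain ⟨c', -, hc', -, hcc'⟩ := Ld.fm_p h₂.it hN' le_rfl (Or.inr (Or.inl h2)) hpbf hpbx h4
    rw [← hcc']
    exact Sc.z_mul₂ hP' hc'

omit [L.Unr] [W₂.IsElliptic] in
/-- Division modulo the formal group over unramified extensions. -/
private theorem un_dv {W : WeierstrassCurve F} [W.IsElliptic] (h : L.Gs W) {N n : ℕ} (hn : n ≠ 0)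
    {P : Pt W Ω} (hP : Fx (L.Ur ⊥ N) P) (hPs : L.Ns P) : ∃ f ≠ 0, ∀ N' ≠ 0, f ∣ N' → N ∣ N' →
      ∃ P' P'' : Pt W Ω, Fx (L.Ur ⊥ N') P' ∧ Fx (L.Ur ⊥ N') P'' ∧ L.Fm P'' ∧ P = n • P' + P'' := by
  obtain ⟨R, hR, hc⟩ := Ld.dhs h hn hPs
  obtain ⟨f, hf, hl⟩ := Ld.lift_ur h.it hR
  refine ⟨f, hf, fun N' hN' hfN hNN => ?_⟩
  obtain ⟨Q, hQ, hcQ⟩ := hl N' hN' hfN
  have hP' : Fx (L.Ur ⊥ N') P := hP.mono (Ld.ur_dvd ⊥ hNN)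
  refine ⟨Q, P - n • Q, hQ, hP'.sub (hQ.nsmul n), ?_, by abel⟩
  have h1 : L.Cg (n • Q) (n • R) := by
    unfold Ld.Cg
    rw [← nsmul_sub]
    exact (Ld.fm_nsmul h.it hcQ n).1
  exact Ld.cg_trans h.it (Ld.cg_symm h.it hc) (Ld.cg_symm h.it h1)

/-- Both points with nonsingular reduction. Proof: as `Ld.un`: instead of `dv_ur`: `dhs`: `p S ≡ P`, `lift_ur`: `S ≡ S'` over `Ur ⊥ N'`, so `P = p S' + P''` with `P''` in the formal group;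
`nss` instead of `nsg` (the point `Q'` has nonsingular reduction). -/
theorem un_ns2 (h2 : L.p ≠ 2) (h₁ : L.Gs W₁) (h₂ : L.Gs W₂) (S : Sc K Ω (Pt W₁ Ω) (Pt W₂ Ω) G)
    {N : ℕ} (hN : N ≠ 0) {P : Pt W₁ Ω} {Q : Pt W₂ Ω} (hP : Fx (L.Ur ⊥ N) P) (hPs : L.Ns P)
    (hQ : Fx (L.Ur ⊥ N) Q) (hQs : L.Ns Q) : S.Z L.p (L.Ur ⊥ N) P Q := by
  have hfin : FiniteDimensional K (L.Ur ⊥ N) := Ld.ur_fin ⊥ N hN
  obtain ⟨f, hf, hdv⟩ := un_dv h₁ L.pp.ne_zero hP hPs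
  have hN' : f * N ≠ 0 := mul_ne_zero hf hN
  obtain ⟨P', P'', hP', hP'', hPf, hPe⟩ := hdv (f * N) hN' (Dvd.intro _ rfl)
    (Dvd.intro_left _ rfl)
  have hle : L.Ur ⊥ N ≤ L.Ur ⊥ (f * N) := Ld.ur_dvd ⊥ (Dvd.intro_left _ rfl)
  have hfin' : FiniteDimensional K (L.Ur ⊥ (f * N)) := Ld.ur_fin ⊥ (f * N) hN'
  obtain ⟨Q', hQ', hQ's, hQQ'⟩ := Ld.nss h₂ (L.Ur ⊥ N) hN' hQ hQs
  rw [Ld.ur_ur ⊥ (Dvd.intro_left _ rfl)] at hQ' hQQ'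
  rw [← hQQ', Sc.z_nm₂ hle hP hQ', hPe]
  refine Sc.z_add₁ (hP'.nsmul _) hP'' hQ' (Sc.z_mul₁ hP' hQ') ?_
  obtain ⟨g, hg, hdv'⟩ := un_dv h₂ L.pp.ne_zero hQ' hQ's
  have hN'' : g * (f * N) ≠ 0 := mul_ne_zero hg hN'
  obtain ⟨Q₁, Q₂, hQ₁, hQ₂, hQ₂f, hQe⟩ := hdv' (g * (f * N)) hN'' (Dvd.intro _ rfl)
    (Dvd.intro_left _ rfl)
  have hle' : L.Ur ⊥ (f * N) ≤ L.Ur ⊥ (g * (f * N)) := Ld.ur_dvd ⊥ (Dvd.intro_left _ rfl)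
  have hfin'' : FiniteDimensional K (L.Ur ⊥ (g * (f * N))) := Ld.ur_fin ⊥ (g * (f * N)) hN''
  obtain ⟨P₁, hP₁f, hP₁, hPP₁⟩ := Ld.fm_norm h₁.it (L.Ur ⊥ (f * N)) hN'' hPf hP''
  rw [Ld.ur_ur ⊥ (Dvd.intro_left _ rfl)] at hP₁ hPP₁
  rw [← hPP₁, Sc.z_nm₁ hle' hP₁ hQ', hQe]
  exact Sc.z_add₂ hP₁ (hQ₁.nsmul _) hQ₂ (Sc.z_mul₂ hP₁ hQ₁)
    (un_fm2 h2 h₁.it h₂ S hN'' hP₁ hP₁f hQ₂ hQ₂f)

omit [CharZero K] [IsAlgClosure K Ω] [L.Unr] in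
/-- Multiples of a point with nonsingular reduction. -/
private theorem un_zs {W : WeierstrassCurve F} (h : L.It W) {Q : Pt W Ω} (hQ : L.Ns Q) (b : ℤ) : L.Ns (b • Q) := by
  have h1 : ∀ m : ℕ, L.Ns (m • Q) := by
    intro m
    induction m with
    | zero =>
      rw [zero_smul]
      exact Ld.ns_fm h Ld.fm_zero
    | succ m ih =>
      rw [succ_nsmul]
      exact Ld.ns_add h ih hQ
  rcases Int.eq_nat_or_neg b with ⟨m, rfl | rfl⟩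
  · rw [natCast_zsmul]
    exact h1 m
  · rw [neg_smul, natCast_zsmul]
    exact Ld.ns_neg h (h1 m)

omit [L.Unr] in
/-- Over a field between `K` and an unramified extension. Proof: as `ms_finE` (`Pe/Phb.lean`): `P' = a P` (`ms_ord` over `Ur ⊥ N`). -/
theorem ms_finM (h : L.Ms W₁) {l : ℕ} (hl : l.Prime) (hj : L.Jc l W₁) {N : ℕ} (hN : N ≠ 0)
    {M : IntermediateField K Ω} (hM : M ≤ L.Ur ⊥ N) {P : Pt W₁ Ω} (hP : Fx M P) :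
    ∃ P' : Pt W₁ Ω, Fx M P' ∧ L.Ns (P - l • P') := by
  obtain ⟨π, hπ⟩ := L.exists_un (⊥ : IntermediateField K Ω)
  have hΔ0 : algebraMap F Ω W₁.Δ ≠ 0 := by
    rw [Ne, map_eq_zero_iff _ (algebraMap F Ω).injective]
    exact W₁.isUnit_Δ.ne_zero
  have hΔm : algebraMap F Ω W₁.Δ ∈ (⊥ : IntermediateField K Ω) := by
    rw [IsScalarTower.algebraMap_apply F K Ω]
    exact IntermediateField.algebraMap_mem _ _
  obtain ⟨k, hk⟩ := hπ.val _ hΔm hΔ0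
  have hk0 : 0 < k := by
    have h1 := h.disc
    rw [hk, ← zpow_zero (L.nm π)] at h1
    exact (zpow_lt_zpow_iff_right_of_lt_one₀ hπ.pos hπ.lt).1 h1
  obtain ⟨n, rfl⟩ : ∃ n : ℕ, k = (n : ℤ) := ⟨k.toNat, by omega⟩
  rw [zpow_natCast] at hk
  have hln : ¬ l ∣ n := by
    intro hd
    have h1 := hj π hπ n (by rw [h.c₄, one_pow, one_mul, hk]) hd
    omega
  have hns : L.Ns (n • P) := Ld.ms_ord h hπ hk hN (hP.mono hM)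
  have hco : IsCoprime (l : ℤ) (n : ℤ) := by
    rw [Nat.isCoprime_iff_coprime]
    exact (Nat.Prime.coprime_iff_not_dvd hl).2 hln
  obtain ⟨a, b, hab⟩ := hco
  refine ⟨a • P, ?_, ?_⟩
  · rcases Int.eq_nat_or_neg a with ⟨k, rfl | rfl⟩
    · rw [natCast_zsmul]
      exact hP.nsmul k
    · rw [neg_smul, natCast_zsmul]
      exact (hP.nsmul k).neg
  · have h5 : P - l • a • P = b • n • P := by
      have h6 : (1 : ℤ) • P = (a * l + b * n) • P := by rw [hab]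
      rw [one_smul, add_smul, mul_smul, mul_smul, natCast_zsmul, natCast_zsmul] at h6
      have h7 : l • a • P = a • l • P := smul_comm _ _ _
      rw [h7]
      exact sub_eq_of_eq_add' h6
    rw [h5]
    exact un_zs h.toIt hns b

omit [L.Unr] in
private theorem un_fin {W : WeierstrassCurve F} [W.IsElliptic] (h : L.Gs W) {l : ℕ} (hl : l.Prime) (hj : L.Jc l W) {N : ℕ}
    (hN : N ≠ 0) {M : IntermediateField K Ω} (hM : M ≤ L.Ur ⊥ N) {P : Pt W Ω} (hP : Fx M P) :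
    ∃ P' : Pt W Ω, Fx M P' ∧ L.Ns (P - l • P') := by
  rcases h with h | h
  · exact ⟨0, Fx.zero, Ld.ns_good h _⟩
  · exact ms_finM h hl hj hN hM hP

/-- **Unramified symbols.** Proof: `P = p P' + P₀`, `Q = p Q' + Q₀` with `P₀`, `Q₀` over `M` with nonsingular reduction (`ms_finM`; good reduction: `P' = 0`, `ns_good`); `z_add₁`, `z_mul₁`, `z_add₂`, `z_mul₂`; `Q₀ = Nm Q₁` with `Q₁` over
`Ur M N = Ur ⊥ N` with nonsingular reduction (`nss`), `z_nm₂` as in `Ld.un'`; `un_ns2`. -/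
theorem un_j (h2 : L.p ≠ 2) (h₁ : L.Gs W₁) (h₂ : L.Gs W₂) (j₁ : L.Jc L.p W₁) (j₂ : L.Jc L.p W₂)
    (S : Sc K Ω (Pt W₁ Ω) (Pt W₂ Ω) G) {M : IntermediateField K Ω} [FiniteDimensional K M] {N : ℕ}
    (hN : N ≠ 0) (hM : M ≤ L.Ur ⊥ N) {P : Pt W₁ Ω} {Q : Pt W₂ Ω} (hP : Fx M P) (hQ : Fx M Q) :
    S.Z L.p M P Q := by
  have hfin : FiniteDimensional K (L.Ur ⊥ N) := Ld.ur_fin ⊥ N hN
  obtain ⟨P', hP', hPs⟩ := un_fin h₁ L.pp j₁ hN hM hP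
  obtain ⟨Q', hQ', hQs⟩ := un_fin h₂ L.pp j₂ hN hM hQ
  have hP₀ : Fx M (P - L.p • P') := hP.sub (hP'.nsmul _)
  have hQ₀ : Fx M (Q - L.p • Q') := hQ.sub (hQ'.nsmul _)
  have hPe : P = L.p • P' + (P - L.p • P') := (add_sub_cancel _ _).symm
  have hQe : Q = L.p • Q' + (Q - L.p • Q') := (add_sub_cancel _ _).symm
  rw [hPe]
  refine Sc.z_add₁ (hP'.nsmul _) hP₀ hQ (Sc.z_mul₁ hP' hQ) ?_
  rw [hQe]
  refine Sc.z_add₂ hP₀ (hQ'.nsmul _) hQ₀ (Sc.z_mul₂ hP₀ hQ') ?_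
  have hur : L.Ur M N = L.Ur ⊥ N := by
    refine le_antisymm ?_ (Ld.ur_bot_ur M N)
    unfold Ld.Ur at hM ⊢
    exact sup_le hM le_sup_right
  obtain ⟨Q₁, hQ₁, hQ₁s, hQQ₁⟩ := Ld.nss h₂ M hN hQ₀ hQs
  rw [hur] at hQ₁ hQQ₁
  rw [← hQQ₁, Sc.z_nm₂ hM hP₀ hQ₁]
  exact un_ns2 h2 h₁ h₂ S hN (hP₀.mono hM) hPs hQ₁ hQ₁s

end NE
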