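import Pool.Agent.Lib.MP_f80667_ag.Sm.VaT
import Pool.Agent.Lib.MP_f80667_ag.Nf.VaB

/-! The roots of `Θ(z, A(z))`. -/

open ZC BE PE Polynomial IntermediateField CV GM

namespace NE

variable {K Ω : Type} [Field K] [Field Ω] [Algebra K Ω] [CharZero K] [IsAlgClosure K Ω] {L : Ld K Ω}
  [L.Unr] {M : IntermediateField K Ω} {N : ℕ} {π : Ω}

omit [CharZero K] [IsAlgClosure K Ω] [L.Unr] in
/-- The first two coefficients. -/
private theorem va_lin {F : IntermediateField K Ω} {g : Polynomial Ω} (hg : L.Ip F g) {z : Ω}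
    (hz : L.nm z ≤ 1) : ∃ h : Ω, L.nm h ≤ 1 ∧
      g.eval z = g.coeff 0 + g.coeff 1 * z + z ^ 2 * h := by
  refine ⟨(g.divX.divX).eval z, L.eval_le (fun i => ?_) hz, ?_⟩
  · rw [coeff_divX, coeff_divX]
    exact (hg _).2
  · have h1 : g.eval z = g.divX.eval z * z + g.coeff 0 := by
      conv_lhs => rw [← divX_mul_X_add g]
      rw [eval_add, eval_mul, eval_X, eval_C]
    have h2 : g.divX.eval z = g.divX.divX.eval z * z + g.divX.coeff 0 := by
      conv_lhs => rw [← divX_mul_X_add g.divX]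
      rw [eval_add, eval_mul, eval_X, eval_C]
    rw [coeff_divX] at h2
    rw [h1, h2]
    ring

/-- The factor. Proof: `m'` as in `va_fac` (`Tm.dvd`, `Ip.dvd`). `nm (m'(z₀)) ≥ nm z₀` (`tm_nm` in `Sm/VaT.lean`: `nm (m(z₀)) = nm z₀ ^ e`); if the coefficients `0` and `1` of `m'` had norm `< 1` they would have norm `≤ nm p` (`ur_lt`) and `nm (m'(z₀)) ≤ max (nm p) (nm z₀ ^ 2) < nm z₀`
(`nm p < nm z₀ ^ (e + 1) ≤ nm z₀ ^ 2`). -/
theorem va_fac2 {e : ℕ} {m : Polynomial Ω} (hm : L.Tm M N 0 π e m) {D : ℕ} (hD : D ≠ 0)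
    (hN : N ≠ 0) {f : Polynomial Ω} (hf : L.Ip (L.Ur ⊥ (N * D)) f) (h0 : f.eval π = 0) {z₀ : Ω}
    (h1 : L.nm z₀ < 1) (h2 : L.nm (L.p : Ω) < L.nm z₀ ^ (e + 1))
    (h3 : L.nm z₀ ^ (e + 1) ≤ L.nm (f.eval z₀)) :
    ∃ m', L.Ip (L.Ur ⊥ (N * D)) m' ∧ f = m * m' ∧
      (L.nm (m'.coeff 0) = 1 ∨ L.nm (m'.coeff 1) = 1) := by
  have hd := hm.dvd D hD _ (fun i => (hf i).1) h0
  obtain ⟨q, hq, he⟩ := hf.dvd (hm.ip.mono (Ld.ur_dvd ⊥ (dvd_mul_right N D))) hm.monic hd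
  refine ⟨q, hq, he, ?_⟩
  have hz0 : 0 < L.nm z₀ := by
    rcases (L.nonneg z₀).lt_or_eq with h | h
    · exact h
    · rw [← h, zero_pow (Nat.succ_ne_zero e)] at h2
      exact absurd h2 (not_lt.2 (L.nonneg _))
  have hpe : 0 < L.nm z₀ ^ e := pow_pos hz0 e
  have h4 : L.nm (m.eval z₀) = L.nm z₀ ^ e := by
    refine tm_nm hm hN h1 (h2.trans_le ?_)
    rw [pow_succ]
    exact mul_le_of_le_one_right hpe.le h1.le
  have h5 : L.nm z₀ ≤ L.nm (q.eval z₀) := by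
    rw [he, eval_mul, L.mul, h4, pow_succ] at h3
    exact le_of_mul_le_mul_left h3 hpe
  have hp2 : L.nm (L.p : Ω) < L.nm z₀ ^ 2 := by
    refine h2.trans_le (pow_le_pow_of_le_one hz0.le h1.le ?_)
    have := Nat.pos_of_ne_zero hm.e0
    omega
  have hsq : L.nm z₀ ^ 2 < L.nm z₀ := by
    rw [sq]
    exact mul_lt_of_lt_one_left hz0 h1
  by_contra hcon
  rw [not_or] at hcon
  have h6 : ∀ i, L.nm (q.coeff i) ≠ 1 → L.nm (q.coeff i) ≤ L.nm (L.p : Ω) := by
    intro i hi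
    have h7 := Ld.ur_lt (mul_ne_zero hN hD) (hq i).1 (i := 0)
      (by rw [pow_zero]; exact lt_of_le_of_ne (hq i).2 hi)
    rwa [zero_add, pow_one] at h7
  obtain ⟨k, hk, hqk⟩ := va_lin hq h1.le
  have h8 : L.nm (q.eval z₀) < L.nm z₀ := by
    rw [hqk]
    refine (L.add _ _).trans_lt (max_lt ((L.add _ _).trans_lt (max_lt ?_ ?_)) ?_)
    · exact (h6 0 hcon.1).trans_lt (hp2.trans hsq)
    · rw [L.mul]
      exact mul_lt_of_lt_one_left hz0 (lt_of_le_of_ne (hq 1).2 hcon.2)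
    · rw [L.mul, L.pow]
      exact (mul_le_of_le_one_right (pow_nonneg (L.nonneg _) 2) hk).trans_lt hsq
  exact absurd h8 (not_lt.2 h5)

/-- **The roots.** Proof: a root `z` is integral. `nm z = 1`: as in `va_roots` (`hs`). Let `nm z < 1`. If `m'(z) ≠ 0`: `m(z) = 0` and the derivative is `m'(z)` times the derivative of `m` (`Tm.sep`). If `m'(z) = 0`: `nm (m'_0) < 1`, so
`nm (m'_1) = 1` and the derivative of `m'` at `z` has norm `1`; `m'` is monic; `root_ur`: `z ∈ Ur ⊥ N'`; `m(z) ≠ 0`: otherwise `z = γ π` (`Tm.conj`), `nm z = nm π`, but `nm z ≤ nm p` (`ur_lt`) and `nm p < nm π ^ 2 < nm π`. -/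
theorem va_roots2 {e : ℕ} {m m' : Polynomial Ω} (hm : L.Tm M N 0 π e m) (hu : L.Uf M π)
    (hlv : L.nm (L.p : Ω) < L.nm π ^ 2) {D : ℕ} (hD : D ≠ 0) (hN : N ≠ 0) {f : Polynomial Ω}
    {f' : Polynomial L.κ} (hf : L.Ip (L.Ur ⊥ (N * D)) f) (hfm : f.Monic) (hff : L.Hp f f')
    (hm' : L.Ip (L.Ur ⊥ (N * D)) m') (hfac : f = m * m')
    (hm1 : L.nm (m'.coeff 0) = 1 ∨ L.nm (m'.coeff 1) = 1)
    (hs : ∀ c : L.κ, c ≠ 0 → f'.eval c = 0 → (derivative f').eval c ≠ 0) {z : Ω}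
    (hz : f.eval z = 0) : (derivative f).eval z ≠ 0 ∧ L.nm z ≤ 1 ∧
      (L.nm z < 1 ∧ m.eval z = 0 ∨
        L.nm z < 1 ∧ m.eval z ≠ 0 ∧ (∃ N' : ℕ, N' ≠ 0 ∧ z ∈ L.Ur ⊥ N') ∨
        L.nm z = 1 ∧ L.nm ((derivative f).eval z) = 1) := by
  have hz1 : L.nm z ≤ 1 := L.root_le hfm (fun i => (hf i).2) hz
  rcases hz1.lt_or_eq with hc | hc
  · by_cases h2 : m'.eval z = 0
    · obtain ⟨k, hk, hmk⟩ := va_lin hm' hc.le
      have h3 : L.nm (m'.coeff 0) < 1 := by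
        have h4 : m'.coeff 0 = -(z * (m'.coeff 1 + z * k)) := by
          rw [h2] at hmk
          linear_combination -hmk
        rw [h4, L.neg, L.mul]
        refine mul_lt_one_of_nonneg_of_lt_one_left (L.nonneg _) hc ?_
        refine (L.add _ _).trans (max_le (hm' 1).2 ?_)
        rw [L.mul]
        exact mul_le_one₀ hc.le (L.nonneg _) hk
      have h5 : L.nm (m'.coeff 1) = 1 := hm1.resolve_left h3.ne
      have h6 : L.nm ((derivative m').eval z) = 1 := by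
        rw [← h5]
        refine L.eq_of_close ?_
        have h7 : m'.coeff 1 = (derivative m').eval 0 := by
          rw [← coeff_zero_eq_eval_zero, coeff_derivative, Nat.cast_zero, zero_add, zero_add,
            mul_one]
        rw [h5, h7]
        exact hm'.der.close hc.le (by rw [sub_zero]; exact hc)
      have h8 : m'.Monic := by
        rw [hfac] at hfm
        exact hm.monic.of_mul_monic_left hfm
      have hND : N * D ≠ 0 := mul_ne_zero hN hD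
      obtain ⟨N', hN', -, hzN⟩ := Ld.root_ur hND hm' h8 h2 h6
      have h9 : m.eval z ≠ 0 := by
        intro h10
        obtain ⟨γ, -, hγ⟩ := hm.conj D hD z h10
        have h11 := Ld.ur_lt hN' hzN (i := 0) (by rw [pow_zero]; exact hc)
        rw [zero_add, pow_one, hγ, L.act] at h11
        have h12 : L.nm π ^ 2 < L.nm π := by
          rw [sq]
          exact mul_lt_of_lt_one_left hu.pos hu.lt
        exact absurd h11 (not_le.2 (hlv.trans h12))
      refine ⟨?_, hz1, Or.inr (Or.inl ⟨hc, h9, N', hN', hzN⟩)⟩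
      rw [hfac, derivative_mul, eval_add, eval_mul, eval_mul, h2, mul_zero, zero_add]
      exact mul_ne_zero h9 (L.ne_zero (by rw [h6]; exact zero_lt_one))
    · have h3 : m.eval z = 0 := by
        rw [hfac, eval_mul] at hz
        exact (mul_eq_zero.1 hz).resolve_right h2
      refine ⟨?_, hz1, Or.inl ⟨hc, h3⟩⟩
      rw [hfac, derivative_mul, eval_add, eval_mul, eval_mul, h3, zero_mul, add_zero]
      exact mul_ne_zero (hm.sep z h3) h2
  · obtain ⟨ζ, hζ⟩ := L.hv_of hz1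
    have hζ0 : ζ ≠ 0 := (L.hv_ne hζ).2 hc
    have h2 := hff.eval hζ
    rw [hz] at h2
    have h3 := hs ζ hζ0 (h2.uniq Rs.Hv.zero)
    have h4 := (L.hv_ne (hff.der.eval hζ)).1 h3
    exact ⟨L.ne_zero (by rw [h4]; exact zero_lt_one), hz1, Or.inr (Or.inr ⟨hc, h4⟩)⟩

end NE
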