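import Pool.Agent.Lib.MP_f80667_ag.Sm.Nd
import Pool.Agent.Lib.MP_f80667_ag.Sm.VaT
import Pool.Agent.Lib.MP_f80667_ag.Nf.Va

/-!
The value of `Θ(z, A(z))`: auxiliary lemmas.
-/

open ZC BE PE Polynomial IntermediateField CV GM

namespace NE

variable {F : Type} [Field F] {K Ω : Type} [Field K] [Field Ω] [Algebra K Ω] [Algebra F K]
  [Algebra F Ω] [IsScalarTower F K Ω] [CharZero K] [IsAlgClosure K Ω] {L : Ld K Ω} [L.Unr] {n : ℕ}
  {W : Fin n → WeierstrassCurve F} {M : IntermediateField K Ω} {N : ℕ} {x y : Fin n → Ω} {π : Ω}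

omit [CharZero K] [Algebra F K] [Algebra F Ω] [IsScalarTower F K Ω] [IsAlgClosure K Ω] [L.Unr] in
private theorem va_comb {u v s t : Ω} (hu : u ∈ L.V) (hv : v ∈ L.V) (hs : L.nm s < 1)
    (ht : L.nm t < 1) : L.nm (u * s + v * t) < 1 := by
  refine (L.add _ _).trans_lt (max_lt ?_ ?_)
  · rw [L.mul]
    exact mul_lt_one_of_nonneg_of_lt_one_right hu (L.nonneg _) hs
  · rw [L.mul]
    exact mul_lt_one_of_nonneg_of_lt_one_right hv (L.nonneg _) ht

omit [CharZero K] [Algebra F K] [IsScalarTower F K Ω] [IsAlgClosure K Ω] [L.Unr] in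
/-- The equation and its derivatives at two close points. -/
private theorem va_cg {W : WeierstrassCurve F} (h : L.It W) {x y x' y' : Ω} (hx : L.nm x ≤ 1)
    (hy : L.nm y ≤ 1) (hx' : L.nm x' ≤ 1) (hy' : L.nm y' ≤ 1) (hxx : L.nm (x - x') < 1)
    (hyy : L.nm (y - y') < 1) : L.nm (fe W x y - fe W x' y') < 1 ∧
      L.nm (dx W x y - dx W x' y') < 1 ∧ L.nm (dy W x y - dy W x' y') < 1 := by
  have hx : x ∈ L.V := hx
  have hy : y ∈ L.V := hy
  have hx' : x' ∈ L.V := hx'
  have hy' : y' ∈ L.V := hy'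
  have h1 : algebraMap F Ω W.a₁ ∈ L.V := h.a₁
  have h2 : algebraMap F Ω W.a₂ ∈ L.V := h.a₂
  have h3 : algebraMap F Ω W.a₃ ∈ L.V := h.a₃
  have h4 : algebraMap F Ω W.a₄ ∈ L.V := h.a₄
  have e2 : (2 : Ω) ∈ L.V := ofNat_mem L.V 2
  have e3 : (3 : Ω) ∈ L.V := ofNat_mem L.V 3
  refine ⟨?_, ?_, ?_⟩
  · have e : fe W x y - fe W x' y' = (algebraMap F Ω W.a₁ * y' - (x ^ 2 + x * x' + x' ^ 2) -
        algebraMap F Ω W.a₂ * (x + x') - algebraMap F Ω W.a₄) * (x - x') +
        (y + y' + algebraMap F Ω W.a₁ * x + algebraMap F Ω W.a₃) * (y - y') := by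
      simp only [fe]
      ring
    rw [e]
    refine va_comb ?_ ?_ hxx hyy
    · exact sub_mem (sub_mem (sub_mem (mul_mem h1 hy') (add_mem (add_mem (pow_mem hx 2)
        (mul_mem hx hx')) (pow_mem hx' 2))) (mul_mem h2 (add_mem hx hx'))) h4
    · exact add_mem (add_mem (add_mem hy hy') (mul_mem h1 hx)) h3
  · have e : dx W x y - dx W x' y' = (3 * (x + x') + 2 * algebraMap F Ω W.a₂) * (x - x') +
        (-algebraMap F Ω W.a₁) * (y - y') := by
      simp only [dx]
      ring
    rw [e]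
    exact va_comb (add_mem (mul_mem e3 (add_mem hx hx')) (mul_mem e2 h2)) (neg_mem h1) hxx hyy
  · have e : dy W x y - dy W x' y' = algebraMap F Ω W.a₁ * (x - x') + 2 * (y - y') := by
      simp only [dy]
      ring
    rw [e]
    exact va_comb h1 e2 hxx hyy

omit [CharZero K] [Algebra F K] [Algebra F Ω] [IsScalarTower F K Ω] [IsAlgClosure K Ω] [L.Unr] in
private theorem va_lt {u v : Ω} (h : L.nm (u - v) < 1) (hv : L.nm v < 1) : L.nm u < 1 := by
  have h1 := L.add (u - v) v
  rw [sub_add_cancel] at h1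
  exact h1.trans_lt (max_lt h hv)

omit [CharZero K] [Algebra F K] [Algebra F Ω] [IsScalarTower F K Ω] [IsAlgClosure K Ω] [L.Unr] in
private theorem va_le {u v : Ω} (h : L.nm (u - v) < 1) (hv : L.nm v ≤ 1) : L.nm u ≤ 1 := by
  have h1 := L.add (u - v) v
  rw [sub_add_cancel] at h1
  exact h1.trans (max_le h.le hv)

omit [CharZero K] [Algebra F K] [Algebra F Ω] [IsScalarTower F K Ω] [IsAlgClosure K Ω] [L.Unr] in
private theorem va_one {u v : Ω} (h : L.nm (u - v) < 1) (hv : L.nm v = 1) : L.nm u = 1 := by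
  rw [← hv]
  exact L.eq_of_close (by rw [hv]; exact h)

omit [CharZero K] [Algebra F K] [Algebra F Ω] [IsScalarTower F K Ω] [IsAlgClosure K Ω] [L.Unr] in
private theorem va_tri {u v z : Ω} (h : L.nm (u - v) < 1) (h' : L.nm (v - z) < 1) :
    L.nm (u - z) < 1 := by
  have h1 := L.add (u - v) (v - z)
  rw [sub_add_sub_cancel] at h1
  exact h1.trans_lt (max_lt h h')

omit [CharZero K] [Algebra F K] [Algebra F Ω] [IsScalarTower F K Ω] [IsAlgClosure K Ω] [L.Unr] in
private theorem va_sum {ι : Type} (s : Finset ι) {f : ι → Ω} (h : ∀ i ∈ s, L.nm (f i) < 1) :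
    L.nm (∑ i ∈ s, f i) < 1 := by
  classical
  induction s using Finset.induction_on with
  | empty =>
    rw [Finset.sum_empty, L.zero]
    exact zero_lt_one
  | insert a s ha ih =>
    rw [Finset.sum_insert ha]
    exact (L.add _ _).trans_lt (max_lt (h a (Finset.mem_insert_self a s))
      (ih fun i hi => h i (Finset.mem_insert_of_mem hi)))

/-- A root near `y`. Proof: `(y - η) (y - η') = fe W x₀ y` for the two roots `η`, `η'` (`Ld.dy_root`), the norm is `< 1`. -/
theorem vc_near {W : WeierstrassCurve F} (h : L.It W) {x y x₀ : Ω} (hx1 : L.nm x ≤ 1)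
    (hy1 : L.nm y ≤ 1) (he : fe W x y = 0) (hx0 : L.nm x₀ ≤ 1) (hxx : L.nm (x₀ - x) < 1) :
    ∃ η : Ω, fe W x₀ η = 0 ∧ L.nm (η - y) < 1 := by
  obtain ⟨η, hη⟩ := Ld.dy_root K W x₀
  have hη' : fe W x₀ (-η - (algebraMap F Ω W.a₁ * x₀ + algebraMap F Ω W.a₃)) = 0 := by
    rw [← hη]
    simp only [fe]
    ring
  have hyy : L.nm (y - y) < 1 := by
    rw [sub_self, L.zero]
    exact zero_lt_one
  obtain ⟨k1, -, -⟩ := va_cg h hx0 hy1 hx1 hy1 hxx hyy
  rw [he, sub_zero] at k1
  have e : (η - y) * (-η - (algebraMap F Ω W.a₁ * x₀ + algebraMap F Ω W.a₃) - y) =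
      fe W x₀ y - fe W x₀ η := by
    simp only [fe]
    ring
  rw [hη, sub_zero] at e
  by_cases h1 : L.nm (η - y) < 1
  · exact ⟨η, hη, h1⟩
  · refine ⟨_, hη', ?_⟩
    by_contra h2
    rw [not_lt] at h1 h2
    rw [← e, L.mul] at k1
    have h3 := one_le_mul_of_one_le_of_one_le h1 h2
    exact absurd k1 (not_lt.2 h3)

/-- `th_prod` with the subsets instead of the sign vectors -/
private theorem vc_thp {k : Type} [Field k] {n : ℕ} {w B F η : Fin n → k} (h : ∀ i, η i ^ 2 + B i * η i = F i) :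
    th w B F = ∏ S : Finset (Fin n),
      (X - C (∑ i, w i * η i - ∑ i ∈ S, w i * (2 * η i + B i))) := by
  classical
  have h1 : ∀ i, (if (false = true) then -B i - η i else η i) +
      (if (true = true) then -B i - η i else η i) = -B i := by
    intro i
    simp
  have h2 : ∀ i, (if (false = true) then -B i - η i else η i) *
      (if (true = true) then -B i - η i else η i) = -F i := by
    intro i
    have h0 := h i
    simp only [Bool.false_eq_true, if_false, if_true]
    linear_combination -h0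
  rw [th_prod (w := w) (η := fun (i : Fin n) (b : Bool) => if b = true then -B i - η i else η i)
    h1 h2]
  refine Fintype.prod_bijective
    (fun ε : Fin n → Bool => (Finset.univ.filter fun i => ε i = true)) ?_ _ _ ?_
  · constructor
    · intro ε ε' he
      funext i
      have h3 : i ∈ (Finset.univ.filter fun i => ε i = true) ↔
          i ∈ (Finset.univ.filter fun i => ε' i = true) := by
        have h4 : (Finset.univ.filter fun i => ε i = true) =
          (Finset.univ.filter fun i => ε' i = true) := he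
        rw [h4]
      rw [Finset.mem_filter, Finset.mem_filter] at h3
      simp only [Finset.mem_univ, true_and] at h3
      cases hε : ε i <;> cases hε' : ε' i <;> simp_all
    · intro S
      refine ⟨fun i => decide (i ∈ S), ?_⟩
      ext i
      simp
  · intro ε
    have h3 : ∑ i, w i * (if ε i = true then -B i - η i else η i) =
        ∑ i, w i * η i - ∑ i ∈ Finset.univ.filter (fun i => ε i = true),
          w i * (2 * η i + B i) := by
      rw [Finset.sum_filter, ← Finset.sum_sub_distrib]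
      refine Finset.sum_congr rfl fun i _ => ?_
      by_cases hi : ε i = true
      · rw [if_pos hi, if_pos hi]
        ring
      · rw [if_neg hi, if_neg hi]
        ring
    show X - C (∑ i, w i * (if ε i = true then -B i - η i else η i)) = _
    rw [h3]

/-- The fibre. -/
private theorem vc_T {r : Fin n → Polynomial Ω} {w η : Fin n → Ω} {z : Ω}
    (hη : ∀ i, fe (W i) ((r i).eval z) (η i) = 0) (T : Ω) :
    (Tf (fun i => (W i).baseChange Ω) w fun i => (r i).eval z).eval T =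
      ∏ S : Finset (Fin n),
        (T - ∑ i, w i * η i + ∑ i ∈ S, w i * dy (W i) ((r i).eval z) (η i)) := by
  unfold Tf
  rw [th_val (η := η) (fun i => ?_)]
  · refine Finset.prod_congr rfl fun S _ => ?_
    congr 1
    refine Finset.sum_congr rfl fun i _ => ?_
    congr 1
    simp only [dy]
    show 2 * η i + (algebraMap F Ω (W i).a₁ * (r i).eval z + algebraMap F Ω (W i).a₃) = _
    ring
  · have h2 := hη i
    simp only [fe] at h2
    show η i ^ 2 + (algebraMap F Ω (W i).a₁ * (r i).eval z + algebraMap F Ω (W i).a₃) * η i =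
      (r i).eval z ^ 3 + algebraMap F Ω (W i).a₂ * (r i).eval z ^ 2 +
        algebraMap F Ω (W i).a₄ * (r i).eval z + algebraMap F Ω (W i).a₆
    linear_combination h2

/-- The value as a product. Proof: `va_val` in `Nf/Va.lean` (private, for `z = 0`). -/
theorem vc_val {r : Fin n → Polynomial Ω} {w η : Fin n → Ω} (A : Polynomial Ω) {z : Ω}
    (hη : ∀ i, fe (W i) ((r i).eval z) (η i) = 0) :
    ((To Ω W r w).eval A).eval z = ∏ S : Finset (Fin n),
      (A.eval z - ∑ i, w i * η i + ∑ i ∈ S, w i * dy (W i) ((r i).eval z) (η i)) := by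
  have h1 := tg_evA (fun i => (W i).baseChange Ω) r w A z
  rw [show (To Ω W r w) = Tg (fun i => (W i).baseChange Ω) r w from rfl, h1, vc_T hη]

/-- A simple root: exactly one factor is `0`. Proof: `tg_dY`, `th_val` for all `T` (the polynomial is the product of the `X - c_S`), `derivative_prod`. -/
theorem vc_sep {r : Fin n → Polynomial Ω} {w η : Fin n → Ω} (A : Polynomial Ω) {z : Ω}
    (hη : ∀ i, fe (W i) ((r i).eval z) (η i) = 0) {S₀ : Finset (Fin n)}
    (h0 : A.eval z - ∑ i, w i * η i + ∑ i ∈ S₀, w i * dy (W i) ((r i).eval z) (η i) = 0)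
    (h1 : ∀ S, S ≠ S₀ →
      A.eval z - ∑ i, w i * η i + ∑ i ∈ S, w i * dy (W i) ((r i).eval z) (η i) ≠ 0) :
    ev₂ (z, A.eval z) (dY (To Ω W r w)) ≠ 0 := by
  classical
  rw [show (To Ω W r w) = Tg (fun i => (W i).baseChange Ω) r w from rfl, tg_dY]
  obtain ⟨c, hc⟩ : ∃ c : Finset (Fin n) → Ω, ∀ S, c S = ∑ i, w i * η i -
      ∑ i ∈ S, w i * dy (W i) ((r i).eval z) (η i) := ⟨_, fun _ => rfl⟩
  have hP : (Tf (fun i => (W i).baseChange Ω) w fun i => (r i).eval z) =
      ∏ S : Finset (Fin n), (X - C (c S)) := by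
    unfold Tf
    rw [vc_thp (η := η) (fun i => ?_)]
    · refine Finset.prod_congr rfl fun S _ => ?_
      rw [hc]
      congr 3
      refine Finset.sum_congr rfl fun i _ => ?_
      congr 1
      simp only [dy]
      show 2 * η i + (algebraMap F Ω (W i).a₁ * (r i).eval z + algebraMap F Ω (W i).a₃) = _
      ring
    · have h2 := hη i
      simp only [fe] at h2
      show η i ^ 2 + (algebraMap F Ω (W i).a₁ * (r i).eval z + algebraMap F Ω (W i).a₃) * η i =
        (r i).eval z ^ 3 + algebraMap F Ω (W i).a₂ * (r i).eval z ^ 2 +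
          algebraMap F Ω (W i).a₄ * (r i).eval z + algebraMap F Ω (W i).a₆
      linear_combination h2
  have h0' : A.eval z - c S₀ = 0 := by
    rw [hc]
    linear_combination h0
  rw [hP, ← Finset.mul_prod_erase Finset.univ _ (Finset.mem_univ S₀), derivative_mul, eval_add,
    eval_mul, eval_mul, derivative_sub, derivative_X, derivative_C, eval_sub, eval_sub, eval_X,
    eval_C, h0', zero_mul, add_zero, eval_one, eval_zero, sub_zero, one_mul, eval_prod]
  refine Finset.prod_ne_zero_iff.2 fun S hS => ?_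
  rw [eval_sub, eval_X, eval_C, hc]
  have h2 := h1 S (Finset.ne_of_mem_erase hS)
  intro h3
  apply h2
  linear_combination h3

/-- The coordinates at `z`. Proof: `Ip.close`, `Ip.eval`, `hm.root`. -/
theorem vc_x (h : Go L W M N π x y) {e : ℕ} {m : Polynomial Ω} (hm : L.Tm M N 0 π e m)
    {f : Fin n → Polynomial Ω} (hf : ∀ i, L.Ip (L.Ur ⊥ N) (f i))
    (hfx : ∀ i, (f i).eval π = x i) {z : Ω} (hz : L.nm z < 1) (i : Fin n) :
    L.nm ((f i + X * m).eval z) ≤ 1 ∧ L.nm ((f i + X * m).eval z - x i) < 1 := by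
  have hR : L.Ip (L.Ur ⊥ N) (f i + X * m) := (hf i).add (Ld.Ip.X.mul hm.ip)
  have hRπ : (f i + X * m).eval π = x i := by
    rw [eval_add, eval_mul, eval_X, hm.root, mul_zero, add_zero, hfx]
  have hzπ : L.nm (z - π) < 1 := by
    rw [sub_eq_add_neg]
    refine (L.add _ _).trans_lt (max_lt hz ?_)
    rw [L.neg]
    exact h.uf.lt
  refine ⟨L.eval_le (fun j => (hR j).2) hz.le, ?_⟩
  rw [← hRπ]
  exact hR.close hz.le hzπ

/-- `A(z)` is near `∑ w_i y_i`. Proof: `hsm` in `va_zero` (`Nf/Va.lean`). -/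
theorem vc_A (h : Go L W M N π x y) {e : ℕ} {m : Polynomial Ω} (hm : L.Tm M N 0 π e m) {D : ℕ}
    {w : Fin n → Ω} (hw1 : ∀ i, L.nm (w i) = 1) {A₁ : Polynomial Ω}
    (hA : L.Ip (L.Ur ⊥ (N * D)) A₁) (hA0 : A₁.eval π = ∑ i, w i * y i) {z : Ω} (hz : L.nm z < 1)
    {η : Fin n → Ω} (hη : ∀ i, L.nm (η i - y i) < 1) {l : Ω} (hl : L.nm l ≤ 1) :
    L.nm ((A₁ + C l * m).eval z - ∑ i, w i * η i) < 1 := by
  have hzπ : L.nm (z - π) < 1 := by
    rw [sub_eq_add_neg]
    refine (L.add _ _).trans_lt (max_lt hz ?_)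
    rw [L.neg]
    exact h.uf.lt
  have hAA : L.nm (A₁.eval z - ∑ i, w i * y i) < 1 := by
    rw [← hA0]
    exact hA.close hz.le hzπ
  have hmz : L.nm (m.eval z) < 1 := by
    have h1 := hm.ip.close hz.le hzπ
    rwa [hm.root, sub_zero] at h1
  have e : (A₁ + C l * m).eval z - ∑ i, w i * η i = (A₁.eval z - ∑ i, w i * y i) +
      l * m.eval z - ∑ i, w i * (η i - y i) := by
    have e1 : ∑ i, w i * (η i - y i) = ∑ i, w i * η i - ∑ i, w i * y i := by
      rw [← Finset.sum_sub_distrib]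
      exact Finset.sum_congr rfl fun i _ => mul_sub _ _ _
    rw [eval_add, eval_mul, eval_C, e1]
    ring
  rw [e]
  refine Ld.dy_sub_lt (Ld.dy_add_lt hAA ?_) (va_sum _ fun i _ => ?_)
  · rw [L.mul]
    exact mul_lt_one_of_nonneg_of_lt_one_right hl (L.nonneg _) hmz
  · rw [L.mul, hw1, one_mul]
    exact hη i

/-- The factors which are units. Proof: `hun` in `va_zero` (`Nf/Va.lean`). -/
theorem vc_unit (h : Go L W M N π x y) {e : ℕ} {m : Polynomial Ω} (hm : L.Tm M N 0 π e m) {D : ℕ}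
    {f : Fin n → Polynomial Ω} (hf : ∀ i, L.Ip (L.Ur ⊥ N) (f i))
    (hfx : ∀ i, (f i).eval π = x i) {w : Fin n → Ω} (hw1 : ∀ i, L.nm (w i) = 1)
    {A₁ : Polynomial Ω} (hA : L.Ip (L.Ur ⊥ (N * D)) A₁) (hA0 : A₁.eval π = ∑ i, w i * y i)
    (hS : ∀ S : Finset (Fin n), (∃ i ∈ S, L.nm (dy (W i) (x i) (y i)) = 1) →
      L.nm (∑ i ∈ S, w i * dy (W i) (x i) (y i)) = 1)
    {z : Ω} (hz : L.nm z < 1) {η : Fin n → Ω} (hη : ∀ i, L.nm (η i - y i) < 1) {l : Ω}
    (hl : L.nm l ≤ 1) {S : Finset (Fin n)} (hSi : ∃ i ∈ S, L.nm (dy (W i) (x i) (y i)) = 1) :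
    L.nm ((A₁ + C l * m).eval z - ∑ i, w i * η i +
      ∑ i ∈ S, w i * dy (W i) ((f i + X * m).eval z) (η i)) = 1 := by
  refine va_one (v := ∑ i ∈ S, w i * dy (W i) (x i) (y i)) ?_ (hS S hSi)
  have e : (A₁ + C l * m).eval z - ∑ i, w i * η i +
      ∑ i ∈ S, w i * dy (W i) ((f i + X * m).eval z) (η i) -
        ∑ i ∈ S, w i * dy (W i) (x i) (y i) =
      ((A₁ + C l * m).eval z - ∑ i, w i * η i) +
        ∑ i ∈ S, w i * (dy (W i) ((f i + X * m).eval z) (η i) - dy (W i) (x i) (y i)) := by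
    have e1 : ∑ i ∈ S, w i * (dy (W i) ((f i + X * m).eval z) (η i) - dy (W i) (x i) (y i)) =
        ∑ i ∈ S, w i * dy (W i) ((f i + X * m).eval z) (η i) -
          ∑ i ∈ S, w i * dy (W i) (x i) (y i) := by
      rw [← Finset.sum_sub_distrib]
      exact Finset.sum_congr rfl fun i _ => mul_sub _ _ _
    rw [e1]
    ring
  rw [e]
  refine Ld.dy_add_lt (vc_A h hm hw1 hA hA0 hz hη hl) (va_sum _ fun i _ => ?_)
  rw [L.mul, hw1, one_mul]
  obtain ⟨k1, k2⟩ := vc_x h hm hf hfx hz i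
  exact (va_cg (h.it i) k1 (va_le (hη i) (h.yl i)) (h.xl i) (h.yl i) k2 (hη i)).2.2

end NE
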