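import Pool.Agent.Lib.MP_f80667_ag.Sm.VaC

/-!
The value of `Θ(z, A(z))` at a point `z₀` of norm near `1`: the value.
-/

open ZC BE PE Polynomial IntermediateField CV GM

namespace NE

variable {F : Type} [Field F] {K Ω : Type} [Field K] [Field Ω] [Algebra K Ω] [Algebra F K]
  [Algebra F Ω] [IsScalarTower F K Ω] [CharZero K] [IsAlgClosure K Ω] {L : Ld K Ω} [L.Unr] {n : ℕ}
  {W : Fin n → WeierstrassCurve F} {M : IntermediateField K Ω} {N : ℕ} {x y : Fin n → Ω} {π : Ω}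

omit [CharZero K] [Algebra F K] [Algebra F Ω] [IsScalarTower F K Ω] [IsAlgClosure K Ω] [L.Unr] in
private theorem vd_prod {ι : Type} (s : Finset ι) (f : ι → Ω) :
    L.nm (∏ i ∈ s, f i) = ∏ i ∈ s, L.nm (f i) := by
  classical
  induction s using Finset.induction_on with
  | empty => rw [Finset.prod_empty, Finset.prod_empty, L.one]
  | insert a s ha ih => rw [Finset.prod_insert ha, Finset.prod_insert ha, L.mul, ih]

omit [CharZero K] [Algebra F K] [Algebra F Ω] [IsScalarTower F K Ω] [IsAlgClosure K Ω] [L.Unr] in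
/-- All but one residue of `l` are good. -/
private theorem vd_ex (L : Ld K Ω) (a c : Ω) : ∃ s : Finset L.κ, ∀ (l : Ω) (ρ : L.κ),
    L.rs.Hv l ρ → ρ ∉ s → L.nm c ≤ L.nm (a + l * c) := by
  classical
  by_cases hc : c = 0
  · refine ⟨∅, fun l ρ _ _ => ?_⟩
    rw [hc, L.zero]
    exact L.nonneg _
  obtain ⟨q, hq⟩ : ∃ q, q = a / c := ⟨_, rfl⟩
  have hcq : ∀ l : Ω, a + l * c = c * (q + l) := by
    intro l
    rw [hq]
    field_simp
  have hc0 : 0 < L.nm c := L.pos hc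
  by_cases hq1 : L.nm q ≤ 1
  · refine ⟨{-L.rr q}, fun l ρ hl hρ => ?_⟩
    rw [Finset.mem_singleton] at hρ
    have hcl : L.nm (q + l) = 1 := by
      rw [← L.hv_ne ((L.hv_rr hq1).add hl)]
      intro h0
      exact hρ (eq_neg_of_add_eq_zero_right h0)
    rw [hcq, L.mul, hcl, mul_one]
  · refine ⟨∅, fun l ρ hl _ => ?_⟩
    rw [not_le] at hq1
    have h1 : L.nm (q + l) = L.nm q := L.add_eq' ((L.hv_int hl).trans_lt hq1)
    rw [hcq, L.mul, h1]
    exact le_mul_of_one_le_right hc0.le hq1.le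

/-- **The value at `z₀`.** `z₀ ^ (e + 2) = p`; `η` near `y` (`vc_near`, `vc_x`), `vc_val`, `vc_unit`: the factors with a unit `dy i`, `i ∈ S`, are units. All `dy i` units: the remaining factor is `a = a₁ + l m(z₀)` with
`a₁ = A₁(z₀) - ∑ w_i η_i`, `nm (m(z₀)) = nm z₀ ^ e` (`tm_nm`): `nm a ≥ nm z₀ ^ e` if `- a₁ / m(z₀)` is not integral or its residue is not the residue of `l`. Otherwise let `i₀` be the index with `Sl`: the remaining factors are `a = a₁ + l m(z₀)` (`S = ∅`) and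
`b = a + w_(i₀) dy_(i₀)` (`S = {i₀}`), `nm a`, `nm b ≥ nm z₀ ^ e` if two residues are excluded, `nm (a - b) = nm (dy) = nm (R (z₀) - x₀) = nm z₀` (`Sl`; `lv_nm` for `g = f i₀ - x₀`, `nm (z₀ m(z₀)) = nm z₀ ^ (e + 1) < nm z₀`), so `max (nm a) (nm b) ≥ nm z₀` and `nm (a b) ≥ nm z₀ ^ (e + 1)`. -/
theorem va_first (h : Go L W M N π x y) {e : ℕ} {m : Polynomial Ω} (hm : L.Tm M N 0 π e m)
    {D : ℕ} (hD : D ≠ 0) {f : Fin n → Polynomial Ω} (hf : ∀ i, L.Ip (L.Ur ⊥ N) (f i))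
    (hfd : ∀ i, (f i).natDegree < e) (hfx : ∀ i, (f i).eval π = x i) {w : Fin n → Ω}
    (hw : ∀ i, w i ∈ L.Ur ⊥ (N * D)) (hw1 : ∀ i, L.nm (w i) = 1) {A₁ : Polynomial Ω}
    (hA : L.Ip (L.Ur ⊥ (N * D)) A₁) (hA0 : A₁.eval π = ∑ i, w i * y i)
    (hS : ∀ S : Finset (Fin n), (∃ i ∈ S, L.nm (dy (W i) (x i) (y i)) = 1) →
      L.nm (∑ i ∈ S, w i * dy (W i) (x i) (y i)) = 1) :
    ∃ z₀ : Ω, L.nm z₀ < 1 ∧ L.nm (L.p : Ω) < L.nm z₀ ^ (e + 1) ∧ ∃ s : Finset L.κ,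
      ∀ (l : Ω) (ρ : L.κ), L.rs.Hv l ρ → ρ ∉ s →
        L.nm z₀ ^ (e + 1) ≤
          L.nm (((To Ω W (fun i => f i + X * m) w).eval (A₁ + C l * m)).eval z₀) := by
  classical
  have hac : IsAlgClosed Ω := IsAlgClosure.isAlgClosed K
  have hN : N ≠ 0 := h.rf.ne
  have hp0 : 0 < L.nm (L.p : Ω) := L.p_pos
  have hp1 : L.nm (L.p : Ω) < 1 := L.lt
  have he : 0 < e := Nat.pos_of_ne_zero hm.e0
  obtain ⟨z₀, hz₀⟩ : ∃ z₀ : Ω, z₀ ^ (e + 2) = (L.p : Ω) :=
    IsAlgClosed.exists_pow_nat_eq _ (Nat.succ_pos _)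
  have hr : L.nm z₀ ^ (e + 2) = L.nm (L.p : Ω) := by rw [← L.pow, hz₀]
  have hr0 : 0 < L.nm z₀ := by
    refine lt_of_le_of_ne (L.nonneg _) fun h0 => ?_
    rw [← h0, zero_pow (Nat.succ_ne_zero _)] at hr
    exact hp0.ne hr
  have hr1 : L.nm z₀ < 1 := by
    by_contra hcon
    rw [not_lt] at hcon
    have h1 := one_le_pow₀ hcon (n := e + 2)
    rw [hr] at h1
    exact absurd hp1 (not_lt.2 h1)
  have hlt : ∀ k, k < e + 2 → L.nm (L.p : Ω) < L.nm z₀ ^ k := by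
    intro k hk
    rw [← hr]
    exact pow_lt_pow_right_of_lt_one₀ hr0 hr1 hk
  refine ⟨z₀, hr1, hlt _ (Nat.lt_succ_self _), ?_⟩
  have hmz : L.nm (m.eval z₀) = L.nm z₀ ^ e := tm_nm hm hN hr1 (hlt e (by omega))
  have hx := fun i => vc_x h hm hf hfx hr1 i
  choose η hη0 hηy using fun i => vc_near (h.it i) (h.xl i) (h.yl i) (h.eq i) (hx i).1 (hx i).2
  have hval := fun A : Polynomial Ω => vc_val (w := w) A hη0
  have hA' : ∀ l : Ω, (A₁ + C l * m).eval z₀ - ∑ i, w i * η i =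
      (A₁.eval z₀ - ∑ i, w i * η i) + l * m.eval z₀ := by
    intro l
    rw [eval_add, eval_mul, eval_C]
    ring
  obtain ⟨s, hs⟩ := vd_ex L (A₁.eval z₀ - ∑ i, w i * η i) (m.eval z₀)
  by_cases hall : ∀ i, L.nm (dy (W i) (x i) (y i)) = 1
  · refine ⟨s, fun l ρ hl hρ => ?_⟩
    have hl1 : L.nm l ≤ 1 := L.hv_int hl
    rw [hval, vd_prod, Finset.prod_eq_single (∅ : Finset (Fin n))]
    · rw [Finset.sum_empty, add_zero, hA']
      refine le_trans ?_ (hs l ρ hl hρ)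
      rw [hmz]
      exact pow_le_pow_of_le_one hr0.le hr1.le (Nat.le_succ _)
    · intro S _ hS0
      obtain ⟨i, hi⟩ := Finset.nonempty_iff_ne_empty.2 hS0
      exact vc_unit h hm hf hfx hw1 hA hA0 hS hr1 hηy hl1 ⟨i, hi, hall i⟩
    · intro h1
      exact absurd (Finset.mem_univ _) h1
  · rw [not_forall] at hall
    obtain ⟨i₀, hi₀⟩ := hall
    obtain ⟨hdy, x₀, hx₀, hx₀1, hxx, hsl⟩ := (h.sg i₀).resolve_left hi₀
    have hsmooth : ∀ i, i ≠ i₀ → L.nm (dy (W i) (x i) (y i)) = 1 := fun i hi =>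
      (h.one i i₀ hi).resolve_right hi₀
    have hx₀N : x₀ ∈ L.Ur ⊥ N := (bot_le : ⊥ ≤ L.Ur ⊥ N) hx₀
    have hg : L.Ip (L.Ur ⊥ N) (f i₀ - C x₀) := (hf i₀).sub (Ld.Ip.C hx₀N hx₀1)
    have hgz : L.nm ((f i₀ - C x₀).eval z₀) = L.nm z₀ := by
      refine lv_nm hN hg h.uf.pos h.uf.lt h.lv ?_ hr1 ?_
      · rw [eval_sub, eval_C, hfx, hxx]
      · have h1 := hlt 1 (by omega)
        rwa [pow_one] at h1
    have hlt1 : L.nm z₀ ^ (e + 1) < L.nm z₀ := by
      have h1 := pow_lt_pow_right_of_lt_one₀ hr0 hr1 (show 1 < e + 1 by omega)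
      rwa [pow_one] at h1
    have hRx : L.nm ((f i₀ + X * m).eval z₀ - x₀) = L.nm z₀ := by
      have e1 : (f i₀ + X * m).eval z₀ - x₀ = (f i₀ - C x₀).eval z₀ + z₀ * m.eval z₀ := by
        rw [eval_add, eval_mul, eval_X, eval_sub, eval_C]
        ring
      rw [e1, L.add_eq' ?_, hgz]
      rw [hgz, L.mul, hmz, ← pow_succ']
      exact hlt1
    have hd : L.nm (dy (W i₀) ((f i₀ + X * m).eval z₀) (η i₀)) = L.nm z₀ := by
      rw [hsl _ _ (hη0 i₀) (by rw [hRx]; exact hr1) (by rw [hRx]; exact hlt 2 (by omega)), hRx]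
    obtain ⟨s', hs'⟩ := vd_ex L (A₁.eval z₀ - ∑ i, w i * η i +
      w i₀ * dy (W i₀) ((f i₀ + X * m).eval z₀) (η i₀)) (m.eval z₀)
    refine ⟨s ∪ s', fun l ρ hl hρ => ?_⟩
    rw [Finset.mem_union, not_or] at hρ
    have hl1 : L.nm l ≤ 1 := L.hv_int hl
    have ha := hs l ρ hl hρ.1
    have hb := hs' l ρ hl hρ.2
    rw [hmz] at ha hb
    have hne : (∅ : Finset (Fin n)) ≠ {i₀} := (Finset.singleton_ne_empty i₀).symm
    rw [hval, vd_prod, Finset.prod_eq_mul (∅ : Finset (Fin n)) {i₀} hne]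
    · rw [Finset.sum_empty, Finset.sum_singleton, add_zero, hA']
      obtain ⟨a, ha'⟩ : ∃ a, a = A₁.eval z₀ - ∑ i, w i * η i + l * m.eval z₀ := ⟨_, rfl⟩
      obtain ⟨t, ht⟩ : ∃ t, t = w i₀ * dy (W i₀) ((f i₀ + X * m).eval z₀) (η i₀) := ⟨_, rfl⟩
      have hb' : L.nm z₀ ^ e ≤ L.nm (a + t) := by
        have e1 : a + t = A₁.eval z₀ - ∑ i, w i * η i +
            w i₀ * dy (W i₀) ((f i₀ + X * m).eval z₀) (η i₀) + l * m.eval z₀ := by
          rw [ha', ht]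
          ring
        rw [e1]
        exact hb
      rw [← ha'] at ha
      have htn : L.nm t = L.nm z₀ := by
        rw [ht, L.mul, hw1, one_mul, hd]
      rw [← ha', ← ht]
      have hmax : L.nm z₀ ≤ L.nm a ∨ L.nm z₀ ≤ L.nm (a + t) := by
        by_contra hcon
        rw [not_or, not_le, not_le] at hcon
        have h1 := L.add (a + t) (-a)
        rw [L.neg, show a + t + -a = t by ring, htn] at h1
        exact absurd (h1.trans_lt (max_lt hcon.2 hcon.1)) (lt_irrefl _)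
      have hz0e : 0 ≤ L.nm z₀ ^ e := pow_nonneg hr0.le _
      rcases hmax with h1 | h1
      · rw [pow_succ']
        exact mul_le_mul h1 hb' hz0e (L.nonneg _)
      · rw [pow_succ]
        exact mul_le_mul ha h1 hr0.le (L.nonneg _)
    · rintro S - ⟨hS0, hS1⟩
      obtain ⟨i, hi, hii⟩ : ∃ i ∈ S, i ≠ i₀ := by
        by_contra hc
        push Not at hc
        rcases S.eq_empty_or_nonempty with h1 | ⟨j, hj⟩
        · exact hS0 h1
        · refine hS1 (Finset.eq_singleton_iff_unique_mem.2 ⟨?_, hc⟩)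
          rw [← hc j hj]
          exact hj
      exact vc_unit h hm hf hfx hw1 hA hA0 hS hr1 hηy hl1 ⟨i, hi, hsmooth i hii⟩
    · intro h1
      exact absurd (Finset.mem_univ _) h1
    · intro h1
      exact absurd (Finset.mem_univ _) h1

end NE
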