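import Pool.Agent.Lib.MP_f80667_ag.Sm.VaC

/-!
The value of `Θ(z, A(z))`: simple roots.
-/

open ZC BE PE Polynomial IntermediateField CV GM

namespace NE

variable {F : Type} [Field F] {K Ω : Type} [Field K] [Field Ω] [Algebra K Ω] [Algebra F K]
  [Algebra F Ω] [IsScalarTower F K Ω] [CharZero K] [IsAlgClosure K Ω] {L : Ld K Ω} [L.Unr] {n : ℕ}
  {W : Fin n → WeierstrassCurve F} {M : IntermediateField K Ω} {N : ℕ} {x y : Fin n → Ω} {π : Ω}

/-- The points over which `dy` vanishes. Proof: `dy ^ 2 = 4 R ^ 3 + b₂ R ^ 2 + 2 b₄ R + b₆` for `R = f + X m` (because `fe = 0`), a polynomial in `z` which is not `0`: `R` has the degree `e + 1 > 0` (`f` has a smaller degree) and the leading coefficient of the cubic polynomial is `4 ≠ 0`. -/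
theorem vc_fin [CharZero Ω] {W : WeierstrassCurve F} {e : ℕ} {m f : Polynomial Ω} (hm : m.Monic)
    (hmd : m.natDegree = e) (hf : f.natDegree < e) :
    {z : Ω | ∃ η : Ω, fe W ((f + X * m).eval z) η = 0 ∧
      dy W ((f + X * m).eval z) η = 0}.Finite := by
  classical
  have h4 : (4 : Ω) ≠ 0 := by norm_num
  obtain ⟨G, hG⟩ : ∃ G : Polynomial Ω, G = C 4 * X ^ 3 + (C (4 * algebraMap F Ω W.a₂) * X ^ 2 +
      C (4 * algebraMap F Ω W.a₄) * X + C (4 * algebraMap F Ω W.a₆) +
      (C (algebraMap F Ω W.a₁) * X + C (algebraMap F Ω W.a₃)) ^ 2) := ⟨_, rfl⟩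
  have hGc : G.coeff 3 = 4 := by
    have e : G = C 4 * X ^ 3 + C (4 * algebraMap F Ω W.a₂ + algebraMap F Ω W.a₁ ^ 2) * X ^ 2 +
        C (4 * algebraMap F Ω W.a₄ + 2 * algebraMap F Ω W.a₁ * algebraMap F Ω W.a₃) * X +
        C (4 * algebraMap F Ω W.a₆ + algebraMap F Ω W.a₃ ^ 2) := by
      rw [hG]
      simp only [map_add, map_mul, map_pow, map_ofNat]
      ring
    rw [e]
    simp only [coeff_add, coeff_C_mul_X_pow, coeff_C_mul_X, coeff_C]
    norm_num
  have hG0 : G ≠ 0 := by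
    intro h
    rw [h, coeff_zero] at hGc
    exact h4 hGc.symm
  have hRd : (f + X * m).natDegree = e + 1 := by
    have h1 : (X * m).natDegree = e + 1 := by
      rw [natDegree_X_mul hm.ne_zero, hmd]
    rw [natDegree_add_eq_right_of_natDegree_lt (by rw [h1]; omega), h1]
  have hP : G.comp (f + X * m) ≠ 0 := by
    intro h
    rcases comp_eq_zero_iff.1 h with h1 | ⟨-, h1⟩
    · exact hG0 h1
    · rw [h1, natDegree_C] at hRd
      omega
  refine (G.comp (f + X * m)).roots.toFinset.finite_toSet.subset fun z hz => ?_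
  obtain ⟨η, h1, h2⟩ := hz
  rw [Finset.mem_coe, Multiset.mem_toFinset, mem_roots hP, IsRoot.def, eval_comp]
  generalize (f + X * m).eval z = x at h1 h2
  rw [hG]
  simp only [fe, dy, eval_add, eval_mul, eval_pow, eval_C, eval_X] at h1 h2 ⊢
  linear_combination (2 * η + algebraMap F Ω W.a₁ * x + algebraMap F Ω W.a₃) * h2 - 4 * h1

/-- **Simple roots.** For every `z` with `nm z < 1` choose a family `η` near `y` of roots (`vc_near`, `vc_x`), the factors with a unit `dy i`, `i ∈ S`, are units (`vc_unit`). All `dy i` units: only the factor `S = ∅` can vanish: `vc_sep`. Otherwise let `i₀` be the index with a non-unit: only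
`a` (`S = ∅`) and `b = a + w_(i₀) dy_(i₀)` (`S = {i₀}`) can vanish; if only one of them is `0`: `vc_sep`. If both are `0` then `dy_(i₀) = 0`, so `z` is in the finite set `vc_fin`, and `l = - a₁(z) / m(z)` with `a₁ (z) = A₁(z) - ∑ w_i η_i(z)` for the CHOSEN family (`choose`): `s` is the set of the residues of these finitely many numbers. -/
theorem va_second (h : Go L W M N π x y) {e : ℕ} {m : Polynomial Ω} (hm : L.Tm M N 0 π e m)
    {D : ℕ} (hD : D ≠ 0) {f : Fin n → Polynomial Ω} (hf : ∀ i, L.Ip (L.Ur ⊥ N) (f i))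
    (hfd : ∀ i, (f i).natDegree < e) (hfx : ∀ i, (f i).eval π = x i) {w : Fin n → Ω}
    (hw : ∀ i, w i ∈ L.Ur ⊥ (N * D)) (hw1 : ∀ i, L.nm (w i) = 1) {A₁ : Polynomial Ω}
    (hA : L.Ip (L.Ur ⊥ (N * D)) A₁) (hA0 : A₁.eval π = ∑ i, w i * y i)
    (hS : ∀ S : Finset (Fin n), (∃ i ∈ S, L.nm (dy (W i) (x i) (y i)) = 1) →
      L.nm (∑ i ∈ S, w i * dy (W i) (x i) (y i)) = 1) :
    ∃ s : Finset L.κ, ∀ (l : Ω) (ρ : L.κ), L.rs.Hv l ρ → ρ ∉ s →
      ∀ z : Ω, L.nm z < 1 → m.eval z ≠ 0 →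
        ((To Ω W (fun i => f i + X * m) w).eval (A₁ + C l * m)).eval z = 0 →
        ev₂ (z, (A₁ + C l * m).eval z) (dY (To Ω W (fun i => f i + X * m) w)) ≠ 0 := by
  classical
  have _ := hD
  have _ := hw
  have hex : ∀ (z : Ω) (i : Fin n), ∃ η : Ω, L.nm z < 1 →
      fe (W i) ((f i + X * m).eval z) η = 0 ∧ L.nm (η - y i) < 1 := by
    intro z i
    by_cases hz : L.nm z < 1
    · obtain ⟨h1, h2⟩ := vc_x h hm hf hfx hz i
      obtain ⟨η, h3, h4⟩ := vc_near (h.it i) (h.xl i) (h.yl i) (h.eq i) h1 h2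
      exact ⟨η, fun _ => ⟨h3, h4⟩⟩
    · exact ⟨0, fun h0 => absurd h0 hz⟩
  choose η hη using hex
  have hev : ∀ l z : Ω, (A₁ + C l * m).eval z = A₁.eval z + l * m.eval z := by
    intro l z
    rw [eval_add, eval_mul, eval_C]
  have hw0 : ∀ i, w i ≠ 0 := fun i h0 => by
    have h1 := hw1 i
    rw [h0, L.zero] at h1
    exact zero_ne_one h1
  have hun : ∀ l z : Ω, L.nm l ≤ 1 → L.nm z < 1 → ∀ S : Finset (Fin n),
      (∃ i ∈ S, L.nm (dy (W i) (x i) (y i)) = 1) →
      (A₁ + C l * m).eval z - ∑ i, w i * η z i +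
        ∑ i ∈ S, w i * dy (W i) ((f i + X * m).eval z) (η z i) ≠ 0 := by
    intro l z hl hz S hSi h0
    have h1 := vc_unit h hm hf hfx hw1 hA hA0 hS hz (fun i => (hη z i hz).2) hl hSi
    rw [h0, L.zero] at h1
    exact zero_ne_one h1
  by_cases hall : ∀ i, L.nm (dy (W i) (x i) (y i)) = 1
  · refine ⟨∅, fun l ρ hl _ z hz _ h0 => ?_⟩
    have hl1 : L.nm l ≤ 1 := L.hv_int hl
    have hηz : ∀ i, fe (W i) (((fun i => f i + X * m) i).eval z) (η z i) = 0 := fun i =>
      (hη z i hz).1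
    have hne : ∀ S : Finset (Fin n), S ≠ ∅ → (A₁ + C l * m).eval z - ∑ i, w i * η z i +
        ∑ i ∈ S, w i * dy (W i) ((f i + X * m).eval z) (η z i) ≠ 0 := by
      intro S hS0
      obtain ⟨i, hi⟩ := Finset.nonempty_iff_ne_empty.2 hS0
      exact hun l z hl1 hz S ⟨i, hi, hall i⟩
    rw [vc_val (A₁ + C l * m) hηz] at h0
    obtain ⟨S, -, hS1⟩ := Finset.prod_eq_zero_iff.1 h0
    by_cases hSe : S = ∅
    · subst hSe
      exact vc_sep (A₁ + C l * m) hηz hS1 hne
    · exact absurd hS1 (hne S hSe)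
  · push Not at hall
    obtain ⟨i₀, hi₀⟩ := hall
    have hoth : ∀ i, i ≠ i₀ → L.nm (dy (W i) (x i) (y i)) = 1 := fun i hi =>
      (h.one i i₀ hi).resolve_right hi₀
    have hch : CharZero Ω := charZero_of_injective_algebraMap (algebraMap K Ω).injective
    have hfin := vc_fin (W := W i₀) (e := e) (m := m) (f := f i₀) hm.monic hm.deg (hfd i₀)
    refine ⟨hfin.toFinset.image fun z =>
      L.rr (-(A₁.eval z - ∑ i, w i * η z i) / m.eval z), fun l ρ hl hρ z hz hmz h0 => ?_⟩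
    have hl1 : L.nm l ≤ 1 := L.hv_int hl
    have hηz : ∀ i, fe (W i) (((fun i => f i + X * m) i).eval z) (η z i) = 0 := fun i =>
      (hη z i hz).1
    have hne : ∀ S : Finset (Fin n), S ≠ ∅ → S ≠ {i₀} →
        (A₁ + C l * m).eval z - ∑ i, w i * η z i +
        ∑ i ∈ S, w i * dy (W i) ((f i + X * m).eval z) (η z i) ≠ 0 := by
      intro S hS0 hS1
      obtain ⟨i, hi, hii⟩ : ∃ i ∈ S, i ≠ i₀ := by
        by_contra hcon
        push Not at hcon
        obtain ⟨j, hj⟩ := Finset.nonempty_iff_ne_empty.2 hS0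
        refine hS1 (Finset.eq_singleton_iff_unique_mem.2 ⟨?_, hcon⟩)
        rw [← hcon j hj]
        exact hj
      exact hun l z hl1 hz S ⟨i, hi, hoth i hii⟩
    have hnot : ¬ ((A₁ + C l * m).eval z - ∑ i, w i * η z i = 0 ∧
        w i₀ * dy (W i₀) ((f i₀ + X * m).eval z) (η z i₀) = 0) := by
      rintro ⟨h1, h2⟩
      have h3 : dy (W i₀) ((f i₀ + X * m).eval z) (η z i₀) = 0 :=
        (mul_eq_zero.1 h2).resolve_left (hw0 i₀)
      apply hρ
      rw [Finset.mem_image]
      refine ⟨z, hfin.mem_toFinset.2 ⟨η z i₀, hηz i₀, h3⟩, ?_⟩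
      have h4 : -(A₁.eval z - ∑ i, w i * η z i) / m.eval z = l := by
        rw [div_eq_iff hmz]
        rw [hev] at h1
        linear_combination -h1
      rw [h4]
      exact (L.hv_rr hl1).uniq hl
    rw [vc_val (A₁ + C l * m) hηz] at h0
    obtain ⟨S, -, hS1⟩ := Finset.prod_eq_zero_iff.1 h0
    by_cases hSe : S = ∅
    · subst hSe
      refine vc_sep (A₁ + C l * m) hηz hS1 fun S' hS' => ?_
      by_cases hSi : S' = {i₀}
      · subst hSi
        intro h5
        rw [Finset.sum_empty, add_zero] at hS1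
        rw [hS1, zero_add, Finset.sum_singleton] at h5
        exact hnot ⟨hS1, h5⟩
      · exact hne S' hS' hSi
    · by_cases hSi : S = {i₀}
      · subst hSi
        refine vc_sep (A₁ + C l * m) hηz hS1 fun S' hS' => ?_
        by_cases hSe' : S' = ∅
        · subst hSe'
          intro h5
          rw [Finset.sum_empty, add_zero] at h5
          rw [h5, zero_add, Finset.sum_singleton] at hS1
          exact hnot ⟨h5, hS1⟩
        · exact hne S' hSe' hS'
      · exact absurd hS1 (hne S hSe hSi)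

end NE
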